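import Pool.Agent.H547R9.T_CLM

/-!
# Assembly
-/

set_option autoImplicit false

namespace Pool.Agent.H547R9

open Pool.Agent.H547R6 Pool.Agent.H547R7 Pool.Agent.H547R8 Pool.Agent.NPC

/-- from a game to a game over `B` -/
theorem am_of {B : Set BFun} (K : ∀ n : ℕ, ℕ → BF n → Prop)
    (G : ∀ n : ℕ, BF (n + n) → BF (n + n + 2)) (hren : S_REN)
    (hval : ∀ n C, amv (re n (G n C)) = (1 + amv C) / 2)
    (htime : ∀ V : List Bool → List Bool, PolyTime V → ∃ V' : List Bool → List Bool,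
      PolyTime V' ∧ ∀ x n, acc V' x ((n + 1) + (n + 1)) = re n (G n (acc V x (n + n))))
    (hcirc : ∃ c : ℕ, ∀ n s C, K (n + n) s C →
      Computes B (n + n + 2) (c * (s + (n + n) + 1)) (G n C))
    {L : Set (List Bool)} {V : List Bool → List Bool} {p q : Polynomial ℕ} (hV : PolyTime V)
    {a b : ℝ} (hab : b < a)
    (h : ∀ x : List Bool, K (p.eval x.length + p.eval x.length) (q.eval x.length)
        (acc V x (p.eval x.length + p.eval x.length)) ∧
      (x ∈ L → a ≤ amv (acc V x (p.eval x.length + p.eval x.length))) ∧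
      (x ∉ L → amv (acc V x (p.eval x.length + p.eval x.length)) ≤ b)) : L ∈ AMover B := by
  obtain ⟨V', hV', hacc⟩ := htime V hV
  obtain ⟨c, hc⟩ := hcirc
  refine ⟨V', p + 1, Polynomial.C c * (q + (p + p) + 1), (1 + a) / 2, (1 + b) / 2, hV',
    by linarith, fun x => ?_⟩
  obtain ⟨h1, h2, h3⟩ := h x
  have e : (p + 1 : Polynomial ℕ).eval x.length = p.eval x.length + 1 := by
    simp [Polynomial.eval_add]
  have e2 : (Polynomial.C c * (q + (p + p) + 1) : Polynomial ℕ).eval x.length =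
      c * (q.eval x.length + (p.eval x.length + p.eval x.length) + 1) := by
    simp [Polynomial.eval_add, Polynomial.eval_mul]
  rw [e, e2, hacc, hval]
  refine ⟨hren.2.2 _ _ _ _ (hc _ _ _ h1), fun hx => ?_, fun hx => ?_⟩
  · have := h2 hx
    linarith
  · have := h3 hx
    linarith

/-- from a game to a game over `B` -/
theorem ma_of {B : Set BFun} (K : ∀ n : ℕ, ℕ → BF n → Prop)
    (G : ∀ n : ℕ, BF (n + n) → BF (n + n + 2)) (hren : S_REN)
    (hval : ∀ n C, ∀ a b : ℝ, 0 ≤ b →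
      ((∃ y, a ≤ mav C y) → ∃ y, (1 + a) / 2 ≤ mav (re n (G n C)) y) ∧
      ((∀ y, mav C y ≤ b) → ∀ y, mav (re n (G n C)) y ≤ (1 + b) / 2))
    (htime : ∀ V : List Bool → List Bool, PolyTime V → ∃ V' : List Bool → List Bool,
      PolyTime V' ∧ ∀ x n, acc V' x ((n + 1) + (n + 1)) = re n (G n (acc V x (n + n))))
    (hcirc : ∃ c : ℕ, ∀ n s C, K (n + n) s C →
      Computes B (n + n + 2) (c * (s + (n + n) + 1)) (G n C))
    {L : Set (List Bool)} {V : List Bool → List Bool} {p q : Polynomial ℕ} (hV : PolyTime V)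
    {a b : ℝ} (hab : b < a) (hb : 0 ≤ b)
    (h : ∀ x : List Bool, K (p.eval x.length + p.eval x.length) (q.eval x.length)
        (acc V x (p.eval x.length + p.eval x.length)) ∧
      (x ∈ L → ∃ y, a ≤ mav (acc V x (p.eval x.length + p.eval x.length)) y) ∧
      (x ∉ L → ∀ y, mav (acc V x (p.eval x.length + p.eval x.length)) y ≤ b)) :
    L ∈ MAover B := by
  obtain ⟨V', hV', hacc⟩ := htime V hV
  obtain ⟨c, hc⟩ := hcirc
  refine ⟨V', p + 1, Polynomial.C c * (q + (p + p) + 1), (1 + a) / 2, (1 + b) / 2, hV',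
    by linarith, fun x => ?_⟩
  obtain ⟨h1, h2, h3⟩ := h x
  have e : (p + 1 : Polynomial ℕ).eval x.length = p.eval x.length + 1 := by
    simp [Polynomial.eval_add]
  have e2 : (Polynomial.C c * (q + (p + p) + 1) : Polynomial ℕ).eval x.length =
      c * (q.eval x.length + (p.eval x.length + p.eval x.length) + 1) := by
    simp [Polynomial.eval_add, Polynomial.eval_mul]
  rw [e, e2, hacc]
  exact ⟨hren.2.2 _ _ _ _ (hc _ _ _ h1), fun hx => (hval _ _ a b hb).1 (h2 hx),
    fun hx => (hval _ _ a b hb).2 (h3 hx)⟩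

theorem amv_first {n : ℕ} (M : BF n) :
    amv (fun z : Fin (n + n) → Bool => M fun i => z (Fin.castAdd n i)) = pr M := by
  unfold amv
  congr 1
  funext r
  simp only [Fin.append_left]
  cases h : M r <;> simp [h]

theorem mav_first {n : ℕ} (M : BF n) (y : Fin n → Bool) :
    mav (fun z : Fin (n + n) → Bool => M fun i => z (Fin.castAdd n i)) y = pr M := by
  unfold mav
  simp only [Fin.append_left]

/-- the polynomial for the number of bits of `mono` -/
noncomputable def NP' (p : Polynomial ℕ) : Polynomial ℕ :=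
  2 * (150 * (2 * (8 * (p + 1) ^ 2) + 1) ^ 2) * (2 * (8 * (p + 1) ^ 2))

theorem NP'_eval (p : Polynomial ℕ) (m : ℕ) :
    (NP' p).eval m = 2 * kh (p.eval m) * (2 * hh (p.eval m)) := by
  simp [NP', kh, hh, Polynomial.eval_add, Polynomial.eval_mul, Polynomial.eval_pow]

theorem ckt2 (hckt : S_CKT) {V : List Bool → List Bool} (hV : PolyTime V) {p : Polynomial ℕ}
    (hp : ∀ m, 1 ≤ p.eval m) : ∃ q : Polynomial ℕ, ∀ x : List Bool,
      Comp0 (p.eval x.length + p.eval x.length) (q.eval x.length)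
        (acc V x (p.eval x.length + p.eval x.length)) := by
  obtain ⟨q, hq⟩ := hckt V hV (p + p) (fun m => by
    rw [Polynomial.eval_add]
    have := hp m
    omega)
  refine ⟨q, fun x => ?_⟩
  have := hq x
  rwa [Polynomial.eval_add] at this

/-- the general case -/
theorem full_of (hckt : S_CKT) (hren : S_REN) (hvam : S_VAM) (hvma : S_VMA) (htre : S_TRE)
    (hnam : S_NAM) (hnma : S_NMA) (hs2c : S_S2C) (hsdc : S_SDC) (hhjc : S_HJC)
    {B : Set BFun} (hM : ¬ B ⊆ Mon) (hA : ¬ B ⊆ Aff) : MA ⊆ MAover B ∧ AM ⊆ AMover B := by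
  have key : ∃ G : ∀ n : ℕ, BF (n + n) → BF (n + n + 2),
      (∀ n C, amv (re n (G n C)) = (1 + amv C) / 2) ∧
      (∀ n C, ∀ a b : ℝ, 0 ≤ b →
        ((∃ y, a ≤ mav C y) → ∃ y, (1 + a) / 2 ≤ mav (re n (G n C)) y) ∧
        ((∀ y, mav C y ≤ b) → ∀ y, mav (re n (G n C)) y ≤ (1 + b) / 2)) ∧
      (∀ V : List Bool → List Bool, PolyTime V → ∃ V' : List Bool → List Bool,
        PolyTime V' ∧ ∀ x n, acc V' x ((n + 1) + (n + 1)) = re n (G n (acc V x (n + n)))) ∧
      (∃ c : ℕ, ∀ n s C, Comp0 (n + n) s C →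
        Computes B (n + n + 2) (c * (s + (n + n) + 1)) (G n C)) := by
    rcases t_C3 B hM hA with h | h | h
    · exact ⟨fun n C => S2 (n + n) C, fun n C => (hvam n C).1,
        fun n C a b hb => hvma n C _ (Or.inl rfl) a b hb, fun V hV => (htre V hV).1,
        (hs2c B h).imp fun c hc n s C => hc (n + n) s C⟩
    · exact ⟨fun n C => S3 (n + n) C, fun n C => (hvam n C).2.1,
        fun n C a b hb => hvma n C _ (Or.inr (Or.inl rfl)) a b hb, fun V hV => (htre V hV).2.1,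
        (hsdc B h).imp fun c hc n s C => hc (n + n) s C⟩
    · exact ⟨fun n C => MJ (n + n) C, fun n C => (hvam n C).2.2,
        fun n C a b hb => hvma n C _ (Or.inr (Or.inr rfl)) a b hb, fun V hV => (htre V hV).2.2,
        (hhjc B h).imp fun c hc n s C => hc (n + n) s C⟩
  obtain ⟨G, g1, g2, g3, g4⟩ := key
  constructor
  · intro L hL
    obtain ⟨V, p, hV, hp, h⟩ := hnma L hL
    obtain ⟨q, hq⟩ := ckt2 hckt hV hp
    exact ma_of (fun n s C => Comp0 n s C) G hren g2 g3 g4 hV (a := 2 / 3) (b := 1 / 3)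
      (by norm_num) (by norm_num) fun x => ⟨hq x, h x⟩
  · intro L hL
    obtain ⟨V, p, hV, hp, h⟩ := hnam L hL
    obtain ⟨q, hq⟩ := ckt2 hckt hV hp
    exact am_of (fun n s C => Comp0 n s C) G hren g1 g3 g4 hV (a := 2 / 3) (b := 1 / 3)
      (by norm_num) fun x => ⟨hq x, h x⟩

/-- the monotone case -/
theorem mono_of (hckt : S_CKT) (hren : S_REN) (hvam : S_VAM) (hvma : S_VMA) (htre : S_TRE)
    (hnbp : S_NBP) (hmon : S_MON) (hmoc : S_MOC) (htmo : S_TMO) (hmsc : S_MSC) (hmsd : S_MSD)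
    (hmjc : S_MJC) {B : Set BFun} (hM : B ⊆ Mon) (hC : ¬ B ⊆ Conj) (hD : ¬ B ⊆ Disj) :
    BPP ⊆ MAover B ∧ BPP ⊆ AMover B := by
  have key : ∃ G : ∀ n : ℕ, BF (n + n) → BF (n + n + 2),
      (∀ n C, amv (re n (G n C)) = (1 + amv C) / 2) ∧
      (∀ n C, ∀ a b : ℝ, 0 ≤ b →
        ((∃ y, a ≤ mav C y) → ∃ y, (1 + a) / 2 ≤ mav (re n (G n C)) y) ∧
        ((∀ y, mav C y ≤ b) → ∀ y, mav (re n (G n C)) y ≤ (1 + b) / 2)) ∧
      (∀ V : List Bool → List Bool, PolyTime V → ∃ V' : List Bool → List Bool,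
        PolyTime V' ∧ ∀ x n, acc V' x ((n + 1) + (n + 1)) = re n (G n (acc V x (n + n)))) ∧
      (∃ c : ℕ, ∀ n s C, Computes MB (n + n) s C →
        Computes B (n + n + 2) (c * (s + (n + n) + 1)) (G n C)) := by
    have le : ∀ (c n s : ℕ) (F : BF (n + n + 2)), Computes B (n + n + 2) (c * (s + 1)) F →
        Computes B (n + n + 2) (c * (s + (n + n) + 1)) F := by
      rintro c n s F ⟨l, h1, h2, h3⟩
      exact ⟨l, h1, h2.trans (Nat.mul_le_mul_left _ (by omega)), h3⟩
    rcases t_C2 B hM hC hD with h | h | h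
    · exact ⟨fun n C => S2 (n + n) C, fun n C => (hvam n C).1,
        fun n C a b hb => hvma n C _ (Or.inl rfl) a b hb, fun V hV => (htre V hV).1,
        (hmsc B h).imp fun c hc n s C hCC => le c n s _ (hc (n + n) s C hCC)⟩
    · exact ⟨fun n C => S3 (n + n) C, fun n C => (hvam n C).2.1,
        fun n C a b hb => hvma n C _ (Or.inr (Or.inl rfl)) a b hb, fun V hV => (htre V hV).2.1,
        (hmsd B h).imp fun c hc n s C hCC => le c n s _ (hc (n + n) s C hCC)⟩
    · exact ⟨fun n C => MJ (n + n) C, fun n C => (hvam n C).2.2,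
        fun n C a b hb => hvma n C _ (Or.inr (Or.inr rfl)) a b hb, fun V hV => (htre V hV).2.2,
        (hmjc B h).imp fun c hc n s C hCC => le c n s _ (hc (n + n) s C hCC)⟩
  obtain ⟨G, g1, g2, g3, g4⟩ := key
  have src : ∀ L ∈ BPP, ∃ (V : List Bool → List Bool) (p q : Polynomial ℕ), PolyTime V ∧
      ∀ x : List Bool, Computes MB (p.eval x.length + p.eval x.length) (q.eval x.length)
        (acc V x (p.eval x.length + p.eval x.length)) ∧
        ∃ M : BF (p.eval x.length), (acc V x (p.eval x.length + p.eval x.length) =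
          fun z => M fun i => z (Fin.castAdd _ i)) ∧
          (x ∈ L → 3 / 4 ≤ pr M) ∧ (x ∉ L → pr M ≤ 1 / 4) := by
    intro L hL
    obtain ⟨V, p, hV, hp, h⟩ := hnbp L hL
    obtain ⟨q, hq⟩ := hckt V hV p hp
    obtain ⟨V', hV', hacc⟩ := htmo V hV
    obtain ⟨c, hc⟩ := hmoc
    refine ⟨V', NP' p, Polynomial.C c * (p + q + 1) ^ c, hV', fun x => ?_⟩
    rw [NP'_eval, hacc]
    refine ⟨?_, mono _ (acc V x (p.eval x.length)), rfl, fun hx => (hmon _ _).1 ((h x).1 hx),
      fun hx => (hmon _ _).2 ((h x).2 hx)⟩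
    have h1 := hc _ _ _ (hq x)
    have h2 := hren.1 MB _ (2 * kh (p.eval x.length) * (2 * hh (p.eval x.length)) +
      2 * kh (p.eval x.length) * (2 * hh (p.eval x.length))) _ (Fin.castAdd _) _ h1
    simpa [Polynomial.eval_add, Polynomial.eval_mul, Polynomial.eval_pow] using h2
  constructor
  · intro L hL
    obtain ⟨V, p, q, hV, h⟩ := src L hL
    refine ma_of (fun n s C => Computes MB n s C) G hren g2 g3 g4 (p := p) (q := q) hV
      (a := 3 / 4) (b := 1 / 4) (by norm_num) (by norm_num) fun x => ?_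
    obtain ⟨h1, M, h2, h3, h4⟩ := h x
    refine ⟨h1, fun hx => ⟨fun _ => false, ?_⟩, fun hx y => ?_⟩
    · rw [h2, mav_first]
      exact h3 hx
    · rw [h2, mav_first]
      exact h4 hx
  · intro L hL
    obtain ⟨V, p, q, hV, h⟩ := src L hL
    refine am_of (fun n s C => Computes MB n s C) G hren g1 g3 g4 (p := p) (q := q) hV
      (a := 3 / 4) (b := 1 / 4) (by norm_num) fun x => ?_
    obtain ⟨h1, M, h2, h3, h4⟩ := h x
    refine ⟨h1, fun hx => ?_, fun hx => ?_⟩
    · rw [h2, amv_first]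
      exact h3 hx
    · rw [h2, amv_first]
      exact h4 hx

/-- the main theorem from the tasks -/
theorem main_of (hckt : S_CKT) (hren : S_REN) (hvam : S_VAM) (hvma : S_VMA) (htre : S_TRE)
    (hnam : S_NAM) (hnma : S_NMA) (hnbp : S_NBP) (hs2c : S_S2C) (hsdc : S_SDC) (hhjc : S_HJC)
    (hmon : S_MON) (hmoc : S_MOC) (htmo : S_TMO) (hmsc : S_MSC) (hmsd : S_MSD) (hmjc : S_MJC)
    (hamc : S_AMC) (hmac : S_MAC) (hmup : S_MUP) (hpa1 : S_PA1) (hpa2 : S_PA2) (hpa3 : S_PA3)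
    (hpsb : S_PSB) (B : Set BFun) :
    ((B ⊆ Aff ∨ B ⊆ Conj ∨ B ⊆ Disj) → MAover B = P ∧ AMover B = P) ∧
    (B ⊆ Mon → ¬ B ⊆ Conj → ¬ B ⊆ Disj → MAover B = BPP ∧ AMover B = BPP) ∧
    (¬ B ⊆ Mon → ¬ B ⊆ Aff → MAover B = MA ∧ AMover B = AM) := by
  refine ⟨fun h => ?_, fun hM hC hD => ?_, fun hM hA => ?_⟩
  · have h1 : AMover B ⊆ P ∧ MAover B ⊆ P := by
      rcases h with h | h | h
      · exact hpa1 B h
      · exact hpa2 B h
      · exact hpa3 B h
    exact ⟨Set.Subset.antisymm h1.2 (hpsb B).2, Set.Subset.antisymm h1.1 (hpsb B).1⟩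
  · have h1 := hmup B hM
    have h2 := mono_of hckt hren hvam hvma htre hnbp hmon hmoc htmo hmsc hmsd hmjc hM hC hD
    exact ⟨Set.Subset.antisymm h1.2 h2.1, Set.Subset.antisymm h1.1 h2.2⟩
  · have h2 := full_of hckt hren hvam hvma htre hnam hnma hs2c hsdc hhjc hM hA
    refine ⟨Set.Subset.antisymm ?_ h2.1, Set.Subset.antisymm ?_ h2.2⟩
    · rintro L ⟨V, p, q, a, b, hV, hab, h⟩
      exact hmac L V p a b hV hab fun x => (h x).2
    · rintro L ⟨V, p, q, a, b, hV, hab, h⟩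
      exact hamc L V p a b hV hab fun x => (h x).2

end Pool.Agent.H547R9
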