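import Pool.Agent.H547R8.Defs

/-!
# Merlin-Arthur and Arthur-Merlin games over sets of Boolean functions: definitions
-/

set_option autoImplicit false

namespace Pool.Agent.H547R9

open Pool.Agent.H547R6 Pool.Agent.H547R7 Pool.Agent.H547R8 Pool.Agent.NPC

/-- The value of the Arthur-Merlin game with the predicate `F`: the fraction of the random strings
`r` for which some message `y` makes `F (r, y)` true. -/
noncomputable def amv {n : ℕ} (F : BF (n + n)) : ℝ :=
  pr fun r : Fin n → Bool => decide (∃ y : Fin n → Bool, F (Fin.append r y) = true)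

/-- The fraction of the random strings `r` for which `F (r, y)` is true. -/
noncomputable def mav {n : ℕ} (F : BF (n + n)) (y : Fin n → Bool) : ℝ :=
  pr fun r : Fin n → Bool => F (Fin.append r y)

/-- The class `BPP`. -/
def BPP : Set (Set (List Bool)) :=
  {L | ∃ (V : List Bool → List Bool) (p : Polynomial ℕ), PolyTime V ∧
    ∀ x, (x ∈ L → 2 / 3 ≤ pr (acc V x (p.eval x.length))) ∧
      (x ∉ L → pr (acc V x (p.eval x.length)) ≤ 1 / 3)}

/-- The class `AM`: first the random string `r`, then Merlin's message `y`, both of length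
`p(|x|)`. -/
def AM : Set (Set (List Bool)) :=
  {L | ∃ (V : List Bool → List Bool) (p : Polynomial ℕ), PolyTime V ∧
    ∀ x, (x ∈ L → 2 / 3 ≤ amv (acc V x (p.eval x.length + p.eval x.length))) ∧
      (x ∉ L → amv (acc V x (p.eval x.length + p.eval x.length)) ≤ 1 / 3)}

/-- The class `MA`: first Merlin's message `y`, then the random string `r`. -/
def MA : Set (Set (List Bool)) :=
  {L | ∃ (V : List Bool → List Bool) (p : Polynomial ℕ), PolyTime V ∧
    ∀ x, (x ∈ L → ∃ y, 2 / 3 ≤ mav (acc V x (p.eval x.length + p.eval x.length)) y) ∧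
      (x ∉ L → ∀ y, mav (acc V x (p.eval x.length + p.eval x.length)) y ≤ 1 / 3)}

/-- `AM` over `B`: the languages with Arthur-Merlin games, with any constant gap `b < a`, such
that for every input `x` Arthur's predicate on `(r, y)` is computed by a circuit of polynomial
size over `B`. -/
def AMover (B : Set BFun) : Set (Set (List Bool)) :=
  {L | ∃ (V : List Bool → List Bool) (p q : Polynomial ℕ) (a b : ℝ), PolyTime V ∧ b < a ∧
    ∀ x, Computes B (p.eval x.length + p.eval x.length) (q.eval x.length)
        (acc V x (p.eval x.length + p.eval x.length)) ∧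
      (x ∈ L → a ≤ amv (acc V x (p.eval x.length + p.eval x.length))) ∧
      (x ∉ L → amv (acc V x (p.eval x.length + p.eval x.length)) ≤ b)}

/-- `MA` over `B`. -/
def MAover (B : Set BFun) : Set (Set (List Bool)) :=
  {L | ∃ (V : List Bool → List Bool) (p q : Polynomial ℕ) (a b : ℝ), PolyTime V ∧ b < a ∧
    ∀ x, Computes B (p.eval x.length + p.eval x.length) (q.eval x.length)
        (acc V x (p.eval x.length + p.eval x.length)) ∧
      (x ∈ L → ∃ y, a ≤ mav (acc V x (p.eval x.length + p.eval x.length)) y) ∧
      (x ∉ L → ∀ y, mav (acc V x (p.eval x.length + p.eval x.length)) y ≤ b)}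

/-! ### auxiliary notions for the proof -/

/-- the function for the gate sets with `a ∧ (b ∨ ¬ c)` -/
def S3 (n : ℕ) (C : BF n) : BF (n + 2) := fun y => y 1 && (y 0 || C fun i => y i.succ.succ)

/-- the function `G`, with its first variable put in front of the random string and its second
variable in front of Merlin's message -/
def re (n : ℕ) (G : BF (n + n + 2)) : BF ((n + 1) + (n + 1)) := fun z =>
  G (Fin.cons (z (Fin.castAdd (n + 1) 0)) (Fin.cons (z (Fin.natAdd (n + 1) 0))
    (Fin.append (fun i => z (Fin.castAdd (n + 1) i.succ))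
      (fun i => z (Fin.natAdd (n + 1) i.succ)))))

/-- the slice at weight `h` of `D` (which reads the first `n` of the `2 h` bits) -/
def mid (n h : ℕ) (D : BF n) (hn : n ≤ 2 * h) : BF (2 * h) :=
  slice (2 * h) h fun z => D fun i => z (Fin.castLE hn i)

/-- the half length of a block -/
def hh (n : ℕ) : ℕ := 8 * (n + 1) ^ 2

/-- half of the number of blocks -/
def kh (n : ℕ) : ℕ := 150 * (2 * hh n + 1) ^ 2

theorem hh_le (n : ℕ) : n ≤ 2 * hh n := by
  unfold hh
  nlinarith [Nat.zero_le n]

/-- the monotone function made of `D`: the majority of slice functions on blocks -/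
def mono (n : ℕ) (D : BF n) : BF (2 * kh n * (2 * hh n)) := fun z =>
  decide (kh n ≤ cnt (fun _ : Fin (2 * kh n) => mid n (hh n) D (hh_le n)) (blk z))

end Pool.Agent.H547R9
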