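import Pool.Agent.H547R9.Defs
import Pool.Agent.H547R8.Stm2
import Pool.Agent.H547R8.T_CLN

/-!
# Statements of the tasks
-/

set_option autoImplicit false

namespace Pool.Agent.H547R9

open Pool.Agent.H547R6 Pool.Agent.H547R7 Pool.Agent.H547R8 Pool.Agent.NPC

/-! ### values -/

/-- values of the Arthur-Merlin games -/
def S_VAM : Prop := ∀ (n : ℕ) (C : BF (n + n)),
  amv (re n (S2 (n + n) C)) = (1 + amv C) / 2 ∧ amv (re n (S3 (n + n) C)) = (1 + amv C) / 2 ∧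
    amv (re n (MJ (n + n) C)) = (1 + amv C) / 2

/-- values of the Merlin-Arthur games -/
def S_VMA : Prop := ∀ (n : ℕ) (C : BF (n + n)) (G : BF (n + n + 2)),
  (G = S2 (n + n) C ∨ G = S3 (n + n) C ∨ G = MJ (n + n) C) → ∀ a b : ℝ, 0 ≤ b →
    ((∃ y, a ≤ mav C y) → ∃ y, (1 + a) / 2 ≤ mav (re n G) y) ∧
    ((∀ y, mav C y ≤ b) → ∀ y, mav (re n G) y ≤ (1 + b) / 2)

/-- the slice function at half weight -/
def S_MID : Prop := ∀ (n : ℕ) (D : BF n),
  (2 / 3 ≤ pr D → 1 / 2 + 1 / (12 * (2 * hh n + 1)) ≤ pr (mid n (hh n) D (hh_le n))) ∧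
  (pr D ≤ 1 / 3 → pr (mid n (hh n) D (hh_le n)) ≤ 1 / 2 - 1 / (12 * (2 * hh n + 1)))

/-- the majority of many slice functions -/
def S_MON : Prop := ∀ (n : ℕ) (D : BF n),
  (2 / 3 ≤ pr D → 3 / 4 ≤ pr (mono n D)) ∧ (pr D ≤ 1 / 3 → pr (mono n D) ≤ 1 / 4)

/-! ### circuits -/

/-- renaming of variables -/
def S_REN : Prop :=
  (∀ (B : Set BFun) (n m s : ℕ) (σ : Fin n → Fin m) (C : BF n), Computes B n s C →
    Computes B m s fun z => C fun i => z (σ i)) ∧
  (∀ (n m s : ℕ) (σ : Fin n → Fin m) (C : BF n), Comp0 n s C →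
    Comp0 m s fun z => C fun i => z (σ i)) ∧
  (∀ (B : Set BFun) (n s : ℕ) (G : BF (n + n + 2)), Computes B (n + n + 2) s G →
    Computes B ((n + 1) + (n + 1)) s (re n G))

/-- monotone circuits for `mono` -/
def S_MOC : Prop := ∃ c : ℕ, ∀ (n s : ℕ) (D : BF n), Comp0 n s D →
  Computes MB (2 * kh n * (2 * hh n)) (c * (n + s + 1) ^ c) (mono n D)

/-- circuits for `S2` of monotone functions -/
def S_MSC : Prop := ∀ B : Set BFun, Op3 B oD →
  ∃ c : ℕ, ∀ (n s : ℕ) (M : BF n), Computes MB n s M → Computes B (n + 2) (c * (s + 1)) (S2 n M)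

/-- circuits for `S3` of monotone functions -/
def S_MSD : Prop := ∀ B : Set BFun, Op3 B oS →
  ∃ c : ℕ, ∀ (n s : ℕ) (M : BF n), Computes MB n s M → Computes B (n + 2) (c * (s + 1)) (S3 n M)

/-- circuits for `S3` -/
def S_SDC : Prop := ∀ B : Set BFun, Op3 B (fun a b c => a && (b || !c)) →
  ∃ c : ℕ, ∀ (n s : ℕ) (C : BF n), Comp0 n s C → Computes B (n + 2) (c * (s + n + 1)) (S3 n C)

/-- circuits for `MJ` -/
def S_HJC : Prop := ∀ B : Set BFun, Op3 B (fun a b c => bmaj a b (!c)) →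
  ∃ c : ℕ, ∀ (n s : ℕ) (C : BF n), Comp0 n s C → Computes B (n + 2) (c * (s + n + 1)) (MJ n C)

/-! ### gate sets -/

/-- gate sets that are not monotone and not affine -/
def S_C3 : Prop := ∀ B : Set BFun, ¬ B ⊆ Mon → ¬ B ⊆ Aff →
  Op3 B (fun a b c => a || (b && !c)) ∨ Op3 B (fun a b c => a && (b || !c)) ∨
    Op3 B (fun a b c => bmaj a b (!c))

/-- monotone gate sets -/
def S_C2 : Prop := ∀ B : Set BFun, B ⊆ Mon → ¬ B ⊆ Conj → ¬ B ⊆ Disj →
  Op3 B oD ∨ Op3 B oS ∨ Op3 B bmaj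

/-! ### polynomial time -/

/-- the three functions in polynomial time -/
def S_TRE : Prop := ∀ V : List Bool → List Bool, PolyTime V →
  (∃ V' : List Bool → List Bool, PolyTime V' ∧
    ∀ x n, acc V' x ((n + 1) + (n + 1)) = re n (S2 (n + n) (acc V x (n + n)))) ∧
  (∃ V' : List Bool → List Bool, PolyTime V' ∧
    ∀ x n, acc V' x ((n + 1) + (n + 1)) = re n (S3 (n + n) (acc V x (n + n)))) ∧
  (∃ V' : List Bool → List Bool, PolyTime V' ∧
    ∀ x n, acc V' x ((n + 1) + (n + 1)) = re n (MJ (n + n) (acc V x (n + n))))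

/-- `mono` in polynomial time (with a message that is not used) -/
def S_TMO : Prop := ∀ V : List Bool → List Bool, PolyTime V →
  ∃ V' : List Bool → List Bool, PolyTime V' ∧
    ∀ x n, acc V' x (2 * kh n * (2 * hh n) + 2 * kh n * (2 * hh n)) =
      fun z => mono n (acc V x n) fun i => z (Fin.castAdd _ i)

/-! ### amplification and upper bounds -/

/-- amplification for Arthur-Merlin games -/
def S_AMC : Prop := ∀ (L : Set (List Bool)) (V : List Bool → List Bool) (p : Polynomial ℕ)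
  (a b : ℝ), PolyTime V → b < a →
  (∀ x, (x ∈ L → a ≤ amv (acc V x (p.eval x.length + p.eval x.length))) ∧
    (x ∉ L → amv (acc V x (p.eval x.length + p.eval x.length)) ≤ b)) → L ∈ AM

/-- amplification for Merlin-Arthur games -/
def S_MAC : Prop := ∀ (L : Set (List Bool)) (V : List Bool → List Bool) (p : Polynomial ℕ)
  (a b : ℝ), PolyTime V → b < a →
  (∀ x, (x ∈ L → ∃ y, a ≤ mav (acc V x (p.eval x.length + p.eval x.length)) y) ∧
    (x ∉ L → ∀ y, mav (acc V x (p.eval x.length + p.eval x.length)) y ≤ b)) → L ∈ MA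

/-- amplification for `BPP` -/
def S_BPC : Prop := ∀ (L : Set (List Bool)) (V : List Bool → List Bool) (p : Polynomial ℕ)
  (a b : ℝ), PolyTime V → b < a →
  (∀ x, (x ∈ L → a ≤ pr (acc V x (p.eval x.length))) ∧
    (x ∉ L → pr (acc V x (p.eval x.length)) ≤ b)) → L ∈ BPP

/-- monotone gate sets -/
def S_MUP : Prop := ∀ B : Set BFun, B ⊆ Mon → AMover B ⊆ BPP ∧ MAover B ⊆ BPP

/-- affine gate sets -/
def S_PA1 : Prop := ∀ B : Set BFun, B ⊆ Aff → AMover B ⊆ P ∧ MAover B ⊆ P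

/-- conjunctive gate sets -/
def S_PA2 : Prop := ∀ B : Set BFun, B ⊆ Conj → AMover B ⊆ P ∧ MAover B ⊆ P

/-- disjunctive gate sets -/
def S_PA3 : Prop := ∀ B : Set BFun, B ⊆ Disj → AMover B ⊆ P ∧ MAover B ⊆ P

/-- lower bound -/
def S_PSB : Prop := ∀ B : Set BFun, P ⊆ AMover B ∧ P ⊆ MAover B

/-! ### normal forms -/

/-- normal form for `AM` -/
def S_NAM : Prop := ∀ L ∈ AM, ∃ (V : List Bool → List Bool) (p : Polynomial ℕ), PolyTime V ∧
  (∀ m, 1 ≤ p.eval m) ∧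
    ∀ x, (x ∈ L → 2 / 3 ≤ amv (acc V x (p.eval x.length + p.eval x.length))) ∧
      (x ∉ L → amv (acc V x (p.eval x.length + p.eval x.length)) ≤ 1 / 3)

/-- normal form for `MA` -/
def S_NMA : Prop := ∀ L ∈ MA, ∃ (V : List Bool → List Bool) (p : Polynomial ℕ), PolyTime V ∧
  (∀ m, 1 ≤ p.eval m) ∧
    ∀ x, (x ∈ L → ∃ y, 2 / 3 ≤ mav (acc V x (p.eval x.length + p.eval x.length)) y) ∧
      (x ∉ L → ∀ y, mav (acc V x (p.eval x.length + p.eval x.length)) y ≤ 1 / 3)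

/-- normal form for `BPP` -/
def S_NBP : Prop := ∀ L ∈ BPP, ∃ (V : List Bool → List Bool) (p : Polynomial ℕ), PolyTime V ∧
  (∀ m, 1 ≤ p.eval m) ∧
    ∀ x, (x ∈ L → 2 / 3 ≤ pr (acc V x (p.eval x.length))) ∧
      (x ∉ L → pr (acc V x (p.eval x.length)) ≤ 1 / 3)

end Pool.Agent.H547R9
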