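import Pool.Agent.H547R9.Stm
import Pool.Agent.H547R8.T_TWM

/-!
# Amplification for Arthur-Merlin games
-/

set_option autoImplicit false

namespace Pool.Agent.H547R9

open Pool.Agent.H547R6 Pool.Agent.H547R7 Pool.Agent.H547R8 Pool.Agent.NPC
open Pool.Agent.H583R2 Pool.Agent.H545R2.KS

/-- the number of the accepted blocks -/
def AMC_ct (V : List Bool → List Bool) (K n : ℕ) (x w : List Bool) : ℕ :=
  ((List.range K).filter fun i =>
    TWM_A V x ((w.drop (i * n)).take n ++ (w.drop (K * n + i * n)).take n)).length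

/-- the amplified algorithm -/
def AMC_V (V : List Bool → List Bool) (p : Polynomial ℕ) (K θ : ℕ) (s : List Bool) : List Bool :=
  if decide (θ ≤ AMC_ct V K (p.eval (spl s).1.length) (spl s).1 (spl s).2) = true then [true]
  else []

theorem AMC_pf {V : List Bool → List Bool} (hV : PolyTime V) (p : Polynomial ℕ) (K θ : ℕ) :
    PF (AMC_V V p K θ) := by
  unfold AMC_V AMC_ct
  have hx : PF (fun s : List Bool => (spl s).1) := PF.fst' (PF.spl PF.id)
  have hw : PF (fun s : List Bool => (spl s).2) := PF.snd' (PF.spl PF.id)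
  have hn : PF (fun s : List Bool => p.eval (spl s).1.length) := pf_eval (PF.length hx) p
  refine PF.ite (PF.le (PF.const θ) (PF.length (PF.filter (f := fun s i =>
    TWM_A V (spl s).1 ((((spl s).2.drop (i * p.eval (spl s).1.length)).take
      (p.eval (spl s).1.length)) ++ (((spl s).2.drop (K * p.eval (spl s).1.length +
      i * p.eval (spl s).1.length)).take (p.eval (spl s).1.length))))
      (PF.range (PF.const K)) ?_))) (PF.const [true]) (PF.const [])
  have hn' := hn.comp (PF.fst (α := List Bool) (β := ℕ))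
  have hw' := hw.comp (PF.fst (α := List Bool) (β := ℕ))
  have hx' := hx.comp (PF.fst (α := List Bool) (β := ℕ))
  exact TWM_pf_A hV hx' (PF.append (PF.take hn' (PF.drop (PF.mul PF.snd hn') hw'))
    (PF.take hn' (PF.drop (PF.add (PF.mul (PF.const K) hn') (PF.mul PF.snd hn')) hw')))

theorem AMC_len (K : ℕ) (f : ℕ → Bool) :
    ((List.range K).filter f).length = (Finset.univ.filter fun i : Fin K => f i = true).card := by
  rw [Finset.card_filter, Fin.sum_univ_eq_sum_range (fun i => if f i = true then 1 else 0) K]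
  induction K with
  | zero => simp
  | succ K ih =>
    rw [List.range_succ, List.filter_append, List.length_append, ih, Finset.sum_range_succ]
    congr 1
    by_cases h : f K = true <;> simp [h]

theorem AMC_bl {K n : ℕ} (z : Fin (K * n + K * n) → Bool) (i : Fin K) :
    ((List.ofFn z).drop (i * n)).take n =
      List.ofFn (blk (fun j : Fin (K * n) => z (Fin.castAdd (K * n) j)) i) := by
  have hi : (i : ℕ) * n + n ≤ K * n := by
    have := Nat.mul_le_mul_right n i.2
    rwa [Nat.succ_mul] at this
  apply List.ext_getElem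
  · simp
    omega
  · intro k h1 h2
    simp only [List.getElem_take, List.getElem_drop, List.getElem_ofFn]
    unfold blk
    congr 1
    apply Fin.ext
    simp [finProdFinEquiv, Nat.mul_comm, Nat.add_comm]

theorem AMC_br {K n : ℕ} (z : Fin (K * n + K * n) → Bool) (i : Fin K) :
    ((List.ofFn z).drop (K * n + i * n)).take n =
      List.ofFn (blk (fun j : Fin (K * n) => z (Fin.natAdd (K * n) j)) i) := by
  have hi : (i : ℕ) * n + n ≤ K * n := by
    have := Nat.mul_le_mul_right n i.2
    rwa [Nat.succ_mul] at this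
  apply List.ext_getElem
  · simp
    omega
  · intro k h1 h2
    simp only [List.getElem_take, List.getElem_drop, List.getElem_ofFn]
    unfold blk
    congr 1
    apply Fin.ext
    simp [finProdFinEquiv, Nat.mul_comm, Nat.add_comm]
    omega

theorem AMC_acc (V : List Bool → List Bool) (p : Polynomial ℕ) (K θ : ℕ) (x : List Bool)
    (z : Fin (K * p.eval x.length + K * p.eval x.length) → Bool) :
    acc (AMC_V V p K θ) x (K * p.eval x.length + K * p.eval x.length) z =
      decide (θ ≤ (Finset.univ.filter fun i : Fin K =>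
        acc V x (p.eval x.length + p.eval x.length)
          (Fin.append (blk (fun j : Fin (K * p.eval x.length) => z (Fin.castAdd _ j)) i)
            (blk (fun j : Fin (K * p.eval x.length) => z (Fin.natAdd _ j)) i)) = true).card) := by
  have h1 : AMC_ct V K (p.eval x.length) x (List.ofFn z) =
      (Finset.univ.filter fun i : Fin K =>
        acc V x (p.eval x.length + p.eval x.length)
          (Fin.append (blk (fun j : Fin (K * p.eval x.length) => z (Fin.castAdd _ j)) i)
            (blk (fun j : Fin (K * p.eval x.length) => z (Fin.natAdd _ j)) i)) = true).card := by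
    unfold AMC_ct
    rw [AMC_len]
    congr 1
    apply Finset.filter_congr
    intro i _
    rw [AMC_bl, AMC_br, TWM_acc, List.ofFn_fin_append]
  rw [← h1]
  unfold acc AMC_V
  rw [spl_pairBits]
  by_cases h : θ ≤ AMC_ct V K (p.eval x.length) x (List.ofFn z) <;> simp [h]

theorem AMC_amv {K n : ℕ} (θ : ℕ) (F : BF (n + n)) (F' : BF (K * n + K * n))
    (hF : ∀ z, F' z = decide (θ ≤ (Finset.univ.filter fun i : Fin K =>
        F (Fin.append (blk (fun j : Fin (K * n) => z (Fin.castAdd _ j)) i)
            (blk (fun j : Fin (K * n) => z (Fin.natAdd _ j)) i)) = true).card)) :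
    amv F' = pr (fun z : Fin (K * n) → Bool => decide (θ ≤
      cnt (fun _ : Fin K => fun r : Fin n → Bool =>
        decide (∃ y : Fin n → Bool, F (Fin.append r y) = true)) (blk z))) := by
  unfold amv
  congr 1
  funext r
  have e : ∀ y : Fin (K * n) → Bool, F' (Fin.append r y) = decide (θ ≤
      (Finset.univ.filter fun i : Fin K => F (Fin.append (blk r i) (blk y i)) = true).card) := by
    intro y
    rw [hF]
    simp only [Fin.append_left, Fin.append_right]
  simp only [e]
  unfold cnt
  simp only [decide_eq_true_eq]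
  apply decide_eq_decide.2
  constructor
  · rintro ⟨y, hy⟩
    refine hy.trans (Finset.card_le_card ?_)
    intro i hi
    rw [Finset.mem_filter] at hi ⊢
    exact ⟨hi.1, ⟨_, hi.2⟩⟩
  · intro h
    classical
    have hch : ∀ i : Fin K, ∃ Y : Fin n → Bool,
        (∃ y : Fin n → Bool, F (Fin.append (blk r i) y) = true) →
          F (Fin.append (blk r i) Y) = true := by
      intro i
      by_cases hi : ∃ y : Fin n → Bool, F (Fin.append (blk r i) y) = true
      · obtain ⟨y, hy⟩ := hi
        exact ⟨y, fun _ => hy⟩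
      · exact ⟨fun _ => false, fun h => absurd h hi⟩
    choose Y hY using hch
    refine ⟨fun k => Y (finProdFinEquiv.symm k).1 (finProdFinEquiv.symm k).2, ?_⟩
    refine h.trans (Finset.card_le_card ?_)
    intro i hi
    rw [Finset.mem_filter] at hi ⊢
    refine ⟨hi.1, ?_⟩
    have hb : blk (fun k : Fin (K * n) => Y (finProdFinEquiv.symm k).1
        (finProdFinEquiv.symm k).2) i = Y i := by
      funext j
      unfold blk
      simp only [Equiv.symm_apply_apply]
    rw [hb]
    exact hY i hi.2

theorem AMC_num (a b : ℝ) (hb : 0 ≤ b) (hab : b < a) :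
    ∃ (K θ : ℕ) (d : ℝ), 0 < K ∧ 0 < d ∧ (K : ℝ) * b + d ≤ θ ∧ (θ : ℝ) ≤ K * a - d ∧
      (K : ℝ) / (4 * d ^ 2) ≤ 1 / 3 := by
  obtain ⟨δ, hδ⟩ : ∃ δ, δ = a - b := ⟨_, rfl⟩
  have hδ0 : 0 < δ := by linarith
  obtain ⟨K, hK⟩ := exists_nat_ge (2 / δ + 12 / δ ^ 2)
  have hp1 : 0 < 2 / δ := by positivity
  have hp2 : 0 < 12 / δ ^ 2 := by positivity
  have hK0 : (0 : ℝ) < K := by linarith
  have hK1 : 2 ≤ K * δ := by
    have : 2 / δ ≤ K := by linarith
    rwa [div_le_iff₀ hδ0] at this
  have hK2 : 12 ≤ K * δ ^ 2 := by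
    have : 12 / δ ^ 2 ≤ K := by linarith
    rwa [div_le_iff₀ (by positivity)] at this
  refine ⟨K, ⌈(K : ℝ) * b + K * δ / 4⌉₊, K * δ / 4, by exact_mod_cast hK0, by positivity,
    Nat.le_ceil _, ?_, ?_⟩
  · have h0 : 0 ≤ (K : ℝ) * b + K * δ / 4 := by positivity
    have h1 := Nat.ceil_lt_add_one h0
    have h2 : (K : ℝ) * a = K * b + K * δ := by rw [hδ]; ring
    rw [h2]
    linarith
  · rw [div_le_iff₀ (by positivity)]
    have h3 : (1 : ℝ) / 3 * (4 * (K * δ / 4) ^ 2) = K * (K * δ ^ 2) / 12 := by ring
    rw [h3]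
    nlinarith [mul_le_mul_of_nonneg_left hK2 hK0.le]

theorem AMC_pr0 {Ω : Type} [Fintype Ω] (q : Ω → Bool) : 0 ≤ pr q := by
  unfold pr
  positivity

theorem t_AMC (h : S_CHE) : S_AMC := by
  intro L V p a b hV hab hL
  by_cases hb : b < 0
  · refine ⟨fun _ => [true], 0, polyTime_of_pf (PF.const [true]), fun x => ⟨fun _ => ?_,
      fun hx => absurd ((hL x).2 hx) (not_le.2 (hb.trans_le (AMC_pr0 _)))⟩⟩
    have e : amv (acc (fun _ => [true]) x (Polynomial.eval x.length (0 : Polynomial ℕ) +
        Polynomial.eval x.length (0 : Polynomial ℕ))) = 1 := by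
      unfold amv pr acc
      simp
    rw [e]
    norm_num
  · push Not at hb
    obtain ⟨K, θ, d, hK, hd, h1, h2, h3⟩ := AMC_num a b hb hab
    refine ⟨AMC_V V p K θ, Polynomial.C K * p, polyTime_of_pf (AMC_pf hV p K θ), fun x => ?_⟩
    have hp : (Polynomial.C K * p).eval x.length = K * p.eval x.length := by
      rw [Polynomial.eval_mul, Polynomial.eval_C]
    rw [hp]
    rw [AMC_amv θ (acc V x (p.eval x.length + p.eval x.length)) _
      (fun z => AMC_acc V p K θ x z)]
    obtain ⟨c1, c2⟩ := h (p.eval x.length) K (fun _ => fun r : Fin (p.eval x.length) → Bool =>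
      decide (∃ y : Fin (p.eval x.length) → Bool,
        acc V x (p.eval x.length + p.eval x.length) (Fin.append r y) = true)) d hd
    have hs : ∑ i : Fin K, pr ((fun _ => fun r : Fin (p.eval x.length) → Bool =>
      decide (∃ y : Fin (p.eval x.length) → Bool,
        acc V x (p.eval x.length + p.eval x.length) (Fin.append r y) = true) :
          Fin K → BF (p.eval x.length)) i) =
        K * amv (acc V x (p.eval x.length + p.eval x.length)) := by
      simp only [Finset.sum_const, Finset.card_univ, Fintype.card_fin, nsmul_eq_mul]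
      rfl
    rw [hs] at c1 c2
    have hK' : (0 : ℝ) ≤ K := Nat.cast_nonneg K
    refine ⟨fun hx => ?_, fun hx => ?_⟩
    · have h4 := mul_le_mul_of_nonneg_left ((hL x).1 hx) hK'
      have h5 := c2 θ (by linarith)
      linarith
    · have h4 := mul_le_mul_of_nonneg_left ((hL x).2 hx) hK'
      have h5 := c1 θ (by linarith)
      linarith

end Pool.Agent.H547R9
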