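import Pool.Agent.H547R9.Stm
import Pool.Agent.H547R8.T_TFR

/-!
# Amplification for `BPP`
-/

set_option autoImplicit false

namespace Pool.Agent.H547R9

open Pool.Agent.H547R6 Pool.Agent.H547R7 Pool.Agent.H547R8 Pool.Agent.NPC
open Pool.Agent.H583R2 Pool.Agent.H545R2.KS

/-- at least `θ` of the `K` blocks are accepted -/
def BPC_b (V : List Bool → List Bool) (p : Polynomial ℕ) (K θ : ℕ) (x w : List Bool) : Bool :=
  decide (θ ≤ ((List.range K).filter fun i =>
    UP1_A V x ((w.drop (p.eval x.length * i)).take (p.eval x.length))).length)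

theorem BPC_pf {V : List Bool → List Bool} (hV : PolyTime V) (p : Polynomial ℕ) (K θ : ℕ) :
    PF (fun z : List Bool => BPC_b V p K θ (spl z).1 (spl z).2) := by
  have hx := TS2_pfx
  have hw := TS2_pfw
  have hn : PF (fun z : List Bool => p.eval (spl z).1.length) := pf_eval (PF.length hx) p
  unfold BPC_b
  refine PF.le (PF.const θ) (PF.length (PF.filter (f := fun z i => UP1_A V (spl z).1
    (((spl z).2.drop (p.eval (spl z).1.length * i)).take (p.eval (spl z).1.length)))
    (PF.const (List.range K)) ?_))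
  exact UP1_pf_A hV (hx.comp PF.fst) (PF.take (hn.comp PF.fst)
    (PF.drop (PF.mul (hn.comp PF.fst) PF.snd) (hw.comp PF.fst)))

theorem BPC_blk {n r : ℕ} (z : Fin (r * n) → Bool) (i : Fin r) :
    ((List.ofFn z).drop (n * i.val)).take n = List.ofFn (blk z i) := by
  have hi : n * i.val + n ≤ r * n := by
    have h1 : i.val + 1 ≤ r := i.2
    calc n * i.val + n = (i.val + 1) * n := by ring
      _ ≤ r * n := Nat.mul_le_mul_right _ h1
  apply List.ext_getElem
  · simp only [List.length_take, List.length_drop, List.length_ofFn]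
    omega
  · intro k h1 h2
    simp only [List.length_ofFn] at h2
    simp only [List.getElem_take, List.getElem_drop, List.getElem_ofFn]
    unfold blk
    congr 1
    apply Fin.ext
    simp only [finProdFinEquiv_apply_val]
    omega

theorem BPC_len (K : ℕ) (P : ℕ → Bool) :
    ((List.range K).filter P).length = (Finset.univ.filter fun i : Fin K => P i.val = true).card := by
  rw [← List.map_coe_finRange_eq_range, List.filter_map, List.length_map]
  rw [← List.toFinset_card_of_nodup ((List.nodup_finRange K).filter _)]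
  congr 1
  ext i
  simp

theorem BPC_acc {V V' : List Bool → List Bool} (p : Polynomial ℕ) (K θ : ℕ)
    (h : ∀ x n (r : Fin n → Bool), acc V' x n r = BPC_b V p K θ x (List.ofFn r)) (x : List Bool) :
    acc V' x (K * p.eval x.length) = fun z =>
      decide (θ ≤ cnt (fun _ : Fin K => acc V x (p.eval x.length)) (blk z)) := by
  funext z
  rw [h]
  unfold BPC_b cnt
  rw [BPC_len]
  simp only [BPC_blk, UP1_acc]

theorem BPC_one {Ω : Type} [Fintype Ω] [Nonempty Ω] (q : Ω → Bool) (h : ∀ z, q z = true) :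
    pr q = 1 := by
  unfold pr
  rw [Finset.filter_true_of_mem (fun z _ => h z), Finset.card_univ]
  have : (Fintype.card Ω : ℝ) ≠ 0 := by exact_mod_cast Fintype.card_ne_zero
  exact div_self this

/-- amplification for `BPP` -/
theorem t_BPC (hC : S_CHE) : S_BPC := by
  intro L V p a b hV hab hL
  obtain ⟨N, hN⟩ := exists_nat_ge (2 / ((a - b) / 2) + 1)
  have hδ : 0 < (a - b) / 2 := by linarith
  have h2 : 0 < 2 / ((a - b) / 2) := by positivity
  have hN1 : (1 : ℝ) ≤ N := by linarith
  have hN2 : 2 ≤ N * ((a - b) / 2) := by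
    have : 2 / ((a - b) / 2) ≤ N := by linarith
    rwa [div_le_iff₀ hδ] at this
  set θ : ℕ := ⌈(N : ℝ) ^ 2 * ((a + b) / 2)⌉₊ with hθ
  have hθ1 : (N : ℝ) ^ 2 * ((a + b) / 2) ≤ θ := Nat.le_ceil _
  obtain ⟨V', hV', h⟩ := TS2_mk (BPC_b V p (N ^ 2) θ) (BPC_pf hV p (N ^ 2) θ)
  refine ⟨V', Polynomial.C (N ^ 2) * p, hV', fun x => ?_⟩
  rw [Polynomial.eval_mul, Polynomial.eval_C, BPC_acc p (N ^ 2) θ h x]
  obtain ⟨hc1, hc2⟩ := hC (p.eval x.length) (N ^ 2) (fun _ => acc V x (p.eval x.length)) N
    (by linarith)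
  have hs : ∑ _i : Fin (N ^ 2), pr (acc V x (p.eval x.length)) =
      (N : ℝ) ^ 2 * pr (acc V x (p.eval x.length)) := by
    rw [Finset.sum_const, Finset.card_univ, Fintype.card_fin, nsmul_eq_mul]
    push_cast
    ring
  rw [hs] at hc1 hc2
  have hq : (((N ^ 2 : ℕ) : ℝ)) / (4 * (N : ℝ) ^ 2) = 1 / 4 := by
    have : (N : ℝ) ≠ 0 := by linarith
    push_cast
    field_simp
  rw [hq] at hc1 hc2
  have hNN : (0 : ℝ) ≤ (N : ℝ) ^ 2 := by positivity
  constructor
  · intro hx
    have h3 := (hL x).1 hx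
    rcases Nat.eq_zero_or_pos θ with h0 | h0
    · rw [BPC_one _ (fun z => by rw [h0]; simp)]
      norm_num
    · have h4 : (θ : ℝ) < (N : ℝ) ^ 2 * ((a + b) / 2) + 1 := by
        apply Nat.ceil_lt_add_one
        exact (Nat.ceil_pos.1 h0).le
      have h5 := hc2 θ (by nlinarith [mul_le_mul_of_nonneg_left h3 hNN])
      linarith
  · intro hx
    have h3 := (hL x).2 hx
    have h5 := hc1 θ (by nlinarith [mul_le_mul_of_nonneg_left h3 hNN])
    linarith

end Pool.Agent.H547R9
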