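import Pool.Agent.H547R9.Stm

/-!
# What a gate set generates: gate sets that are not monotone and not affine; monotone gate sets
-/

set_option autoImplicit false

namespace Pool.Agent.H547R9

open Pool.Agent.H547R6 Pool.Agent.H547R7 Pool.Agent.H547R8 Pool.Agent.NPC

variable {B : Set BFun}

/-- value of a term with two ternary operations -/
inductive Tn : Type
  | a | b | c
  | g (x y z : Tn)
  | h (x y z : Tn)

/-- value of a term -/
def Tn.ev (G H : Bool → Bool → Bool → Bool) (p q r : Bool) : Tn → Bool
  | .a => p
  | .b => q
  | .c => r
  | .g x y z => G (x.ev G H p q r) (y.ev G H p q r) (z.ev G H p q r)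
  | .h x y z => H (x.ev G H p q r) (y.ev G H p q r) (z.ev G H p q r)

theorem Tn.gen {G H : Bool → Bool → Bool → Bool} (hG : Op3 B G) (hH : Op3 B H) (t : Tn) :
    Op3 B (fun p q r => t.ev G H p q r) := by
  induction t with
  | a => exact v0_3
  | b => exact v1_3
  | c => exact v2_3
  | g x y z hx hy hz => exact hG.app hx hy hz
  | h x y z hx hy hz => exact hH.app hx hy hz

/-- is the term the operation `maj (a, b, ¬ c)` -/
def Tn.good (G H : Bool → Bool → Bool → Bool) (t : Tn) : Bool :=
  [false, true].all fun p => [false, true].all fun q => [false, true].all fun r =>
    t.ev G H p q r == bmaj p q (!r)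

theorem Tn.goal {G H : Bool → Bool → Bool → Bool} (hG : Op3 B G) (hH : Op3 B H) (t : Tn)
    (ht : t.good G H = true) : Op3 B (fun a b c => bmaj a b (!c)) := by
  have key := t.gen hG hH
  simp only [Tn.good, List.all_eq_true, beq_iff_eq] at ht
  have mem : ∀ p : Bool, p ∈ [false, true] := by decide
  exact key.congr fun x => ht _ (mem _) _ (mem _) _ (mem _)

/-- self-dual ternary operation with a given table -/
def sd3 (t0 t1 t2 t3 : Bool) : Bool → Bool → Bool → Bool
  | false, false, false => t0
  | false, false, true => t1
  | false, true, false => t2
  | false, true, true => t3
  | true, false, false => !t3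
  | true, false, true => !t2
  | true, true, false => !t1
  | true, true, true => !t0

theorem sd3_eq (H : Bool → Bool → Bool → Bool) (h : ∀ p q r, H (!p) (!q) (!r) = !H p q r) :
    H = sd3 (H false false false) (H false false true) (H false true false)
      (H false true true) := by
  funext p q r
  cases p <;> cases q <;> cases r <;> simp only [sd3]
  · exact h false true true
  · exact h false true false
  · exact h false false true
  · exact h false false false

open Tn in
/-- terms that suffice -/
def tns : List Tn :=
  [.h .c .a .b, .h .a .b .c, .h .a .b (.g .a .c .a), .h .a .c .b, .h .a .a (.h .c .a .b),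
   .g .a (.h .a .b .b) (.h .a .b .c), .h .a .b (.g .a .b .c), .h .a .a (.h .a .c .b),
   .g .a .c .b, .h .a (.h .a .b .c) .a, .g .c (.g .a .a .a) (.g .a .b .b),
   .h .c (.g .a .a .a) (.g .a .b .a), .g .a (.h .a .b .c) .a]

theorem tns_good : ∀ t0 t2 s0 s1 s2 s3 : Bool, xor s0 (xor (!s3) (xor s2 (!s1))) = true →
    tns.any (fun t => t.good (sd3 t0 true t2 false) (sd3 s0 s1 s2 s3)) = true := by
  decide +kernel

theorem case_sd (hS : B ⊆ SelfDual) (hM : ¬ B ⊆ Mon) (hA : ¬ B ⊆ Aff) :
    Op3 B (fun a b c => bmaj a b (!c)) := by
  rw [Set.not_subset] at hM hA
  obtain ⟨⟨k, f⟩, hf, hf'⟩ := hM
  simp only [Mon, Set.mem_ofPred_eq, not_forall] at hf'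
  obtain ⟨x, y, hxy, hx, hy⟩ := hf'
  rw [Bool.not_eq_true] at hy
  let G : Bool → Bool → Bool → Bool := fun p q r => f fun i => if x i = true then r else
      if y i = true then q else p
  have hG : Op3 B G := by
    refine (Gen.app k f hf (fun i => if x i = true then (fun v => v 2) else
      if y i = true then (fun v => v 1) else fun v => v 0) ?_).congr ?_
    · intro i
      by_cases h1 : x i = true
      · rw [if_pos h1]
        exact v2_3
      · by_cases h2 : y i = true
        · rw [if_neg h1, if_pos h2]
          exact v1_3
        · rw [if_neg h1, if_neg h2]
          exact v0_3
    · intro v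
      simp only [G]
      congr 1
      funext i
      by_cases h1 : x i = true <;> by_cases h2 : y i = true <;> simp [h1, h2]
  have sdG : ∀ p q r, G (!p) (!q) (!r) = !G p q r := by
    intro p q r
    rw [← hS hf]
    simp only [G]
    congr 1
    funext i
    by_cases h1 : x i = true <;> by_cases h2 : y i = true <;> simp [h1, h2]
  have g1 : G false false true = true := by
    have e : (fun i => if x i = true then true else if y i = true then false else false) = x := by
      funext i
      cases x i <;> cases y i <;> rfl
    simp only [G]
    rw [e]
    exact hx
  have g2 : G false true true = false := by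
    have e : (fun i => if x i = true then true else if y i = true then true else false) = y := by
      funext i
      have := hxy i
      revert this
      cases x i <;> cases y i <;> simp
    simp only [G]
    rw [e]
    exact hy
  obtain ⟨⟨k', g⟩, hg, hg'⟩ := hA
  have : ∃ u v : Fin k' → Bool, (∀ i, u i = false ∨ v i = false) ∧
      xor (g fun _ => false) (xor (g u) (xor (g v) (g fun i => u i || v i))) = true := by
    by_contra hcon
    push Not at hcon
    exact hg' (affine_of g fun u v huv => by simpa using hcon u v huv)
  obtain ⟨u, v, huv, hodd⟩ := this
  let H : Bool → Bool → Bool → Bool := fun p q r => g fun i => if u i = true then p else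
      if v i = true then q else r
  have hH : Op3 B H := by
    refine (Gen.app k' g hg (fun i => if u i = true then (fun v => v 0) else
      if v i = true then (fun v => v 1) else fun v => v 2) ?_).congr ?_
    · intro i
      by_cases h1 : u i = true
      · rw [if_pos h1]
        exact v0_3
      · by_cases h2 : v i = true
        · rw [if_neg h1, if_pos h2]
          exact v1_3
        · rw [if_neg h1, if_neg h2]
          exact v2_3
    · intro w
      simp only [H]
      congr 1
      funext i
      by_cases h1 : u i = true <;> by_cases h2 : v i = true <;> simp [h1, h2]
  have sdH : ∀ p q r, H (!p) (!q) (!r) = !H p q r := by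
    intro p q r
    rw [← hS hg]
    simp only [H]
    congr 1
    funext i
    by_cases h1 : u i = true <;> by_cases h2 : v i = true <;> simp [h1, h2]
  have e0 : H false false false = g fun _ => false := by simp [H]
  have e1 : H true false false = g u := by
    simp only [H]
    congr 1
    funext i
    cases u i <;> simp
  have e2 : H false true false = g v := by
    simp only [H]
    congr 1
    funext i
    have h := huv i
    revert h
    cases u i <;> cases v i <;> simp
  have e3 : H true true false = g fun i => u i || v i := by
    simp only [H]
    congr 1
    funext i
    cases u i <;> cases v i <;> simp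
  have o1 : H true false false = !H false true true := sdH false true true
  have o2 : H true true false = !H false false true := sdH false false true
  rw [← e0, ← e1, ← e2, ← e3, o1, o2] at hodd
  have key := tns_good (G false false false) (G false true false) (H false false false)
    (H false false true) (H false true false) (H false true true) hodd
  have eG := sd3_eq G sdG
  rw [g1, g2] at eG
  rw [← eG, ← sd3_eq H sdH, List.any_eq_true] at key
  obtain ⟨t, _, ht⟩ := key
  exact t.goal hG hH ht

theorem conj_mon : Conj ⊆ Mon := by
  intro f hf x y hxy hx
  have e : (fun i => x i && y i) = x := by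
    funext i
    have := hxy i
    revert this
    cases x i <;> cases y i <;> simp
  have := hf x y
  rw [e, hx] at this
  revert this
  cases f.2 y <;> simp

theorem disj_mon : Disj ⊆ Mon := by
  intro f hf x y hxy hx
  have e : (fun i => x i || y i) = y := by
    funext i
    have := hxy i
    revert this
    cases x i <;> cases y i <;> simp
  have := hf x y
  rw [e, hx] at this
  revert this
  cases f.2 y <;> simp

theorem t_C3 : S_C3 := by
  intro B hM hA
  by_cases hS : B ⊆ SelfDual
  · exact Or.inr (Or.inr (case_sd hS hM hA))
  · rcases t_CLO B hA (fun h => hM (h.trans conj_mon)) (fun h => hM (h.trans disj_mon)) hS with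
      h | h
    · right
      left
      have hd : Op3 (dualB B) oD := by
        refine (Gen.dual h).congr fun x => ?_
        simp only [oD]
        cases x 0 <;> cases x 1 <;> cases x 2 <;> rfl
      have hM' : ¬ dualB B ⊆ Mon := by
        refine not_sub_dual (P := Mon) (Q := Mon) ?_ hM
        intro f hf x y hxy hx
        have := hf (fun i => !y i) (fun i => !x i) (fun i => by
          have := hxy i
          revert this
          cases x i <;> cases y i <;> simp)
        simp only [dualF, Bool.not_not] at this
        revert this hx
        cases f.2 x <;> cases f.2 y <;> simp
      have h3 := Gen.dual (cn_nonmon hd hM')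
      rw [dualB_dualB] at h3
      refine h3.congr fun x => ?_
      simp only []
      cases x 0 <;> cases x 1 <;> cases x 2 <;> rfl
    · left
      exact cn_nonmon h hM

theorem t_C2 : S_C2 := by
  intro B hM hC hD
  by_cases hS : B ⊆ SelfDual
  · right
    right
    rw [Set.not_subset] at hC
    obtain ⟨⟨k, f⟩, hf, hf'⟩ := hC
    have mon := hM hf
    have sd := hS hf
    simp only [Conj, Set.mem_ofPred_eq, not_forall] at hf'
    obtain ⟨x, y, hxy⟩ := hf'
    -- both `x` and `y` are ones and their meet is a zero
    have h1 : f (fun i => x i && y i) = false := by
      by_contra hc
      rw [Bool.not_eq_false] at hc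
      have a1 : f x = true := mon _ x (fun i => by cases x i <;> simp) hc
      have a2 : f y = true := mon _ y (fun i => by cases x i <;> cases y i <;> simp) hc
      apply hxy
      rw [hc, a1, a2]
      rfl
    have h2 : f x = true ∧ f y = true := by
      rw [h1] at hxy
      revert hxy
      cases f x <;> cases f y <;> simp
    have h3 : f (fun i => !(x i && y i)) = true := by
      have := sd fun i => x i && y i
      change f (fun i => !(x i && y i)) = !f (fun i => x i && y i) at this
      rw [this, h1]
      rfl
    let G : Bool → Bool → Bool → Bool := fun p q r => f fun i => if x i = false then p else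
      if y i = false then q else r
    have hG : Op3 B G := by
      refine (Gen.app k f hf (fun i => if x i = false then (fun v => v 0) else
        if y i = false then (fun v => v 1) else fun v => v 2) ?_).congr ?_
      · intro i
        by_cases h1 : x i = false
        · rw [if_pos h1]
          exact v0_3
        · by_cases h2 : y i = false
          · rw [if_neg h1, if_pos h2]
            exact v1_3
          · rw [if_neg h1, if_neg h2]
            exact v2_3
      · intro w
        simp only [G]
        congr 1
        funext i
        by_cases h1 : x i = false <;> by_cases h2 : y i = false <;> simp [h1, h2]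
    have sdG : ∀ p q r, G (!p) (!q) (!r) = !G p q r := by
      intro p q r
      rw [← hS hf]
      simp only [G]
      congr 1
      funext i
      by_cases h1 : x i = false <;> by_cases h2 : y i = false <;> simp [h1, h2]
    have g1 : G false true true = true := by
      refine mon x _ (fun i hi => ?_) h2.1
      simp [hi]
    have g2 : G true false true = true := by
      refine mon y _ (fun i hi => ?_) h2.2
      simp [hi]
    have g3 : G true true false = true := by
      refine mon _ _ (fun i hi => ?_) h3
      revert hi
      cases x i <;> cases y i <;> simp
    have g4 : G true true true = true := by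
      refine mon x _ (fun i hi => ?_) h2.1
      simp
    have g5 := sdG false true true
    have g6 := sdG true false true
    have g7 := sdG true true false
    have g8 := sdG true true true
    simp only [Bool.not_false, Bool.not_true] at g5 g6 g7 g8
    refine hG.congr fun w => ?_
    simp only [bmaj]
    cases w 0 <;> cases w 1 <;> cases w 2 <;> simp_all
  · by_cases hA : B ⊆ Aff
    · exfalso
      rw [Set.not_subset] at hC
      obtain ⟨⟨k, f⟩, hf, hf'⟩ := hC
      apply hf'
      intro x y
      have mon := hM hf
      have aff := hA hf
      -- `f x + f y = f (x and y) + f (x or y)` and monotonicity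
      have e1 := aff x y (fun i => x i || y i)
      have e2 : (fun i => xor (x i) (xor (y i) (x i || y i))) = fun i => x i && y i := by
        funext i
        cases x i <;> cases y i <;> rfl
      rw [e2] at e1
      have m1 := mon (fun i => x i && y i) x (fun i => by cases x i <;> simp)
      have m2 := mon (fun i => x i && y i) y (fun i => by cases x i <;> cases y i <;> simp)
      have m3 := mon x (fun i => x i || y i) (fun i => by cases x i <;> simp)
      have m4 := mon y (fun i => x i || y i) (fun i => by cases x i <;> cases y i <;> simp)
      change f (fun i => x i && y i) = (f x && f y)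
      change f (fun i => x i && y i) = xor (f x) (xor (f y) (f fun i => x i || y i)) at e1
      change f (fun i => x i && y i) = true → f x = true at m1
      change f (fun i => x i && y i) = true → f y = true at m2
      change f x = true → f (fun i => x i || y i) = true at m3
      change f y = true → f (fun i => x i || y i) = true at m4
      revert e1 m1 m2 m3 m4
      generalize f (fun i => x i && y i) = a1
      generalize f (fun i => x i || y i) = a2
      generalize f x = a3
      generalize f y = a4
      revert a1 a2 a3 a4
      decide
    · rcases t_CLO B hA hC hD hS with h | h
      · exact Or.inr (Or.inl h)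
      · exact Or.inl h

end Pool.Agent.H547R9
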