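import Pool.Agent.H547R9.Stm

/-!
# Circuits for `MJ` over gate sets with `maj (a, b, ¬ c)`
-/

set_option autoImplicit false

namespace Pool.Agent.H547R9

open Pool.Agent.H547R6 Pool.Agent.H547R7 Pool.Agent.H547R8 Pool.Agent.NPC

private theorem HJC_app {n : ℕ} (l' l : List (BF n)) (f : BF n) (h : Avail l f) :
    Avail (l' ++ l) f := by
  rcases h with h | h
  · exact Or.inl (List.mem_append_right _ h)
  · exact Or.inr h

private theorem HJC_subst {B : Set BFun} {k : ℕ} {g : (Fin k → Bool) → Bool}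
    (hg : Gen B (Fin k) g) : ∃ c : ℕ, ∀ (n : ℕ) (l : List (BF n)), Gates B n l →
      ∀ a : Fin k → BF n, (∀ j, Avail l (a j)) →
      ∃ l', Gates B n (l' ++ l) ∧ l'.length ≤ c ∧ Avail (l' ++ l) (fun x => g fun j => a j x) := by
  induction hg with
  | var i =>
    refine ⟨0, fun n l hl a ha => ⟨[], by simpa using hl, by simp, ?_⟩⟩
    simpa using ha i
  | app k' f hf h hh ih =>
    choose c hc using ih
    refine ⟨(∑ j, c j) + 1, fun n l hl a ha => ?_⟩
    have key : ∀ s : Finset (Fin k'), ∃ l', Gates B n (l' ++ l) ∧ l'.length ≤ ∑ j ∈ s, c j ∧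
        ∀ j ∈ s, Avail (l' ++ l) (fun x => h j fun i => a i x) := by
      intro s
      induction s using Finset.induction_on with
      | empty => exact ⟨[], by simpa using hl, by simp, by simp⟩
      | insert j s hj ihs =>
        obtain ⟨l1, h1, h2, h3⟩ := ihs
        obtain ⟨l2, h4, h5, h6⟩ := hc j n (l1 ++ l) h1 a
          (fun i => HJC_app _ _ _ (ha i))
        refine ⟨l2 ++ l1, by rw [List.append_assoc]; exact h4, ?_, ?_⟩
        · rw [List.length_append, Finset.sum_insert hj]
          omega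
        · intro i hi
          rw [List.append_assoc]
          rcases Finset.mem_insert.1 hi with rfl | hi
          · exact h6
          · exact HJC_app _ _ _ (h3 i hi)
    obtain ⟨l1, h1, h2, h3⟩ := key Finset.univ
    refine ⟨(fun x => f fun j => h j fun i => a i x) :: l1, ?_, ?_, ?_⟩
    · exact Gates.gate (l1 ++ l) k' f (fun j x => h j fun i => a i x) hf
        (fun j => h3 j (Finset.mem_univ j)) h1
    · rw [List.length_cons]; omega
    · exact Or.inl List.mem_cons_self

/-- `F` and `F'` represent `f` and its negation in the two frames -/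
private def HJC_P {n : ℕ} (F F' : BF (n + 2)) (f : BF n) : Prop :=
  (∀ y : Fin (n + 2) → Bool, y 0 = false → y 1 = true →
    F y = f (fun i => y i.succ.succ) ∧ F' y = !f (fun i => y i.succ.succ)) ∧
  (∀ y : Fin (n + 2) → Bool, y 0 = true → y 1 = false →
    F y = (!f (fun i => !y i.succ.succ)) ∧ F' y = f (fun i => !y i.succ.succ))

/-- a function and its negation are available in both frames -/
private def HJC_Rep {n : ℕ} (L : List (BF (n + 2))) (f : BF n) : Prop :=
  ∃ F F' : BF (n + 2), Avail L F ∧ Avail L F' ∧ HJC_P F F' f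

private theorem HJC_rep_app {n : ℕ} (L' L : List (BF (n + 2))) (f : BF n) (h : HJC_Rep L f) :
    HJC_Rep (L' ++ L) f := by
  obtain ⟨F, F', h1, h2, h3⟩ := h
  exact ⟨F, F', HJC_app _ _ _ h1, HJC_app _ _ _ h2, h3⟩

theorem t_HJC : S_HJC := by
  intro B hB
  obtain ⟨c0, hc0⟩ := HJC_subst hB
  -- one application of the operation
  have hstep : ∀ (n : ℕ) (l : List (BF n)), Gates B n l → ∀ a b d : BF n, Avail l a → Avail l b →
      Avail l d → ∃ l', Gates B n (l' ++ l) ∧ l'.length ≤ c0 ∧
        Avail (l' ++ l) (fun x => bmaj (a x) (b x) (!d x)) := by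
    intro n l hl a b d ha hb hd
    obtain ⟨l', h1, h2, h3⟩ := hc0 n l hl ![a, b, d] (by
      intro j
      fin_cases j
      · exact ha
      · exact hb
      · exact hd)
    exact ⟨l', h1, h2, h3⟩
  -- the negated variables
  have hvar : ∀ (n : ℕ) (s : Finset (Fin n)), ∃ L : List (BF (n + 2)), Gates B (n + 2) L ∧
      L.length ≤ c0 * s.card ∧ ∀ i ∈ s, HJC_Rep L (fun x : Fin n → Bool => x i) := by
    intro n s
    induction s using Finset.induction_on with
    | empty => exact ⟨[], Gates.nil, by simp, by simp⟩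
    | insert j s hj ih =>
      obtain ⟨L, h1, h2, h3⟩ := ih
      obtain ⟨L', h4, h5, h6⟩ := hstep (n + 2) L h1 (fun y => y 0) (fun y => y 1)
        (fun y => y j.succ.succ) (Or.inr ⟨0, rfl⟩) (Or.inr ⟨1, rfl⟩) (Or.inr ⟨_, rfl⟩)
      refine ⟨L' ++ L, h4, ?_, ?_⟩
      · rw [List.length_append, Finset.card_insert_of_notMem hj, Nat.mul_succ]
        omega
      · intro i hi
        rcases Finset.mem_insert.1 hi with rfl | hi
        · refine ⟨fun y => y i.succ.succ, _, Or.inr ⟨_, rfl⟩, h6, ?_, ?_⟩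
          · intro y h0 h1
            refine ⟨rfl, ?_⟩
            simp only [h0, h1]
            cases y i.succ.succ <;> rfl
          · intro y h0 h1
            refine ⟨by rw [Bool.not_not], ?_⟩
            simp only [h0, h1]
            cases y i.succ.succ <;> rfl
        · exact HJC_rep_app _ _ _ (h3 i hi)
  -- both frames
  have main : ∀ (n s : ℕ) (l : List (BF n)), AON n s l → ∃ L : List (BF (n + 2)),
      Gates B (n + 2) L ∧ L.length ≤ c0 * n + 2 * c0 * s ∧ ∀ f, Avail l f → HJC_Rep L f := by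
    intro n s l hl
    -- a gate with two operations
    have gate : ∀ (s : ℕ) (l : List (BF n)) (L : List (BF (n + 2))) (f : BF n)
        (u A D u' A' D' : BF (n + 2)), Gates B (n + 2) L →
        L.length ≤ c0 * n + 2 * c0 * s →
        (∀ f, Avail l f → HJC_Rep L f) → Avail L u → Avail L A → Avail L D →
        Avail L u' → Avail L A' → Avail L D' →
        HJC_P (fun y => bmaj (u y) (A y) (!D y)) (fun y => bmaj (u' y) (A' y) (!D' y)) f →
        ∃ L : List (BF (n + 2)), Gates B (n + 2) L ∧ L.length ≤ c0 * n + 2 * c0 * (s + 1) ∧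
          ∀ f', Avail (f :: l) f' → HJC_Rep L f' := by
      intro s l L f u A D u' A' D' h1 h2 h3 hu hA hD hu' hA' hD' hP
      obtain ⟨L1, g1, g2, g3⟩ := hstep (n + 2) L h1 u A D hu hA hD
      obtain ⟨L2, g4, g5, g6⟩ := hstep (n + 2) (L1 ++ L) g1 u' A' D'
        (HJC_app _ _ _ hu') (HJC_app _ _ _ hA') (HJC_app _ _ _ hD')
      refine ⟨L2 ++ (L1 ++ L), g4, ?_, ?_⟩
      · rw [List.length_append, List.length_append]
        have : 2 * c0 * (s + 1) = 2 * c0 * s + 2 * c0 := by ring
        omega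
      · rintro f' (hf' | hf')
        · rcases List.mem_cons.1 hf' with rfl | hf'
          · exact ⟨_, _, HJC_app L2 (L1 ++ L) _ g3, g6, hP⟩
          · exact HJC_rep_app _ _ _ (HJC_rep_app _ _ _ (h3 f' (Or.inl hf')))
        · exact HJC_rep_app _ _ _ (HJC_rep_app _ _ _ (h3 f' (Or.inr hf')))
    induction hl with
    | nil =>
      obtain ⟨L, h1, h2, h3⟩ := hvar n Finset.univ
      rw [Finset.card_univ, Fintype.card_fin] at h2
      refine ⟨L, h1, by omega, ?_⟩
      rintro f (hf | ⟨i, rfl⟩)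
      · simp at hf
      · exact h3 i (Finset.mem_univ i)
    | not s l a h ha ih =>
      obtain ⟨L, h1, h2, h3⟩ := ih
      refine ⟨L, h1, h2, ?_⟩
      rintro f (hf | hf)
      · rcases List.mem_cons.1 hf with rfl | hf
        · obtain ⟨F, F', g1, g2, g3, g4⟩ := h3 a ha
          refine ⟨F', F, g2, g1, fun y h0 h1 => ?_, fun y h0 h1 => ?_⟩
          · obtain ⟨e1, e2⟩ := g3 y h0 h1
            exact ⟨e2, by rw [e1, Bool.not_not]⟩
          · obtain ⟨e1, e2⟩ := g4 y h0 h1
            exact ⟨by rw [e2, Bool.not_not], e1⟩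
        · exact h3 f (Or.inl hf)
      · exact h3 f (Or.inr hf)
    | and s l a b h ha hb ih =>
      obtain ⟨L, h1, h2, h3⟩ := ih
      obtain ⟨Fa, Fa', p1, p2, p3, p4⟩ := h3 a ha
      obtain ⟨Fb, Fb', q1, q2, q3, q4⟩ := h3 b hb
      refine gate s l L _ (fun y => y 0) Fa Fb' (fun y => y 1) Fa' Fb h1 h2 h3
        (Or.inr ⟨0, rfl⟩) p1 q2 (Or.inr ⟨1, rfl⟩) p2 q1 ⟨?_, ?_⟩
      · intro y h0 h1
        simp only [h0, h1, (p3 y h0 h1).1, (p3 y h0 h1).2, (q3 y h0 h1).1, (q3 y h0 h1).2]
        generalize a (fun i => y i.succ.succ) = u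
        generalize b (fun i => y i.succ.succ) = v
        cases u <;> cases v <;> exact ⟨rfl, rfl⟩
      · intro y h0 h1
        simp only [h0, h1, (p4 y h0 h1).1, (p4 y h0 h1).2, (q4 y h0 h1).1, (q4 y h0 h1).2]
        generalize a (fun i => !y i.succ.succ) = u
        generalize b (fun i => !y i.succ.succ) = v
        cases u <;> cases v <;> exact ⟨rfl, rfl⟩
    | or s l a b h ha hb ih =>
      obtain ⟨L, h1, h2, h3⟩ := ih
      obtain ⟨Fa, Fa', p1, p2, p3, p4⟩ := h3 a ha
      obtain ⟨Fb, Fb', q1, q2, q3, q4⟩ := h3 b hb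
      refine gate s l L _ (fun y => y 1) Fa Fb' (fun y => y 0) Fa' Fb h1 h2 h3
        (Or.inr ⟨1, rfl⟩) p1 q2 (Or.inr ⟨0, rfl⟩) p2 q1 ⟨?_, ?_⟩
      · intro y h0 h1
        simp only [h0, h1, (p3 y h0 h1).1, (p3 y h0 h1).2, (q3 y h0 h1).1, (q3 y h0 h1).2]
        generalize a (fun i => y i.succ.succ) = u
        generalize b (fun i => y i.succ.succ) = v
        cases u <;> cases v <;> exact ⟨rfl, rfl⟩
      · intro y h0 h1
        simp only [h0, h1, (p4 y h0 h1).1, (p4 y h0 h1).2, (q4 y h0 h1).1, (q4 y h0 h1).2]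
        generalize a (fun i => !y i.succ.succ) = u
        generalize b (fun i => !y i.succ.succ) = v
        cases u <;> cases v <;> exact ⟨rfl, rfl⟩
  refine ⟨2 * c0, fun n s C hC => ?_⟩
  obtain ⟨l, s', hl, hs', hCl⟩ := hC
  obtain ⟨L, h1, h2, h3⟩ := main n s' l hl
  obtain ⟨F, F', g1, g2, g3, g4⟩ := h3 C hCl
  obtain ⟨L1, k1, k2, k3⟩ := hstep (n + 2) L h1 (fun y => y 0) (fun y => y 1) F'
    (Or.inr ⟨0, rfl⟩) (Or.inr ⟨1, rfl⟩) g2
  refine ⟨L1 ++ L, k1, ?_, ?_⟩
  · rw [List.length_append]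
    have e1 : 2 * c0 * (s + n + 1) = 2 * c0 * s + c0 * n + c0 * n + 2 * c0 := by ring
    have e2 : 2 * c0 * s' ≤ 2 * c0 * s := Nat.mul_le_mul_left _ hs'
    omega
  · have e : MJ n C = fun y : Fin (n + 2) → Bool => bmaj (y 0) (y 1) (!F' y) := by
      funext y
      unfold MJ
      cases h0 : y 0
      · cases h1 : y 1
        · simp only [if_true]
          cases F' y <;> rfl
        · rw [(g3 y h0 h1).2, if_neg (by simp), if_pos rfl]
          generalize C (fun i => y i.succ.succ) = u
          cases u <;> rfl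
      · cases h1 : y 1
        · rw [(g4 y h0 h1).2, if_neg (by simp), if_neg (by simp)]
          generalize C (fun i => !y i.succ.succ) = u
          cases u <;> rfl
        · simp only [if_true]
          cases F' y <;> rfl
    rw [e]
    exact k3

end Pool.Agent.H547R9
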