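import Pool.Agent.H547R9.Stm
import Pool.Agent.H547R8.T_TS2

/-!
# Amplification for Merlin-Arthur games

Prover: helper676.
-/

set_option autoImplicit false

namespace Pool.Agent.H547R9

open Pool.Agent.H547R6 Pool.Agent.H547R7 Pool.Agent.H547R8 Pool.Agent.NPC
open Pool.Agent.H583R2 Pool.Agent.H545R2.KS

/-- block `i` of the list `w` -/
def MAC_blk (n : ℕ) (w : List Bool) (i : ℕ) : List Bool := (w.drop (n * i)).take n

/-- the new predicate -/
def MAC_b (V : List Bool → List Bool) (p : Polynomial ℕ) (K θ : ℕ) (x w : List Bool) : Bool :=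
  decide (θ ≤ ((List.range K).filter fun i => UP1_A V x
    (MAC_blk (p.eval x.length) w i ++ MAC_blk (p.eval x.length) w K)).length)

theorem MAC_pf {V : List Bool → List Bool} (hV : PolyTime V) (p : Polynomial ℕ) (K θ : ℕ) :
    PF (fun z : List Bool => MAC_b V p K θ (spl z).1 (spl z).2) := by
  have hx := TS2_pfx
  have hw := TS2_pfw
  have hn : PF (fun z : List Bool => p.eval (spl z).1.length) := pf_eval (PF.length hx) p
  unfold MAC_b MAC_blk
  refine PF.le (PF.const θ) (PF.length (PF.filter (f := fun z i => UP1_A V (spl z).1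
    (((spl z).2.drop (p.eval (spl z).1.length * i)).take (p.eval (spl z).1.length) ++
      ((spl z).2.drop (p.eval (spl z).1.length * K)).take (p.eval (spl z).1.length)))
    (PF.range (PF.const K)) ?_))
  have hn' : PF (fun q : List Bool × ℕ => p.eval (spl q.1).1.length) := hn.comp PF.fst
  have hw' : PF (fun q : List Bool × ℕ => (spl q.1).2) := hw.comp PF.fst
  exact UP1_pf_A hV (hx.comp PF.fst) (PF.append
    (PF.take hn' (PF.drop (PF.mul hn' PF.snd) hw'))
    (PF.take hn' (PF.drop (PF.mul hn' (PF.const K)) hw')))

theorem MAC_len (K : ℕ) (f : ℕ → Bool) : ((List.range K).filter f).length =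
    (Finset.univ.filter fun i : Fin K => f i = true).card := by
  have h1 : ((List.range K).filter f).length =
      ((Finset.range K).filter fun i => f i = true).card := by
    show _ = (List.filter (fun i => decide (f i = true)) (List.range K)).length
    congr 2
    funext i
    cases f i <;> rfl
  rw [h1, Finset.card_filter, Finset.card_filter, Finset.sum_range]

theorem MAC_take (n a m : ℕ) (z : Fin m → Bool) (h : a + n ≤ m) :
    ((List.ofFn z).drop a).take n = List.ofFn fun j : Fin n => z ⟨a + j, by omega⟩ := by
  apply List.ext_getElem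
  · simp
    omega
  · intro k h1 h2
    simp only [List.getElem_take, List.getElem_drop, List.getElem_ofFn]

/-- the value of the new game -/
theorem MAC_val (V V' : List Bool → List Bool) (p : Polynomial ℕ) (K θ : ℕ)
    (hV' : ∀ x n (r : Fin n → Bool), acc V' x n r = MAC_b V p K θ x (List.ofFn r)) (hK : 1 ≤ K)
    (x : List Bool) (y' : Fin (K * p.eval x.length) → Bool) :
    mav (acc V' x (K * p.eval x.length + K * p.eval x.length)) y' =
      pr (fun r' : Fin (K * p.eval x.length) → Bool => decide (θ ≤ cnt (fun _ : Fin K =>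
        fun r : Fin (p.eval x.length) → Bool => acc V x (p.eval x.length + p.eval x.length)
          (Fin.append r fun j => y' ⟨j, lt_of_lt_of_le j.2 (Nat.le_mul_of_pos_left _ hK)⟩))
            (blk r'))) := by
  unfold mav
  congr 1
  funext r'
  rw [hV']
  unfold MAC_b cnt MAC_blk
  rw [MAC_len]
  have hi : ∀ i : Fin K, UP1_A V x
      (((List.ofFn (Fin.append r' y')).drop (p.eval x.length * i)).take (p.eval x.length) ++
        ((List.ofFn (Fin.append r' y')).drop (p.eval x.length * K)).take (p.eval x.length)) =
      acc V x (p.eval x.length + p.eval x.length)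
          (Fin.append (blk r' i) fun j => y' ⟨j, lt_of_lt_of_le j.2 (Nat.le_mul_of_pos_left _ hK)⟩) := by
    intro i
    have hi2 := i.2
    have hle1 : p.eval x.length * i + p.eval x.length ≤ K * p.eval x.length := by
      nlinarith
    have hle2 : p.eval x.length ≤ K * p.eval x.length := Nat.le_mul_of_pos_left _ hK
    have hc : p.eval x.length * K = K * p.eval x.length := mul_comm _ _
    rw [MAC_take _ _ _ _ (by omega), MAC_take _ _ _ _ (by omega), ← List.ofFn_fin_append, ← UP1_acc]
    congr 2
    · funext j
      have hj := j.2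
      have e : (⟨p.eval x.length * i + j, by omega⟩ :
          Fin (K * p.eval x.length + K * p.eval x.length)) =
          Fin.castAdd _ (⟨p.eval x.length * i + j, by omega⟩ : Fin (K * p.eval x.length)) := rfl
      rw [e, Fin.append_left]
      unfold blk
      congr 1
      apply Fin.ext
      simp [finProdFinEquiv]
      ring
    · funext j
      have hj := j.2
      have e : (⟨p.eval x.length * K + j, by omega⟩ :
          Fin (K * p.eval x.length + K * p.eval x.length)) =
          Fin.natAdd _ (⟨j, by omega⟩ : Fin (K * p.eval x.length)) := by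
        apply Fin.ext
        simp only [Fin.val_natAdd]
        omega
      rw [e, Fin.append_right]
  congr 3
  apply Finset.filter_congr
  intro i _
  rw [hi i]

theorem MAC_pr_nonneg {Ω : Type} [Fintype Ω] (f : Ω → Bool) : 0 ≤ pr f := by
  unfold pr
  positivity

theorem t_MAC (h : S_CHE) : S_MAC := by
  intro L V p a b hV hab hL
  -- it suffices to find the constants
  have key : ∀ K θ : ℕ, 1 ≤ K →
      (∀ x ∈ L, ∀ y, a ≤ mav (acc V x (p.eval x.length + p.eval x.length)) y →
        2 / 3 ≤ pr (fun r' : Fin (K * p.eval x.length) → Bool => decide (θ ≤ cnt (fun _ : Fin K =>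
          fun r : Fin (p.eval x.length) → Bool => acc V x (p.eval x.length + p.eval x.length)
            (Fin.append r y)) (blk r')))) →
      (∀ x, x ∉ L → ∀ y, mav (acc V x (p.eval x.length + p.eval x.length)) y ≤ b →
        pr (fun r' : Fin (K * p.eval x.length) → Bool => decide (θ ≤ cnt (fun _ : Fin K =>
          fun r : Fin (p.eval x.length) → Bool => acc V x (p.eval x.length + p.eval x.length)
            (Fin.append r y)) (blk r'))) ≤ 1 / 3) → L ∈ MA := by
    intro K θ hK h1 h2
    obtain ⟨V', hV', hacc⟩ := TS2_mk (MAC_b V p K θ) (MAC_pf hV p K θ)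
    refine ⟨V', Polynomial.C K * p, hV', fun x => ?_⟩
    rw [Polynomial.eval_mul, Polynomial.eval_C]
    have hle : p.eval x.length ≤ K * p.eval x.length := Nat.le_mul_of_pos_left _ hK
    refine ⟨fun hx => ?_, fun hx y' => ?_⟩
    · obtain ⟨y, hy⟩ := (hL x).1 hx
      refine ⟨fun j => if hj : (j : ℕ) < p.eval x.length then y ⟨j, hj⟩ else false, ?_⟩
      rw [MAC_val V V' p K θ hacc hK x]
      have e : (fun j : Fin (p.eval x.length) =>
          (fun j : Fin (K * p.eval x.length) => if hj : (j : ℕ) < p.eval x.length then y ⟨j, hj⟩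
            else false) ⟨j, lt_of_lt_of_le j.2 (Nat.le_mul_of_pos_left _ hK)⟩) = y := by
        funext j
        simp
      rw [e]
      exact h1 x hx y hy
    · rw [MAC_val V V' p K θ hacc hK x]
      exact h2 x hx _ ((hL x).2 hx _)
  rcases lt_or_ge b 0 with hb | hb
  · refine key 1 0 le_rfl (fun x _ y _ => ?_) (fun x _ y hy => ?_)
    · unfold pr
      simp
      norm_num
    · exact absurd (lt_of_le_of_lt hy hb) (not_lt.2 (MAC_pr_nonneg _))
  · obtain ⟨m, hm⟩ := exists_nat_ge (max 1 (3 / (a - b)))
    have hm1 : (1 : ℝ) ≤ m := (le_max_left _ _).trans hm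
    have hm2 : 3 / (a - b) ≤ m := (le_max_right _ _).trans hm
    have hm3 : 3 ≤ m * (a - b) := by
      rwa [div_le_iff₀ (by linarith)] at hm2
    have hm0 : 1 ≤ m := by exact_mod_cast hm1
    have hmul : 2 * (m : ℝ) + 1 ≤ (m : ℝ) ^ 2 * (a - b) := by nlinarith
    have hKb : 0 ≤ (m : ℝ) ^ 2 * b + m := by positivity
    have hq : (((m ^ 2 : ℕ) : ℝ)) / (4 * (m : ℝ) ^ 2) = 1 / 4 := by
      push_cast
      field_simp
    refine key (m ^ 2) ⌈(m : ℝ) ^ 2 * b + m⌉₊ (Nat.one_le_pow _ _ hm0) (fun x _ y hy => ?_)
      (fun x _ y hy => ?_)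
    · have h3 := (h (p.eval x.length) (m ^ 2) (fun _ =>
        fun r : Fin (p.eval x.length) → Bool => acc V x (p.eval x.length + p.eval x.length)
            (Fin.append r y)) m (by linarith)).2 ⌈(m : ℝ) ^ 2 * b + m⌉₊ ?_
      · rw [hq] at h3
        linarith
      · rw [Finset.sum_const, Finset.card_univ, Fintype.card_fin, nsmul_eq_mul]
        push_cast
        have h4 := (Nat.ceil_lt_add_one hKb).le
        have h5 := mul_le_mul_of_nonneg_left hy (sq_nonneg (m : ℝ))
        unfold mav at h5
        linarith
    · have h3 := (h (p.eval x.length) (m ^ 2) (fun _ =>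
        fun r : Fin (p.eval x.length) → Bool => acc V x (p.eval x.length + p.eval x.length)
            (Fin.append r y)) m (by linarith)).1 ⌈(m : ℝ) ^ 2 * b + m⌉₊ ?_
      · rw [hq] at h3
        linarith
      · rw [Finset.sum_const, Finset.card_univ, Fintype.card_fin, nsmul_eq_mul]
        push_cast
        have h4 := Nat.le_ceil ((m : ℝ) ^ 2 * b + m)
        have h5 := mul_le_mul_of_nonneg_left hy (sq_nonneg (m : ℝ))
        unfold mav at h5
        linarith

end Pool.Agent.H547R9
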