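import Pool.Agent.H547R9.Stm

/-!
# MID: the slice function at half weight
-/

set_option autoImplicit false

namespace Pool.Agent.H547R9

open Pool.Agent.H547R6 Pool.Agent.H547R7 Pool.Agent.H547R8 Pool.Agent.NPC

open Finset

theorem MID_wt_sum {n : ℕ} (x : Fin n → Bool) : wt x = ∑ i, if x i = true then 1 else 0 := by
  unfold wt
  rw [card_filter]

theorem MID_wt_append {n M : ℕ} (r : Fin n → Bool) (y : Fin M → Bool) :
    wt (Fin.append r y) = wt r + wt y := by
  rw [MID_wt_sum, MID_wt_sum, MID_wt_sum, Fin.sum_univ_add]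
  simp only [Fin.append_left, Fin.append_right]

theorem MID_wt_le {n : ℕ} (x : Fin n → Bool) : wt x ≤ n := by
  unfold wt
  refine (card_filter_le _ _).trans ?_
  simp

theorem MID_wt_not {n : ℕ} (x : Fin n → Bool) : wt (fun i => !(x i)) + wt x = n := by
  rw [MID_wt_sum, MID_wt_sum, ← sum_add_distrib]
  have h : ∀ i : Fin n, ((if (!(x i)) = true then 1 else 0) + if x i = true then 1 else 0) = 1 := by
    intro i
    cases x i <;> simp
  rw [sum_congr rfl fun i _ => h i]
  simp

theorem MID_card_wt (n k : ℕ) :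
    (univ.filter fun x : Fin n → Bool => wt x = k).card = n.choose k := by
  have h : (powersetCard k (univ : Finset (Fin n))).card = n.choose k := by
    rw [card_powersetCard, card_univ, Fintype.card_fin]
  rw [← h]
  refine card_bij (fun x _ => univ.filter fun i => x i = true) ?_ ?_ ?_
  · intro x hx
    rw [mem_filter] at hx
    rw [mem_powersetCard]
    exact ⟨subset_univ _, hx.2⟩
  · intro x _ y _ hxy
    funext i
    have h1 : i ∈ (univ.filter fun i => x i = true) ↔ i ∈ (univ.filter fun i => y i = true) := by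
      rw [hxy]
    simp only [mem_filter, mem_univ, true_and] at h1
    cases hx : x i <;> cases hy : y i <;> simp_all
  · intro s hs
    rw [mem_powersetCard] at hs
    refine ⟨fun i => decide (i ∈ s), ?_, ?_⟩
    · rw [mem_filter]
      refine ⟨mem_univ _, ?_⟩
      unfold wt
      rw [← hs.2]
      congr 1
      ext i
      simp
    · ext i
      simp

theorem MID_card_append (n M : ℕ) (P : (Fin (n + M) → Bool) → Prop) [DecidablePred P] :
    (univ.filter P).card = ∑ r : Fin n → Bool, (univ.filter fun y => P (Fin.append r y)).card := by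
  rw [card_filter]
  simp only [card_filter]
  rw [← Fintype.sum_prod_type' (f := fun (r : Fin n → Bool) (y : Fin M → Bool) =>
    if P (Fin.append r y) then 1 else 0)]
  symm
  exact Fintype.sum_equiv (Fin.appendEquiv n M) _ _ (fun p => rfl)

/-- consecutive binomial coefficients near the middle -/
theorem MID_step (n M h : ℕ) (hT : n + M = 2 * h) (j : ℕ) (h1 : h - n ≤ j) (h2 : j + 1 ≤ h)
    (hnh : n ≤ h) :
    (1 - (n : ℝ) / h) * (M.choose j : ℝ) ≤ (M.choose (j + 1) : ℝ) ∧
    (1 - (n : ℝ) / h) * (M.choose (j + 1) : ℝ) ≤ (M.choose j : ℝ) := by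
  have h0 : (0 : ℝ) < h := by exact_mod_cast (by omega : 0 < h)
  have hc := Nat.choose_succ_right_eq M j
  have hc' : (M.choose (j + 1) : ℝ) * ((j : ℝ) + 1) = (M.choose j : ℝ) * ((M - j : ℕ) : ℝ) := by
    exact_mod_cast hc
  have e : 1 - (n : ℝ) / h = ((h - n : ℕ) : ℝ) / h := by
    rw [Nat.cast_sub hnh]
    field_simp
  have a1 : ((h - n : ℕ) : ℝ) ≤ ((M - j : ℕ) : ℝ) := by exact_mod_cast (by omega)
  have a2 : ((M - j : ℕ) : ℝ) ≤ h := by exact_mod_cast (by omega)
  have a3 : ((h - n : ℕ) : ℝ) ≤ (j : ℝ) + 1 := by exact_mod_cast (by omega : h - n ≤ j + 1)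
  have a4 : (j : ℝ) + 1 ≤ h := by exact_mod_cast h2
  have c0 : (0 : ℝ) ≤ (M.choose j : ℝ) := Nat.cast_nonneg _
  have c1 : (0 : ℝ) ≤ (M.choose (j + 1) : ℝ) := Nat.cast_nonneg _
  rw [e]
  constructor
  · rw [div_mul_eq_mul_div, div_le_iff₀ h0]
    calc ((h - n : ℕ) : ℝ) * (M.choose j : ℝ) ≤ (M.choose j : ℝ) * ((M - j : ℕ) : ℝ) := by
          rw [mul_comm]
          exact mul_le_mul_of_nonneg_left a1 c0
      _ = (M.choose (j + 1) : ℝ) * ((j : ℝ) + 1) := hc'.symm
      _ ≤ (M.choose (j + 1) : ℝ) * h := mul_le_mul_of_nonneg_left a4 c1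
  · rw [div_mul_eq_mul_div, div_le_iff₀ h0]
    calc ((h - n : ℕ) : ℝ) * (M.choose (j + 1) : ℝ) ≤ (M.choose (j + 1) : ℝ) * ((j : ℝ) + 1) := by
          rw [mul_comm]
          exact mul_le_mul_of_nonneg_left a3 c1
      _ = (M.choose j : ℝ) * ((M - j : ℕ) : ℝ) := hc'
      _ ≤ (M.choose j : ℝ) * h := mul_le_mul_of_nonneg_left a2 c0

theorem MID_steps (n M h : ℕ) (hT : n + M = 2 * h) (hnh : n ≤ h) (j : ℕ) (h1 : h - n ≤ j) (d : ℕ)
    (h2 : j + d ≤ h) :
    (1 - (n : ℝ) / h) ^ d * (M.choose j : ℝ) ≤ (M.choose (j + d) : ℝ) ∧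
    (1 - (n : ℝ) / h) ^ d * (M.choose (j + d) : ℝ) ≤ (M.choose j : ℝ) := by
  have hρ : 0 ≤ 1 - (n : ℝ) / h := by
    rw [sub_nonneg]
    apply div_le_one_of_le₀ _ (Nat.cast_nonneg _)
    exact_mod_cast hnh
  induction d with
  | zero => simp
  | succ d ih =>
    obtain ⟨i1, i2⟩ := ih (by omega)
    obtain ⟨s1, s2⟩ := MID_step n M h hT (j + d) (by omega) (by omega) hnh
    have e : j + (d + 1) = j + d + 1 := by omega
    rw [e]
    constructor
    · calc (1 - (n : ℝ) / h) ^ (d + 1) * (M.choose j : ℝ) =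
          (1 - (n : ℝ) / h) * ((1 - (n : ℝ) / h) ^ d * (M.choose j : ℝ)) := by ring
        _ ≤ (1 - (n : ℝ) / h) * (M.choose (j + d) : ℝ) := mul_le_mul_of_nonneg_left i1 hρ
        _ ≤ _ := s1
    · calc (1 - (n : ℝ) / h) ^ (d + 1) * (M.choose (j + d + 1) : ℝ) =
          (1 - (n : ℝ) / h) ^ d * ((1 - (n : ℝ) / h) * (M.choose (j + d + 1) : ℝ)) := by ring
        _ ≤ (1 - (n : ℝ) / h) ^ d * (M.choose (j + d) : ℝ) :=
          mul_le_mul_of_nonneg_left s2 (pow_nonneg hρ _)
        _ ≤ _ := i2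

/-- any two of the binomial coefficients near the middle -/
theorem MID_ratio (n M h : ℕ) (hT : n + M = 2 * h) (hh : 8 * (n + 1) ^ 2 ≤ h) (i j : ℕ)
    (hi : i ≤ n) (hj : j ≤ n) :
    7 / 8 * (M.choose (h - i) : ℝ) ≤ (M.choose (h - j) : ℝ) := by
  have hnh : n ≤ h := by nlinarith
  have h0 : (0 : ℝ) < h := by
    have : 0 < h := by nlinarith
    exact_mod_cast this
  have hρ0 : 0 ≤ 1 - (n : ℝ) / h := by
    rw [sub_nonneg]
    apply div_le_one_of_le₀ _ (Nat.cast_nonneg _)
    exact_mod_cast hnh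
  have hρ1 : 1 - (n : ℝ) / h ≤ 1 := by
    have : 0 ≤ (n : ℝ) / h := by positivity
    linarith
  have hpow : ∀ d, d ≤ n → 7 / 8 ≤ (1 - (n : ℝ) / h) ^ d := by
    intro d hd
    have h1 : (1 - (n : ℝ) / h) ^ n ≤ (1 - (n : ℝ) / h) ^ d := pow_le_pow_of_le_one hρ0 hρ1 hd
    have h2 := one_add_mul_le_pow (a := -((n : ℝ) / h)) (by linarith) n
    have h3 : (n : ℝ) * ((n : ℝ) / h) ≤ 1 / 8 := by
      rw [← mul_div_assoc, div_le_iff₀ h0]
      have h4 : (8 * ((n : ℝ) + 1) ^ 2) ≤ h := by exact_mod_cast hh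
      have h5 : (0 : ℝ) ≤ n := Nat.cast_nonneg _
      nlinarith
    have h4 : (1 + -((n : ℝ) / h)) ^ n = (1 - (n : ℝ) / h) ^ n := by ring
    rw [h4] at h2
    linarith
  have c0 : ∀ k, (0 : ℝ) ≤ (M.choose k : ℝ) := fun k => Nat.cast_nonneg _
  rcases le_total i j with hij | hij
  · obtain ⟨d, hd⟩ : ∃ d, h - i = (h - j) + d := ⟨j - i, by omega⟩
    have hs := (MID_steps n M h hT hnh (h - j) (by omega) d (by omega)).2
    rw [← hd] at hs
    exact (mul_le_mul_of_nonneg_right (hpow d (by omega)) (c0 _)).trans hs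
  · obtain ⟨d, hd⟩ : ∃ d, h - j = (h - i) + d := ⟨i - j, by omega⟩
    have hs := (MID_steps n M h hT hnh (h - i) (by omega) d (by omega)).1
    rw [← hd] at hs
    exact (mul_le_mul_of_nonneg_right (hpow d (by omega)) (c0 _)).trans hs

theorem MID_key (n M h : ℕ) (D : BF n) (hT : n + M = 2 * h) (hh : 8 * (n + 1) ^ 2 ≤ h)
    (F : BF (n + M)) (hF : F = slice (n + M) h fun z => D fun i => z (Fin.castAdd M i)) :
    (2 / 3 ≤ pr D → 1 / 2 + 1 / (12 * (2 * (h : ℝ) + 1)) ≤ pr F) ∧
    (pr D ≤ 1 / 3 → pr F ≤ 1 / 2 - 1 / (12 * (2 * (h : ℝ) + 1))) := by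
  classical
  have hnh : n ≤ h := by nlinarith
  have hpos : 0 < h := by nlinarith
  have h0 : (0 : ℝ) < h := by exact_mod_cast hpos
  -- numbers
  obtain ⟨N, hN⟩ : ∃ N : (Fin n → Bool) → ℝ, ∀ r, N r = (M.choose (h - wt r) : ℝ) := ⟨_, fun r => rfl⟩
  have hNcard : ∀ r : Fin n → Bool,
      ((univ.filter fun y : Fin M → Bool => wt r + wt y = h).card : ℝ) = N r := by
    intro r
    rw [hN, ← MID_card_wt]
    congr 2
    ext y
    have := MID_wt_le r
    simp only [mem_filter, mem_univ, true_and]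
    constructor
    · intro hy
      omega
    · intro hy
      omega
  -- the weight `h`
  obtain ⟨E, hE⟩ : ∃ E : ℝ, E = ((univ.filter fun z : Fin (n + M) → Bool => wt z = h).card : ℝ) :=
    ⟨_, rfl⟩
  have hE1 : E = ∑ r, N r := by
    rw [hE, MID_card_append]
    push_cast
    apply sum_congr rfl
    intro r _
    rw [← hNcard]
    congr 2
    ext y
    simp only [mem_filter, mem_univ, true_and, MID_wt_append]
  obtain ⟨SD, hSD⟩ : ∃ SD : ℝ, SD = ∑ r, if D r = true then N r else 0 := ⟨_, rfl⟩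
  have hB : ((univ.filter fun z : Fin (n + M) → Bool => wt z = h ∧
      D (fun i => z (Fin.castAdd M i)) = true).card : ℝ) = SD := by
    rw [MID_card_append, hSD]
    push_cast
    apply sum_congr rfl
    intro r _
    simp only [Fin.append_left]
    by_cases hr : D r = true
    · rw [if_pos hr, ← hNcard]
      congr 2
      ext y
      simp only [mem_filter, mem_univ, true_and, MID_wt_append, hr, and_true]
    · rw [if_neg hr]
      rw [filter_false_of_mem]
      · simp
      · intro y _ hy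
        exact hr hy.2
  -- symmetry
  have hsym : (univ.filter fun z : Fin (n + M) → Bool => h < wt z).card =
      (univ.filter fun z : Fin (n + M) → Bool => wt z < h).card := by
    refine card_bij (fun z _ => fun i => !(z i)) ?_ ?_ ?_
    · intro z hz
      rw [mem_filter] at hz ⊢
      have := MID_wt_not z
      exact ⟨mem_univ _, by omega⟩
    · intro z _ z' _ hzz
      funext i
      have := congrFun hzz i
      simpa using this
    · intro z hz
      rw [mem_filter] at hz
      refine ⟨fun i => !(z i), ?_, ?_⟩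
      · rw [mem_filter]
        have := MID_wt_not z
        exact ⟨mem_univ _, by omega⟩
      · funext i
        simp
  have htot : (2 : ℝ) ^ (n + M) = 2 * ((univ.filter fun z : Fin (n + M) → Bool => h < wt z).card : ℝ)
      + E := by
    have h1 : Fintype.card (Fin (n + M) → Bool) =
        (univ.filter fun z : Fin (n + M) → Bool => h < wt z).card +
        ((univ.filter fun z : Fin (n + M) → Bool => wt z < h).card +
        (univ.filter fun z : Fin (n + M) → Bool => wt z = h).card) := by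
      rw [← card_univ, card_filter, card_filter, card_filter, ← sum_add_distrib, ← sum_add_distrib,
        card_eq_sum_ones]
      apply sum_congr rfl
      intro z _
      rcases lt_trichotomy (wt z) h with h1 | h1 | h1
      · rw [if_neg (by omega), if_pos h1, if_neg (by omega), add_zero, zero_add]
      · rw [if_neg (by omega), if_neg (by omega), if_pos h1, zero_add, zero_add]
      · rw [if_pos h1, if_neg (by omega), if_neg (by omega), add_zero, add_zero]
    rw [← hsym] at h1
    simp only [Fintype.card_fun, Fintype.card_bool, Fintype.card_fin] at h1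
    have h2 : ((2 ^ (n + M) : ℕ) : ℝ) = _ := congrArg Nat.cast h1
    push_cast at h2
    rw [hE]
    linarith
  -- the probability
  have hF' : ((univ.filter fun z => F z = true).card : ℝ) =
      ((univ.filter fun z : Fin (n + M) → Bool => h < wt z).card : ℝ) + SD := by
    rw [← hB]
    have h1 : (univ.filter fun z => F z = true).card =
        (univ.filter fun z : Fin (n + M) → Bool => h < wt z).card +
        (univ.filter fun z : Fin (n + M) → Bool => wt z = h ∧
          D (fun i => z (Fin.castAdd M i)) = true).card := by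
      rw [card_filter, card_filter, card_filter, ← sum_add_distrib]
      apply sum_congr rfl
      intro z _
      rw [hF]
      unfold H547R7.slice
      by_cases h1 : h < wt z
      · have h2 : ¬ (wt z = h) := by omega
        simp [h1, h2]
      · by_cases h2 : wt z = h
        · simp [h2]
        · simp [h1, h2]
    exact_mod_cast h1
  have hprF : pr F = (((univ.filter fun z : Fin (n + M) → Bool => h < wt z).card : ℝ) + SD) /
      2 ^ (n + M) := by
    unfold pr
    rw [hF']
    simp only [Fintype.card_fun, Fintype.card_bool, Fintype.card_fin]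
    push_cast
    rfl
  have hTp : (0 : ℝ) < 2 ^ (n + M) := by positivity
  have hpr2 : pr F = 1 / 2 + (SD - E / 2) / 2 ^ (n + M) := by
    rw [hprF]
    field_simp
    linarith
  -- the central binomial coefficient
  have hEge : (2 : ℝ) ^ (n + M) ≤ 2 * h * E := by
    have h1 := Nat.four_pow_le_two_mul_self_mul_centralBinom h hpos
    rw [Nat.centralBinom_eq_two_mul_choose] at h1
    rw [hE, MID_card_wt, hT, pow_mul]
    norm_num
    exact_mod_cast h1
  -- the maximum
  obtain ⟨r0, _, hr0⟩ := exists_max_image (univ : Finset (Fin n → Bool)) N ⟨fun _ => false, mem_univ _⟩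
  obtain ⟨b, hb⟩ : ∃ b : ℝ, b = N r0 := ⟨_, rfl⟩
  have hle : ∀ r, N r ≤ b := fun r => by rw [hb]; exact hr0 r (mem_univ _)
  have hge : ∀ r, 7 / 8 * b ≤ N r := by
    intro r
    rw [hb, hN, hN]
    exact MID_ratio n M h hT hh _ _ (MID_wt_le _) (MID_wt_le _)
  have hb0 : 0 ≤ b := by rw [hb, hN]; exact Nat.cast_nonneg _
  obtain ⟨c, hc⟩ : ∃ c : ℝ, c = ((univ.filter fun r => D r = true).card : ℝ) := ⟨_, rfl⟩
  have hprD : pr D = c / 2 ^ n := by
    unfold pr
    rw [hc]
    simp only [Fintype.card_fun, Fintype.card_bool, Fintype.card_fin]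
    push_cast
    rfl
  obtain ⟨SE, hSE⟩ : ∃ SE : ℝ, SE = ∑ r, if D r = true then 0 else N r := ⟨_, rfl⟩
  have hsplit : E = SD + SE := by
    rw [hE1, hSD, hSE, ← sum_add_distrib]
    apply sum_congr rfl
    intro r _
    split_ifs <;> simp
  have hone : ∑ r : Fin n → Bool, (if D r = true then (1 : ℝ) else 0) = c := by
    rw [hc, card_filter]
    push_cast
    rfl
  have htwo : ∑ r : Fin n → Bool, (if D r = true then (0 : ℝ) else 1) = 2 ^ n - c := by
    have h1 : ∑ r : Fin n → Bool, ((if D r = true then (1 : ℝ) else 0) +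
        (if D r = true then (0 : ℝ) else 1)) = 2 ^ n := by
      have h2 : ∀ r : Fin n → Bool, ((if D r = true then (1 : ℝ) else 0) +
        (if D r = true then (0 : ℝ) else 1)) = 1 := by
        intro r
        split_ifs <;> simp
      rw [sum_congr rfl fun r _ => h2 r]
      simp
    rw [sum_add_distrib, hone] at h1
    linarith
  have hSD1 : SD ≤ b * c := by
    rw [hSD, ← hone, mul_sum]
    apply sum_le_sum
    intro r _
    split_ifs
    · rw [mul_one]; exact hle r
    · simp
  have hSD2 : 7 / 8 * b * c ≤ SD := by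
    rw [hSD, ← hone, mul_sum]
    apply sum_le_sum
    intro r _
    split_ifs
    · rw [mul_one]; exact hge r
    · simp
  have hSE1 : SE ≤ b * (2 ^ n - c) := by
    rw [hSE, ← htwo, mul_sum]
    apply sum_le_sum
    intro r _
    split_ifs
    · simp
    · rw [mul_one]; exact hle r
  have hSE2 : 7 / 8 * b * (2 ^ n - c) ≤ SE := by
    rw [hSE, ← htwo, mul_sum]
    apply sum_le_sum
    intro r _
    split_ifs
    · simp
    · rw [mul_one]; exact hge r
  have hP : (0 : ℝ) < 2 ^ n := by positivity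
  have hEle : E ≤ b * 2 ^ n := by
    rw [hsplit]
    calc SD + SE ≤ b * c + b * (2 ^ n - c) := add_le_add hSD1 hSE1
      _ = b * 2 ^ n := by ring
  have hfin : 1 / (12 * (2 * (h : ℝ) + 1)) ≤ (E / 8) / 2 ^ (n + M) := by
    rw [div_le_div_iff₀ (by positivity) hTp]
    have hE0 : 0 ≤ E := by rw [hE]; exact Nat.cast_nonneg _
    nlinarith
  constructor
  · intro hd
    rw [hprD, le_div_iff₀ hP] at hd
    have h1 : E / 8 ≤ SD - E / 2 := by
      have h2 : 7 / 8 * b * (2 / 3 * 2 ^ n) ≤ 7 / 8 * b * c :=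
        mul_le_mul_of_nonneg_left hd (by positivity)
      have h3 : b * (2 ^ n - c) ≤ b * (1 / 3 * 2 ^ n) :=
        mul_le_mul_of_nonneg_left (by linarith) hb0
      linarith
    have h2 : (E / 8) / 2 ^ (n + M) ≤ (SD - E / 2) / 2 ^ (n + M) :=
      div_le_div_of_nonneg_right h1 hTp.le
    rw [hpr2]
    linarith
  · intro hd
    rw [hprD, div_le_iff₀ hP] at hd
    have h1 : SD - E / 2 ≤ -(E / 8) := by
      have h2 : b * c ≤ b * (1 / 3 * 2 ^ n) := mul_le_mul_of_nonneg_left hd hb0
      have h3 : 7 / 8 * b * (2 / 3 * 2 ^ n) ≤ 7 / 8 * b * (2 ^ n - c) :=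
        mul_le_mul_of_nonneg_left (by linarith) (by positivity)
      linarith
    have h2 : (SD - E / 2) / 2 ^ (n + M) ≤ (-(E / 8)) / 2 ^ (n + M) :=
      div_le_div_of_nonneg_right h1 hTp.le
    rw [neg_div] at h2
    rw [hpr2]
    linarith

theorem MID_gen (n T h : ℕ) (D : BF n) (hn : n ≤ T) (hT : T = 2 * h) (hh : 8 * (n + 1) ^ 2 ≤ h) :
    (2 / 3 ≤ pr D → 1 / 2 + 1 / (12 * (2 * (h : ℝ) + 1)) ≤
      pr (slice T h fun z => D fun i => z (Fin.castLE hn i))) ∧
    (pr D ≤ 1 / 3 → pr (slice T h fun z => D fun i => z (Fin.castLE hn i)) ≤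
      1 / 2 - 1 / (12 * (2 * (h : ℝ) + 1))) := by
  obtain ⟨M, rfl⟩ := Nat.exists_eq_add_of_le hn
  exact MID_key n M h D hT hh _ rfl

theorem t_MID : S_MID := by
  intro n D
  exact MID_gen n (2 * hh n) (hh n) D (hh_le n) rfl le_rfl

end Pool.Agent.H547R9
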