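import Pool.Agent.H547R9.Stm

set_option autoImplicit false

namespace Pool.Agent.H547R9

open Pool.Agent.H547R6 Pool.Agent.H547R7 Pool.Agent.H547R8 Pool.Agent.NPC

theorem MOC_hh_pos (n : ℕ) : 0 < hh n := by unfold hh; positivity

theorem MOC_kh_pos (n : ℕ) : 0 < kh n := by unfold kh; positivity

theorem MOC_one (n : ℕ) (D : BF n) : mono n D (fun _ => true) = true := by
  unfold mono
  rw [decide_eq_true_iff]
  have h1 : ∀ i : Fin (2 * kh n), mid n (hh n) D (hh_le n)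
      ((blk (fun _ : Fin (2 * kh n * (2 * hh n)) => true) : Fin (2 * kh n) → Fin (2 * hh n) → Bool) i)
      = true := by
    intro i
    unfold mid slice
    have hw : wt ((blk (fun _ : Fin (2 * kh n * (2 * hh n)) => true) :
        Fin (2 * kh n) → Fin (2 * hh n) → Bool) i) = 2 * hh n := by
      unfold wt blk
      simp
    rw [hw]
    have := MOC_hh_pos n
    have h3 : hh n < 2 * hh n := by omega
    simp [h3]
  unfold cnt
  have h2 : (Finset.univ.filter fun i : Fin (2 * kh n) => mid n (hh n) D (hh_le n)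
      ((blk (fun _ : Fin (2 * kh n * (2 * hh n)) => true) : Fin (2 * kh n) → Fin (2 * hh n) → Bool) i)
      = true) = Finset.univ := by
    apply Finset.filter_true_of_mem
    intro i _
    exact h1 i
  rw [h2, Finset.card_univ, Fintype.card_fin]
  omega

theorem MOC_zero (n : ℕ) (D : BF n) : mono n D (fun _ => false) = false := by
  unfold mono
  rw [decide_eq_false_iff_not]
  have h1 : ∀ i : Fin (2 * kh n), mid n (hh n) D (hh_le n)
      ((blk (fun _ : Fin (2 * kh n * (2 * hh n)) => false) : Fin (2 * kh n) → Fin (2 * hh n) → Bool) i)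
      = false := by
    intro i
    unfold mid slice
    have hw : wt ((blk (fun _ : Fin (2 * kh n * (2 * hh n)) => false) :
        Fin (2 * kh n) → Fin (2 * hh n) → Bool) i) = 0 := by
      unfold wt blk
      simp
    rw [hw]
    have := MOC_hh_pos n
    have h3 : ¬ hh n < 0 := by omega
    have h4 : ¬ 0 = hh n := by omega
    simp [h4]
  unfold cnt
  have h2 : (Finset.univ.filter fun i : Fin (2 * kh n) => mid n (hh n) D (hh_le n)
      ((blk (fun _ : Fin (2 * kh n * (2 * hh n)) => false) : Fin (2 * kh n) → Fin (2 * hh n) → Bool) i)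
      = true) = ∅ := by
    apply Finset.filter_false_of_mem
    intro i _
    rw [h1 i]
    exact Bool.false_ne_true
  rw [h2, Finset.card_empty]
  have := MOC_kh_pos n
  omega

theorem MOC_bound : ∃ c : ℕ, ∀ n s : ℕ,
    2 * kh n * (4 * (2 * hh n + 1) ^ 3 + 2 * s) + 2 * (2 * kh n) * (2 * kh n + 1) ≤
      c * (n + s + 1) ^ c := by
  obtain ⟨c, hc1, hc2⟩ : ∃ c : ℕ, 20000000000 ≤ c ∧ 10 ≤ c := ⟨20000000000, le_rfl, by norm_num⟩
  refine ⟨c, fun n s => ?_⟩
  have hm1 : 1 ≤ n + s + 1 := by omega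
  have hnm : n + 1 ≤ n + s + 1 := by omega
  have hsm : s ≤ n + s + 1 := by omega
  generalize n + s + 1 = m at hm1 hnm hsm ⊢
  have p2 : 1 ≤ m ^ 2 := Nat.one_le_pow _ _ hm1
  have hN : 2 * hh n + 1 ≤ 17 * m ^ 2 := by
    unfold hh
    have : (n + 1) ^ 2 ≤ m ^ 2 := Nat.pow_le_pow_left hnm 2
    omega
  have hk : 2 * kh n ≤ 86700 * m ^ 4 := by
    unfold kh
    have h1 : (2 * hh n + 1) ^ 2 ≤ (17 * m ^ 2) ^ 2 := Nat.pow_le_pow_left hN 2
    have h2 : (17 * m ^ 2) ^ 2 = 289 * m ^ 4 := by ring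
    rw [h2] at h1
    omega
  have h3 : (2 * hh n + 1) ^ 3 ≤ 4913 * m ^ 6 := by
    have h1 : (2 * hh n + 1) ^ 3 ≤ (17 * m ^ 2) ^ 3 := Nat.pow_le_pow_left hN 3
    have h2 : (17 * m ^ 2) ^ 3 = 4913 * m ^ 6 := by ring
    rw [h2] at h1
    exact h1
  have q6 : m ≤ m ^ 6 := by
    calc m = m ^ 1 := (pow_one m).symm
      _ ≤ m ^ 6 := Nat.pow_le_pow_right hm1 (by norm_num)
  have p4 : 1 ≤ m ^ 4 := Nat.one_le_pow _ _ hm1
  have q8 : m ^ 8 ≤ m ^ 10 := Nat.pow_le_pow_right hm1 (by norm_num)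
  have a1 : 4 * (2 * hh n + 1) ^ 3 + 2 * s ≤ 19654 * m ^ 6 := by omega
  have a2 : 2 * kh n * (4 * (2 * hh n + 1) ^ 3 + 2 * s) ≤ 86700 * m ^ 4 * (19654 * m ^ 6) :=
    Nat.mul_le_mul hk a1
  have a3 : 86700 * m ^ 4 * (19654 * m ^ 6) = 1704001800 * m ^ 10 := by ring
  have a4 : 2 * kh n + 1 ≤ 86701 * m ^ 4 := by omega
  have a5 : 2 * (2 * kh n) ≤ 173400 * m ^ 4 := by omega
  have a6 : 2 * (2 * kh n) * (2 * kh n + 1) ≤ 173400 * m ^ 4 * (86701 * m ^ 4) :=
    Nat.mul_le_mul a5 a4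
  have a7 : 173400 * m ^ 4 * (86701 * m ^ 4) = 15033953400 * m ^ 8 := by ring
  rw [a3] at a2
  rw [a7] at a6
  have a8 : 2 * kh n * (4 * (2 * hh n + 1) ^ 3 + 2 * s) + 2 * (2 * kh n) * (2 * kh n + 1) ≤
      20000000000 * m ^ 10 := by omega
  refine a8.trans ?_
  exact Nat.mul_le_mul hc1 (Nat.pow_le_pow_right hm1 hc2)

theorem t_MOC (h1 : S_REN) (h2 : S_TST) : S_MOC := by
  obtain ⟨c, hc⟩ := MOC_bound
  refine ⟨c, fun n s D hD => ?_⟩
  have hC := h1.2.1 n (2 * hh n) s (Fin.castLE (hh_le n)) D hD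
  rcases h2 (2 * hh n) (2 * kh n) s (fun _ => hh n) _ hC (kh n) with ⟨b, hb⟩ | h
  · exfalso
    have e1 : mono n D (fun _ => true) = b := hb _
    have e2 : mono n D (fun _ => false) = b := hb _
    rw [MOC_one] at e1
    rw [MOC_zero] at e2
    rw [← e1] at e2
    exact Bool.false_ne_true e2
  · obtain ⟨l, g, k, av⟩ := h
    exact ⟨l, g, k.trans (hc n s), av⟩

end Pool.Agent.H547R9
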