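import Pool.Agent.H547R9.Stm
import Pool.Agent.H547R7.Stm

/-!
# The majority of many slice functions (helper338)
-/

set_option autoImplicit false

namespace Pool.Agent.H547R9

open Pool.Agent.H547R6 Pool.Agent.H547R7 Pool.Agent.H547R8 Pool.Agent.NPC

private theorem MON_aux (h2 : S_CHE) (H k : ℕ) (hk0 : k = 150 * (2 * H + 1) ^ 2)
    (g : BF (2 * H)) :
    (1 / 2 + 1 / (12 * (2 * (H : ℝ) + 1)) ≤ pr g → 3 / 4 ≤
      pr (fun z : Fin (2 * k * (2 * H)) → Bool =>
        decide (k ≤ cnt (fun _ : Fin (2 * k) => g) (blk z)))) ∧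
    (pr g ≤ 1 / 2 - 1 / (12 * (2 * (H : ℝ) + 1)) →
      pr (fun z : Fin (2 * k * (2 * H)) → Bool =>
        decide (k ≤ cnt (fun _ : Fin (2 * k) => g) (blk z))) ≤ 1 / 4) := by
  have hm : (0 : ℝ) < 2 * (H : ℝ) + 1 := by positivity
  have hk1 : (k : ℝ) = 150 * (2 * (H : ℝ) + 1) ^ 2 := by
    rw [hk0]
    push_cast
    ring
  clear hk0
  set m : ℝ := 2 * (H : ℝ) + 1 with hmdef
  have hk : ((2 * k : ℕ) : ℝ) = 300 * m ^ 2 := by
    push_cast
    rw [hk1]
    ring
  have hsum : ∑ _i : Fin (2 * k), pr g = 300 * m ^ 2 * pr g := by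
    rw [Finset.sum_const, Finset.card_univ, Fintype.card_fin, nsmul_eq_mul, hk]
  have ha : (0 : ℝ) < 25 * m := by positivity
  obtain ⟨c1, c2⟩ := h2 (2 * H) (2 * k) (fun _ => g) (25 * m) ha
  have herr : ((2 * k : ℕ) : ℝ) / (4 * (25 * m) ^ 2) = 3 / 25 := by
    rw [hk]
    field_simp
    norm_num
  have hfrac : 300 * m ^ 2 * (1 / (12 * m)) = 25 * m := by
    field_simp
    norm_num
  constructor
  · intro h3
    have h4 := c2 k (by
      rw [hsum, hk1]
      have h5 := mul_le_mul_of_nonneg_left h3 (by positivity : (0 : ℝ) ≤ 300 * m ^ 2)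
      rw [mul_add, hfrac] at h5
      linarith)
    rw [herr] at h4
    refine le_trans ?_ h4
    norm_num
  · intro h3
    have h4 := c1 k (by
      rw [hsum, hk1]
      have h5 := mul_le_mul_of_nonneg_left h3 (by positivity : (0 : ℝ) ≤ 300 * m ^ 2)
      rw [mul_sub, hfrac] at h5
      linarith)
    rw [herr] at h4
    refine le_trans h4 ?_
    norm_num

theorem t_MON (h1 : S_MID) (h2 : S_CHE) : S_MON := by
  intro n D
  obtain ⟨hA, hB⟩ := h1 n D
  obtain ⟨c1, c2⟩ := MON_aux h2 (hh n) (kh n) rfl (mid n (hh n) D (hh_le n))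
  exact ⟨fun h => c1 (hA h), fun h => c2 (hB h)⟩

end Pool.Agent.H547R9
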