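import Pool.Agent.H547R9.Stm

/-!
# Circuits for `S3` of monotone functions over gate sets with `a ∧ (b ∨ c)`
-/

set_option autoImplicit false

namespace Pool.Agent.H547R9

open Pool.Agent.H547R6 Pool.Agent.H547R7 Pool.Agent.H547R8 Pool.Agent.NPC

private theorem MSD_app {n : ℕ} (l' l : List (BF n)) (f : BF n) (h : Avail l f) :
    Avail (l' ++ l) f := by
  rcases h with h | h
  · exact Or.inl (List.mem_append_right _ h)
  · exact Or.inr h

private theorem MSD_subst {B : Set BFun} {k : ℕ} {g : (Fin k → Bool) → Bool}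
    (hg : Gen B (Fin k) g) : ∃ c : ℕ, ∀ (n : ℕ) (l : List (BF n)), Gates B n l →
      ∀ a : Fin k → BF n, (∀ j, Avail l (a j)) →
      ∃ l', Gates B n (l' ++ l) ∧ l'.length ≤ c ∧ Avail (l' ++ l) (fun x => g fun j => a j x) := by
  induction hg with
  | var i =>
    refine ⟨0, fun n l hl a ha => ⟨[], by simpa using hl, by simp, ?_⟩⟩
    simpa using ha i
  | app k' f hf h hh ih =>
    choose c hc using ih
    refine ⟨(∑ j, c j) + 1, fun n l hl a ha => ?_⟩
    have key : ∀ s : Finset (Fin k'), ∃ l', Gates B n (l' ++ l) ∧ l'.length ≤ ∑ j ∈ s, c j ∧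
        ∀ j ∈ s, Avail (l' ++ l) (fun x => h j fun i => a i x) := by
      intro s
      induction s using Finset.induction_on with
      | empty => exact ⟨[], by simpa using hl, by simp, by simp⟩
      | insert j s hj ihs =>
        obtain ⟨l1, h1, h2, h3⟩ := ihs
        obtain ⟨l2, h4, h5, h6⟩ := hc j n (l1 ++ l) h1 a
          (fun i => MSD_app _ _ _ (ha i))
        refine ⟨l2 ++ l1, by rw [List.append_assoc]; exact h4, ?_, ?_⟩
        · rw [List.length_append, Finset.sum_insert hj]
          omega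
        · intro i hi
          rw [List.append_assoc]
          rcases Finset.mem_insert.1 hi with rfl | hi
          · exact h6
          · exact MSD_app _ _ _ (h3 i hi)
    obtain ⟨l1, h1, h2, h3⟩ := key Finset.univ
    refine ⟨(fun x => f fun j => h j fun i => a i x) :: l1, ?_, ?_, ?_⟩
    · exact Gates.gate (l1 ++ l) k' f (fun j x => h j fun i => a i x) hf
        (fun j => h3 j (Finset.mem_univ j)) h1
    · rw [List.length_cons]; omega
    · exact Or.inl List.mem_cons_self

/-- a function is available in the frame -/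
private def MSD_Rep {n : ℕ} (L : List (BF (n + 2))) (f : BF n) : Prop :=
  ∃ F : BF (n + 2), Avail L F ∧ ∀ y : Fin (n + 2) → Bool, y 1 = true →
    F y = f (fun i => y i.succ.succ)

private theorem MSD_rep_app {n : ℕ} (L' L : List (BF (n + 2))) (f : BF n) (h : MSD_Rep L f) :
    MSD_Rep (L' ++ L) f := by
  obtain ⟨F, h1, h3⟩ := h
  exact ⟨F, MSD_app _ _ _ h1, h3⟩

private theorem MSD_rep {n : ℕ} {l : List (BF n)} {L : List (BF (n + 2))}
    (h : ∀ f ∈ l, MSD_Rep L f) (f : BF n) (hf : Avail l f) : MSD_Rep L f := by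
  rcases hf with hf | ⟨i, rfl⟩
  · exact h f hf
  · exact ⟨fun y => y i.succ.succ, Or.inr ⟨_, rfl⟩, fun y _ => rfl⟩

theorem t_MSD : S_MSD := by
  intro B hB
  obtain ⟨c0, hc0⟩ := MSD_subst hB
  -- one application of the operation
  have hstep : ∀ (n : ℕ) (l : List (BF n)), Gates B n l → ∀ a b d : BF n, Avail l a → Avail l b →
      Avail l d → ∃ l', Gates B n (l' ++ l) ∧ l'.length ≤ c0 ∧
        Avail (l' ++ l) (fun x => oS (a x) (b x) (d x)) := by
    intro n l hl a b d ha hb hd
    obtain ⟨l', h1, h2, h3⟩ := hc0 n l hl ![a, b, d] (by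
      intro j
      fin_cases j
      · exact ha
      · exact hb
      · exact hd)
    exact ⟨l', h1, h2, h3⟩
  have main : ∀ (n : ℕ) (l : List (BF n)), Gates MB n l → ∃ L : List (BF (n + 2)),
      Gates B (n + 2) L ∧ L.length ≤ c0 * l.length ∧ ∀ f ∈ l, MSD_Rep L f := by
    intro n l hl
    induction hl with
    | nil => exact ⟨[], Gates.nil, by simp, by simp⟩
    | gate l k f g hf hg hl ih =>
      obtain ⟨L, h1, h2, h3⟩ := ih
      have hlen : c0 * (l.length + 1) = c0 * l.length + c0 := by ring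
      simp only [MB, Set.mem_insert_iff, Set.mem_singleton_iff, Sigma.mk.injEq] at hf
      rcases hf with ⟨rfl, hf⟩ | ⟨rfl, hf⟩
      · rw [heq_iff_eq] at hf
        subst hf
        obtain ⟨F0, a1, a2⟩ := MSD_rep h3 (g 0) (hg 0)
        obtain ⟨F1, b1, b2⟩ := MSD_rep h3 (g 1) (hg 1)
        obtain ⟨L', g1, g2, g3⟩ := hstep (n + 2) L h1 F0 F1 F1 a1 b1 b1
        refine ⟨L' ++ L, g1, ?_, ?_⟩
        · rw [List.length_append, List.length_cons]; omega
        · intro f' hf'
          rcases List.mem_cons.1 hf' with rfl | hf'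
          · refine ⟨_, g3, fun y hy => ?_⟩
            simp only [oS, a2 y hy, b2 y hy, Bool.or_self]
          · exact MSD_rep_app _ _ _ (h3 f' hf')
      · rw [heq_iff_eq] at hf
        subst hf
        obtain ⟨F0, a1, a2⟩ := MSD_rep h3 (g 0) (hg 0)
        obtain ⟨F1, b1, b2⟩ := MSD_rep h3 (g 1) (hg 1)
        obtain ⟨L', g1, g2, g3⟩ := hstep (n + 2) L h1 (fun y => y 1) F0 F1 (Or.inr ⟨1, rfl⟩) a1 b1
        refine ⟨L' ++ L, g1, ?_, ?_⟩
        · rw [List.length_append, List.length_cons]; omega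
        · intro f' hf'
          rcases List.mem_cons.1 hf' with rfl | hf'
          · refine ⟨_, g3, fun y hy => ?_⟩
            simp only [oS, a2 y hy, b2 y hy, hy, Bool.true_and]
          · exact MSD_rep_app _ _ _ (h3 f' hf')
  refine ⟨c0, fun n s M hM => ?_⟩
  obtain ⟨l, hl, hs, hMl⟩ := hM
  obtain ⟨L, h1, h2, h3⟩ := main n l hl
  obtain ⟨F, g1, g3⟩ := MSD_rep h3 M hMl
  obtain ⟨L1, k1, k2, k3⟩ := hstep (n + 2) L h1 (fun y => y 1) (fun y => y 0) F
    (Or.inr ⟨1, rfl⟩) (Or.inr ⟨0, rfl⟩) g1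
  refine ⟨L1 ++ L, k1, ?_, ?_⟩
  · rw [List.length_append]
    have e1 : c0 * (s + 1) = c0 * s + c0 := by ring
    have e2 : c0 * l.length ≤ c0 * s := Nat.mul_le_mul_left _ hs
    omega
  · have e : S3 n M = fun y : Fin (n + 2) → Bool => oS (y 1) (y 0) (F y) := by
      funext y
      unfold S3 oS
      cases h1 : y 1
      · rfl
      · rw [g3 y h1]
    rw [e]
    exact k3

end Pool.Agent.H547R9
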