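import Pool.Agent.H547R9.Stm

/-!
# Monotone gate sets: games are in BPP
-/

set_option autoImplicit false

namespace Pool.Agent.H547R9

open Pool.Agent.H547R6 Pool.Agent.H547R7 Pool.Agent.H547R8 Pool.Agent.NPC
open Pool.Agent.H583R2 Pool.Agent.H545R2.KS

/-- the algorithm in which the message consists of ones only -/
def MUP_V (V : List Bool → List Bool) (z : List Bool) : List Bool :=
  V (pairBits (spl z).1 ((spl z).2 ++ List.replicate (spl z).2.length true))

theorem MUP_poly {V : List Bool → List Bool} (hV : PolyTime V) : PolyTime (MUP_V V) := by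
  have h1 : PF (fun z : List Bool => (spl z).1) := PF.fst' (PF.spl PF.id)
  have h2 : PF (fun z : List Bool => (spl z).2) := PF.snd' (PF.spl PF.id)
  have h3 : PF (fun z : List Bool =>
      (spl z).2 ++ List.replicate (spl z).2.length true) :=
    PF.append h2 (PF.replicate (PF.length h2) (PF.const true))
  exact polyTime_of_pf ((pf_of_polyTime hV).comp (pf_pairBits h1 h3))

theorem MUP_acc (V : List Bool → List Bool) (x : List Bool) (n : ℕ) (r : Fin n → Bool) :
    acc (MUP_V V) x n r = acc V x (n + n) (Fin.append r fun _ => true) := by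
  unfold acc MUP_V
  rw [spl_pairBits, List.ofFn_fin_append, List.ofFn_const]
  simp

theorem MUP_pr_mono {Ω : Type} [Fintype Ω] (p q : Ω → Bool) (h : ∀ x, p x = true → q x = true) :
    pr p ≤ pr q := by
  unfold pr
  apply div_le_div_of_nonneg_right _ (by positivity)
  have : (Finset.univ.filter fun x => p x = true) ⊆ (Finset.univ.filter fun x => q x = true) := by
    intro x hx
    rw [Finset.mem_filter] at hx ⊢
    exact ⟨hx.1, h x hx.2⟩
  exact_mod_cast Finset.card_le_card this

theorem MUP_mon {n : ℕ} (F : BF (n + n)) (hF : (⟨n + n, F⟩ : BFun) ∈ Mon) (r y : Fin n → Bool)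
    (h : F (Fin.append r y) = true) : F (Fin.append r fun _ => true) = true := by
  refine hF (Fin.append r y) (Fin.append r fun _ => true) ?_ h
  intro i
  refine Fin.addCases (fun j => ?_) (fun j => ?_) i
  · rw [Fin.append_left, Fin.append_left]
    exact id
  · intro _
    rw [Fin.append_right]

theorem MUP_amv {n : ℕ} (F : BF (n + n)) (hF : (⟨n + n, F⟩ : BFun) ∈ Mon) :
    amv F = mav F fun _ => true := by
  unfold amv mav
  congr 1
  funext r
  by_cases h : F (Fin.append r fun _ => true) = true
  · rw [h]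
    exact decide_eq_true ⟨_, h⟩
  · rw [Bool.not_eq_true] at h
    rw [h]
    refine decide_eq_false ?_
    rintro ⟨y, hy⟩
    rw [MUP_mon F hF r y hy] at h
    exact absurd h (by decide)

theorem MUP_mav {n : ℕ} (F : BF (n + n)) (hF : (⟨n + n, F⟩ : BFun) ∈ Mon) (y : Fin n → Bool) :
    mav F y ≤ mav F fun _ => true :=
  MUP_pr_mono _ _ fun r hr => MUP_mon F hF r y hr

theorem MUP_pr (V : List Bool → List Bool) (x : List Bool) (n : ℕ) :
    pr (acc (MUP_V V) x n) = mav (acc V x (n + n)) fun _ => true := by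
  unfold mav
  congr 1
  funext r
  exact MUP_acc V x n r

theorem t_MUP (h1 : S_CLS) (h2 : S_BPC) : S_MUP := by
  intro B hB
  constructor
  · rintro L ⟨V, p, q, a, b, hV, hab, hx⟩
    refine h2 L (MUP_V V) p a b (MUP_poly hV) hab fun x => ?_
    obtain ⟨hc, ha, hb⟩ := hx x
    have hF := h1 B Mon (by simp) hB _ _ _ hc
    rw [MUP_pr, ← MUP_amv _ hF]
    exact ⟨ha, hb⟩
  · rintro L ⟨V, p, q, a, b, hV, hab, hx⟩
    refine h2 L (MUP_V V) p a b (MUP_poly hV) hab fun x => ?_
    obtain ⟨hc, ha, hb⟩ := hx x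
    have hF := h1 B Mon (by simp) hB _ _ _ hc
    rw [MUP_pr]
    refine ⟨fun hxL => ?_, fun hxL => hb hxL _⟩
    obtain ⟨y, hy⟩ := ha hxL
    exact hy.trans (MUP_mav _ hF y)

end Pool.Agent.H547R9
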