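import Pool.Agent.H547R9.T_NBP

/-!
# Normal form for `AM`
-/

set_option autoImplicit false

namespace Pool.Agent.H547R9

open Pool.Agent.H547R6 Pool.Agent.H547R7 Pool.Agent.H547R8 Pool.Agent.NPC

theorem t_NAM : S_NAM := by
  rintro L ⟨V, p, hV, hL⟩
  refine ⟨NBP_V V, p + 1, NBP_pf hV, fun m => by simp, fun x => ?_⟩
  have h : (p + 1).eval x.length = p.eval x.length + 1 := by simp
  rw [h, NBP_amv]
  exact hL x

end Pool.Agent.H547R9
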