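import Pool.Agent.H547R9.Stm
import Pool.Agent.H547R8.T_NFP
import Pool.Agent.H547R8.T_TFR

/-!
# Normal forms for `BPP`, `AM` and `MA`
-/

set_option autoImplicit false

namespace Pool.Agent.H547R9

open Pool.Agent.H547R6 Pool.Agent.H547R7 Pool.Agent.H547R8 Pool.Agent.NPC
open Pool.Agent.H583R2 (PF PF.fst' PF.snd' PF.spl PF.id PF.tail PF.append PF.take PF.drop
  PF.length spl)
open Pool.Agent.H545R2.KS (polyTime_of_pf pf_of_polyTime pf_pairBits spl_pairBits)

theorem t_NBP : S_NBP := by
  rintro L ⟨V, p, hV, hL⟩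
  refine ⟨NFP_V V, p + 1, ?_, fun m => ?_, fun x => ?_⟩
  · apply polyTime_of_pf
    exact (pf_of_polyTime hV).comp
      (pf_pairBits (PF.fst' (PF.spl PF.id)) (PF.tail (PF.snd' (PF.spl PF.id))))
  · simp
  · have h : (p + 1).eval x.length = p.eval x.length + 1 := by simp
    rw [h, NFP_acc, NFP_pr]
    exact hL x

/-- the middle of a string -/
def NBP_h (w : List Bool) : ℕ := (TFR_half w.length).length

theorem NBP_pf_h {α : Type} [H583R2.TEnc α] {w : α → List Bool} (hw : PF w) :
    PF (fun a => NBP_h (w a)) := by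
  unfold NBP_h
  exact PF.length (TFR_pf_half (PF.length hw))

theorem NBP_split {n : ℕ} (z : Fin (n + n) → Bool) :
    (List.ofFn z).take (NBP_h (List.ofFn z)) = List.ofFn (fun i => z (Fin.castAdd n i)) ∧
    (List.ofFn z).drop (NBP_h (List.ofFn z)) = List.ofFn (fun i => z (Fin.natAdd n i)) := by
  have h1 : NBP_h (List.ofFn z) = n := by
    unfold NBP_h
    rw [List.length_ofFn, TFR_half_eq, List.length_range]
  have h2 : (List.ofFn fun i => z (Fin.castAdd n i)).length = n := List.length_ofFn
  rw [h1, List.ofFn_add]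
  exact ⟨List.take_left' h2, List.drop_left' h2⟩

/-- the algorithm that ignores the first bit of both halves -/
def NBP_V (V : List Bool → List Bool) (z : List Bool) : List Bool :=
  V (pairBits (spl z).1 (((spl z).2.take (NBP_h (spl z).2)).tail ++
    ((spl z).2.drop (NBP_h (spl z).2)).tail))

theorem NBP_pf {V : List Bool → List Bool} (hV : PolyTime V) : PolyTime (NBP_V V) := by
  apply polyTime_of_pf
  have hx : PF (fun z : List Bool => (spl z).1) := PF.fst' (PF.spl PF.id)
  have hw : PF (fun z : List Bool => (spl z).2) := PF.snd' (PF.spl PF.id)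
  exact (pf_of_polyTime hV).comp (pf_pairBits hx (PF.append
    (PF.tail (PF.take (NBP_pf_h hw) hw)) (PF.tail (PF.drop (NBP_pf_h hw) hw))))

theorem NBP_acc (V : List Bool → List Bool) (x : List Bool) (n : ℕ)
    (r y : Fin (n + 1) → Bool) :
    acc (NBP_V V) x ((n + 1) + (n + 1)) (Fin.append r y) =
      acc V x (n + n) (Fin.append (fun i => r i.succ) (fun i => y i.succ)) := by
  unfold acc NBP_V
  rw [spl_pairBits]
  simp only
  rw [(NBP_split _).1, (NBP_split _).2]
  simp only [Fin.append_left, Fin.append_right]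
  rw [List.ofFn_succ, List.ofFn_succ, List.tail_cons, List.tail_cons, List.ofFn_fin_append]

theorem NBP_mav (V : List Bool → List Bool) (x : List Bool) (n : ℕ) (y : Fin (n + 1) → Bool) :
    mav (acc (NBP_V V) x ((n + 1) + (n + 1))) y = mav (acc V x (n + n)) (fun i => y i.succ) := by
  unfold mav
  simp only [NBP_acc]
  exact NFP_pr n fun r => acc V x (n + n) (Fin.append r (fun i => y i.succ))

theorem NBP_amv (V : List Bool → List Bool) (x : List Bool) (n : ℕ) :
    amv (acc (NBP_V V) x ((n + 1) + (n + 1))) = amv (acc V x (n + n)) := by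
  unfold amv
  simp only [NBP_acc]
  rw [← NFP_pr n]
  congr 1
  funext r
  apply Bool.decide_congr
  constructor
  · rintro ⟨y, hy⟩
    exact ⟨fun i => y i.succ, hy⟩
  · rintro ⟨y, hy⟩
    refine ⟨Fin.cons false y, ?_⟩
    simpa using hy

end Pool.Agent.H547R9
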