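import Pool.Agent.H547R9.T_NBP

/-!
# Normal form for `MA`
-/

set_option autoImplicit false

namespace Pool.Agent.H547R9

open Pool.Agent.H547R6 Pool.Agent.H547R7 Pool.Agent.H547R8 Pool.Agent.NPC

theorem t_NMA : S_NMA := by
  rintro L ⟨V, p, hV, hL⟩
  refine ⟨NBP_V V, p + 1, NBP_pf hV, fun m => by simp, fun x => ?_⟩
  have h : (p + 1).eval x.length = p.eval x.length + 1 := by simp
  rw [h]
  constructor
  · intro hx
    obtain ⟨y, hy⟩ := (hL x).1 hx
    refine ⟨Fin.cons false y, ?_⟩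
    rw [NBP_mav]
    simpa using hy
  · intro hx y
    rw [NBP_mav]
    exact (hL x).2 hx _

end Pool.Agent.H547R9
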