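import Pool.Agent.H547R9.Stm
import Pool.Agent.H547R8.T_UP1
import Pool.Agent.H547R8.T_PR2

/-!
# Affine gate sets
-/

set_option autoImplicit false

namespace Pool.Agent.H547R9

open Pool.Agent.H547R6 Pool.Agent.H547R7 Pool.Agent.H547R8 Pool.Agent.NPC
open Pool.Agent.H583R2 Pool.Agent.H545R2.KS

/-- the zero vector -/
abbrev PA1_z (n : ℕ) : Fin n → Bool := fun _ => false

theorem PA1_append_z (n : ℕ) : Fin.append (PA1_z n) (PA1_z n) = PA1_z (n + n) := by
  funext k
  refine Fin.addCases (fun i => ?_) (fun j => ?_) k
  · rw [Fin.append_left]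
  · rw [Fin.append_right]

theorem PA1_append_evl {n : ℕ} (i : Fin n) :
    Fin.append (ev i) (PA1_z n) = ev (Fin.castAdd n i) := by
  funext k
  refine Fin.addCases (fun l => ?_) (fun l => ?_) k
  · rw [Fin.append_left]
    simp only [H547R8.ev, Fin.ext_iff, Fin.val_castAdd]
  · rw [Fin.append_right]
    have : Fin.natAdd n l ≠ Fin.castAdd n i := by
      intro h
      have := congrArg Fin.val h
      rw [Fin.val_natAdd, Fin.val_castAdd] at this
      omega
    unfold H547R8.ev
    rw [decide_eq_false this]

theorem PA1_append_evr {n : ℕ} (j : Fin n) :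
    Fin.append (PA1_z n) (ev j) = ev (Fin.natAdd n j) := by
  funext k
  refine Fin.addCases (fun l => ?_) (fun l => ?_) k
  · rw [Fin.append_left]
    have : Fin.castAdd n l ≠ Fin.natAdd n j := by
      intro h
      have := congrArg Fin.val h
      rw [Fin.val_natAdd, Fin.val_castAdd] at this
      omega
    unfold H547R8.ev
    rw [decide_eq_false this]
  · rw [Fin.append_right]
    simp only [H547R8.ev, Fin.ext_iff, Fin.val_natAdd, add_right_inj]

theorem PA1_split {n : ℕ} {F : BF (n + n)} (hF : (⟨n + n, F⟩ : BFun) ∈ Aff)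
    (r y : Fin n → Bool) : F (Fin.append r y) =
      xor (F (Fin.append r (PA1_z n))) (xor (F (Fin.append (PA1_z n) y)) (F (PA1_z (n + n)))) := by
  have h := hF (Fin.append r (PA1_z n)) (Fin.append (PA1_z n) y) (PA1_z (n + n))
  change F (fun i => xor (Fin.append r (PA1_z n) i) (xor (Fin.append (PA1_z n) y i) false)) = _ at h
  rw [← h]
  congr 1
  funext k
  refine Fin.addCases (fun i => ?_) (fun j => ?_) k
  · rw [Fin.append_left, Fin.append_left, Fin.append_left]
    simp
  · rw [Fin.append_right, Fin.append_right, Fin.append_right]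
    simp

theorem PA1_affl {n : ℕ} {F : BF (n + n)} (hF : (⟨n + n, F⟩ : BFun) ∈ Aff) (y : Fin n → Bool) :
    (⟨n, fun r => F (Fin.append r y)⟩ : BFun) ∈ Aff := by
  intro a b c
  change F (Fin.append (fun i => xor (a i) (xor (b i) (c i))) y) =
    xor (F (Fin.append a y)) (xor (F (Fin.append b y)) (F (Fin.append c y)))
  have h := hF (Fin.append a y) (Fin.append b y) (Fin.append c y)
  change F _ = xor (F (Fin.append a y)) (xor (F (Fin.append b y)) (F (Fin.append c y))) at h
  rw [← h]
  congr 1
  funext k
  refine Fin.addCases (fun i => ?_) (fun j => ?_) k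
  · simp only [Fin.append_left]
  · simp only [Fin.append_right]
    cases y j <;> rfl

theorem PA1_affr {n : ℕ} {F : BF (n + n)} (hF : (⟨n + n, F⟩ : BFun) ∈ Aff) (r : Fin n → Bool) :
    (⟨n, fun y => F (Fin.append r y)⟩ : BFun) ∈ Aff := by
  intro a b c
  change F (Fin.append r (fun i => xor (a i) (xor (b i) (c i)))) =
    xor (F (Fin.append r a)) (xor (F (Fin.append r b)) (F (Fin.append r c)))
  have h := hF (Fin.append r a) (Fin.append r b) (Fin.append r c)
  change F _ = xor (F (Fin.append r a)) (xor (F (Fin.append r b)) (F (Fin.append r c))) at h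
  rw [← h]
  congr 1
  funext k
  refine Fin.addCases (fun i => ?_) (fun j => ?_) k
  · simp only [Fin.append_left]
    cases r i <;> rfl
  · simp only [Fin.append_right]

/-- a nonconstant affine function is true on half of the vectors -/
theorem PA1_half {n : ℕ} {C : BF n} (hC : (⟨n, C⟩ : BFun) ∈ Aff) (i : Fin n)
    (h : C (ev i) ≠ C (PA1_z n)) : pr C = 1 / 2 := by
  have h1 := PR2_two C (fun x j => xor (x j) (ev i j)) (fun x => by funext j; simp)
  have h2 : ∀ x : Fin n → Bool, ((if C x = true then 1 else 0) +
      (if C (fun j => xor (x j) (ev i j)) = true then 1 else 0)) = 1 := by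
    intro x
    have h3 := hC x (ev i) (PA1_z n)
    change C (fun j => xor (x j) (xor (ev i j) false)) = xor (C x) (xor (C (ev i)) (C (PA1_z n))) at h3
    have e : (fun j => xor (x j) (xor (ev i j) false)) = fun j => xor (x j) (ev i j) := by
      funext j; simp
    rw [e] at h3
    rw [h3]
    revert h
    generalize C (ev i) = p
    generalize C (PA1_z n) = q
    generalize C x = s
    cases p <;> cases q <;> cases s <;> decide
  rw [Finset.sum_congr rfl fun x _ => h2 x, Finset.sum_const, Finset.card_univ, smul_eq_mul,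
    mul_one] at h1
  unfold pr
  have h3 : (2 : ℝ) * ((Finset.univ.filter fun x => C x = true).card : ℝ) =
      (Fintype.card (Fin n → Bool) : ℝ) := by exact_mod_cast h1
  have h4 : (0 : ℝ) < (Fintype.card (Fin n → Bool) : ℝ) := by exact_mod_cast PR2_card
  rw [div_eq_iff h4.ne']
  linarith

theorem PA1_const {n : ℕ} {C : BF n} (b : Bool) (h : ∀ x, C x = b) :
    pr C = if b = true then 1 else 0 := by
  have h4 : (Fintype.card (Fin n → Bool) : ℝ) ≠ 0 := by exact_mod_cast PR2_card.ne'
  unfold pr
  cases b
  · have : (Finset.univ.filter fun x => C x = true) = ∅ := by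
      apply Finset.filter_false_of_mem
      intro x _
      rw [h x]
      decide
    rw [this]
    simp
  · have : (Finset.univ.filter fun x => C x = true) = Finset.univ := by
      apply Finset.filter_true_of_mem
      intro x _
      exact h x
    rw [this, Finset.card_univ, if_pos rfl, div_self h4]

theorem PA1_or {a b : Bool} (h : a ≠ b) : a = true ∨ b = true := by
  revert h
  cases a <;> cases b <;> decide

/-- the value of the Arthur-Merlin game -/
theorem PA1_am {n : ℕ} {F : BF (n + n)} (hF : (⟨n + n, F⟩ : BFun) ∈ Aff) (dy dr : Bool)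
    (hy : dy = true ↔ ∃ j : Fin n, F (ev (Fin.natAdd n j)) ≠ F (PA1_z (n + n)))
    (hr : dr = true ↔ ∃ i : Fin n, F (ev (Fin.castAdd n i)) ≠ F (PA1_z (n + n))) :
    amv F = if dy = true then 1 else if dr = true then 1 / 2 else
      if F (PA1_z (n + n)) = true then 1 else 0 := by
  by_cases h1 : dy = true
  · rw [if_pos h1]
    obtain ⟨j, hj⟩ := hy.1 h1
    have hall : ∀ r : Fin n → Bool, decide (∃ y : Fin n → Bool, F (Fin.append r y) = true) = true := by
      intro r
      rw [decide_eq_true_eq]
      have hne : F (Fin.append r (ev j)) ≠ F (Fin.append r (PA1_z n)) := by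
        rw [PA1_split hF r (ev j), PA1_split hF r (PA1_z n), PA1_append_z, PA1_append_evr]
        revert hj
        generalize F (ev (Fin.natAdd n j)) = p
        generalize F (PA1_z (n + n)) = q
        generalize F (Fin.append r (PA1_z n)) = s
        cases p <;> cases q <;> cases s <;> decide
      rcases PA1_or hne with h | h
      · exact ⟨_, h⟩
      · exact ⟨_, h⟩
    exact PA1_const (C := fun r => decide (∃ y : Fin n → Bool, F (Fin.append r y) = true)) true hall
  · rw [if_neg h1]
    have hc : ∀ r y : Fin n → Bool, F (Fin.append r y) = F (Fin.append r (PA1_z n)) := by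
      intro r y
      apply PR2_aff (PA1_affr hF r)
      intro j
      change F (Fin.append r (ev j)) = F (Fin.append r (PA1_z n))
      rw [PA1_split hF r (ev j), PA1_split hF r (PA1_z n), PA1_append_z, PA1_append_evr]
      have : F (ev (Fin.natAdd n j)) = F (PA1_z (n + n)) := by
        by_contra hne
        exact h1 (hy.2 ⟨j, hne⟩)
      rw [this]
      cases F (Fin.append r (PA1_z n)) <;> cases F (PA1_z (n + n)) <;> rfl
    have he : (fun r : Fin n → Bool => decide (∃ y : Fin n → Bool, F (Fin.append r y) = true)) =
        fun r => F (Fin.append r (PA1_z n)) := by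
      funext r
      cases hh : F (Fin.append r (PA1_z n))
      · rw [decide_eq_false_iff_not]
        rintro ⟨y, h⟩
        rw [hc r y, hh] at h
        exact absurd h (by decide)
      · rw [decide_eq_true_eq]
        exact ⟨_, hh⟩
    unfold amv
    rw [he]
    by_cases h2 : dr = true
    · rw [if_pos h2]
      obtain ⟨i, hi⟩ := hr.1 h2
      apply PA1_half (PA1_affl hF (PA1_z n)) i
      change F (Fin.append (ev i) (PA1_z n)) ≠ F (Fin.append (PA1_z n) (PA1_z n))
      rw [PA1_append_z, PA1_append_evl]
      exact hi
    · rw [if_neg h2]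
      apply PA1_const
      intro r
      have := PR2_aff (PA1_affl hF (PA1_z n)) (fun i => by
        change F (Fin.append (ev i) (PA1_z n)) = F (Fin.append (PA1_z n) (PA1_z n))
        rw [PA1_append_z, PA1_append_evl]
        by_contra hne
        exact h2 (hr.2 ⟨i, hne⟩)) r
      change F (Fin.append r (PA1_z n)) = F (Fin.append (PA1_z n) (PA1_z n)) at this
      rw [this, PA1_append_z]

/-- the value of the Merlin-Arthur game -/
theorem PA1_ma {n : ℕ} {F : BF (n + n)} (hF : (⟨n + n, F⟩ : BFun) ∈ Aff) (dy dr : Bool)
    (hy : dy = true ↔ ∃ j : Fin n, F (ev (Fin.natAdd n j)) ≠ F (PA1_z (n + n)))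
    (hr : dr = true ↔ ∃ i : Fin n, F (ev (Fin.castAdd n i)) ≠ F (PA1_z (n + n))) :
    (∀ y, mav F y ≤ if dr = true then 1 / 2 else if dy = true then 1 else
      if F (PA1_z (n + n)) = true then 1 else 0) ∧
    ∃ y, mav F y = if dr = true then 1 / 2 else if dy = true then 1 else
      if F (PA1_z (n + n)) = true then 1 else 0 := by
  by_cases h2 : dr = true
  · rw [if_pos h2]
    obtain ⟨i, hi⟩ := hr.1 h2
    have hall : ∀ y, mav F y = 1 / 2 := by
      intro y
      apply PA1_half (PA1_affl hF y) i
      change F (Fin.append (ev i) y) ≠ F (Fin.append (PA1_z n) y)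
      rw [PA1_split hF (ev i) y, PA1_split hF (PA1_z n) y, PA1_append_z, PA1_append_evl]
      revert hi
      generalize F (ev (Fin.castAdd n i)) = p
      generalize F (PA1_z (n + n)) = q
      generalize F (Fin.append (PA1_z n) y) = s
      cases p <;> cases q <;> cases s <;> decide
    exact ⟨fun y => (hall y).le, PA1_z n, hall _⟩
  · rw [if_neg h2]
    have hall : ∀ y, mav F y = if F (Fin.append (PA1_z n) y) = true then 1 else 0 := by
      intro y
      apply PA1_const
      intro r
      apply PR2_aff (PA1_affl hF y)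
      intro i
      change F (Fin.append (ev i) y) = F (Fin.append (PA1_z n) y)
      rw [PA1_split hF (ev i) y, PA1_split hF (PA1_z n) y, PA1_append_z, PA1_append_evl]
      have : F (ev (Fin.castAdd n i)) = F (PA1_z (n + n)) := by
        by_contra hne
        exact h2 (hr.2 ⟨i, hne⟩)
      rw [this]
      cases F (Fin.append (PA1_z n) y) <;> cases F (PA1_z (n + n)) <;> rfl
    by_cases h1 : dy = true
    · rw [if_pos h1]
      obtain ⟨j, hj⟩ := hy.1 h1
      refine ⟨fun y => ?_, ?_⟩
      · rw [hall y]
        split_ifs <;> norm_num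
      · rcases PA1_or hj with h | h
        · refine ⟨ev j, ?_⟩
          rw [hall, PA1_append_evr, if_pos h]
        · refine ⟨PA1_z n, ?_⟩
          rw [hall, PA1_append_z, if_pos h]
    · rw [if_neg h1]
      have hc : ∀ y, F (Fin.append (PA1_z n) y) = F (PA1_z (n + n)) := by
        intro y
        have := PR2_aff (PA1_affr hF (PA1_z n)) (fun j => by
          change F (Fin.append (PA1_z n) (ev j)) = F (Fin.append (PA1_z n) (PA1_z n))
          rw [PA1_append_z, PA1_append_evr]
          by_contra hne
          exact h1 (hy.2 ⟨j, hne⟩)) y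
        change F (Fin.append (PA1_z n) y) = F (Fin.append (PA1_z n) (PA1_z n)) at this
        rw [this, PA1_append_z]
      refine ⟨fun y => ?_, PA1_z n, ?_⟩
      · rw [hall, hc]
      · rw [hall, hc]

/-- the unit vector as a list -/
def PA1_u (N i : ℕ) : List Bool := (List.range N).map fun j => decide (j = i)

theorem PA1_pf_u {α : Type} [H583R2.TEnc α] {N i : α → ℕ} (hN : PF N) (hi : PF i) :
    PF (fun a => PA1_u (N a) (i a)) := by
  unfold PA1_u
  exact PF.map (f := fun a j => decide (j = i a)) (PF.range hN) (PF.natEq PF.snd (hi.comp PF.fst))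

theorem PA1_ev {V : List Bool → List Bool} {x : List Bool} {N : ℕ} (i : Fin N) :
    acc V x N (ev i) = UP1_A V x (PA1_u N i.val) := by
  rw [UP1_acc]
  congr 1
  unfold PA1_u
  apply List.ext_getElem
  · simp
  · intro k h1 h2
    simp [H547R8.ev, Fin.ext_iff]

/-- does the function depend on one of the variables `s, ..., s + n - 1` -/
def PA1_D (V : List Bool → List Bool) (x : List Bool) (n s : ℕ) : Bool :=
  (List.range n).any fun j =>
    !(UP1_A V x (PA1_u (n + n) (s + j)) == UP1_A V x (List.replicate (n + n) false))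

theorem PA1_pf_D {V : List Bool → List Bool} (hV : PolyTime V) {n s : List Bool → ℕ}
    (hn : PF n) (hs : PF s) : PF (fun x => PA1_D V x (n x) (s x)) := by
  unfold PA1_D
  refine PF.any (f := fun x j => !(UP1_A V x (PA1_u (n x + n x) (s x + j)) ==
    UP1_A V x (List.replicate (n x + n x) false))) (PF.range hn) ?_
  have hn' : PF (fun a : List Bool × ℕ => n a.1 + n a.1) :=
    PF.add (hn.comp PF.fst) (hn.comp PF.fst)
  exact PF.not (PF.beqBool
    (UP1_pf_A hV PF.fst (PA1_pf_u hn' (PF.add (hs.comp PF.fst) PF.snd)))
    (UP1_pf_A hV PF.fst (PF.replicate hn' (PF.const false))))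

theorem PA1_D_iff {V : List Bool → List Bool} {x : List Bool} {n s : ℕ} (e : Fin n → Fin (n + n))
    (he : ∀ j, (e j).val = s + j.val) :
    PA1_D V x n s = true ↔
      ∃ j : Fin n, acc V x (n + n) (ev (e j)) ≠ acc V x (n + n) (PA1_z (n + n)) := by
  unfold PA1_D
  rw [List.any_eq_true]
  constructor
  · rintro ⟨j, hj, h⟩
    refine ⟨⟨j, List.mem_range.1 hj⟩, ?_⟩
    rw [PA1_ev, he]
    change UP1_A V x (PA1_u (n + n) (s + j)) ≠ acc V x (n + n) (fun _ => false)
    rw [UP1_zero]
    intro h'
    rw [h'] at h
    simp at h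
  · rintro ⟨j, h⟩
    refine ⟨j.val, List.mem_range.2 j.2, ?_⟩
    rw [PA1_ev, he] at h
    change _ ≠ acc V x (n + n) (fun _ => false) at h
    rw [UP1_zero] at h
    simpa using h

open Classical in
theorem t_PA1 (h : S_CLS) : S_PA1 := by
  intro B hB
  constructor
  · rintro L ⟨V, p, q, a, b, hV, hab, hL⟩
    have hn : PF (fun x : List Bool => p.eval x.length) := pf_eval (PF.length PF.id) p
    refine UP1_inP (b := fun x => if PA1_D V x (p.eval x.length) (p.eval x.length) = true then
      decide (a ≤ 1) else if PA1_D V x (p.eval x.length) 0 = true then decide (a ≤ 1 / 2) else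
        if UP1_A V x (List.replicate (p.eval x.length + p.eval x.length) false) = true then
          decide (a ≤ 1) else decide (a ≤ 0)) ?_ fun x => ?_
    · exact PF.ite (PA1_pf_D hV hn hn) (PF.const _) (PF.ite (PA1_pf_D hV hn (PF.const 0))
        (PF.const _) (PF.ite (UP1_pf_A hV PF.id (PF.replicate (PF.add hn hn) (PF.const false)))
          (PF.const _) (PF.const _)))
    · obtain ⟨hc, h1, h2⟩ := hL x
      set n := p.eval x.length with hnd
      have hF : (⟨n + n, acc V x (n + n)⟩ : BFun) ∈ Aff := h B Aff (Or.inl rfl) hB _ _ _ hc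
      have hval := PA1_am hF (PA1_D V x n n) (PA1_D V x n 0)
        (PA1_D_iff (Fin.natAdd n) fun j => Fin.val_natAdd n j)
        (PA1_D_iff (Fin.castAdd n) fun j => by simp)
      have hz : acc V x (n + n) (PA1_z (n + n)) = UP1_A V x (List.replicate (n + n) false) :=
        UP1_zero
      rw [hz] at hval
      have hx : x ∈ L ↔ a ≤ amv (acc V x (n + n)) := by
        constructor
        · exact h1
        · intro h3
          by_contra h4
          have := h2 h4
          linarith
      rw [hx, hval]
      split_ifs <;> simp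
  · rintro L ⟨V, p, q, a, b, hV, hab, hL⟩
    have hn : PF (fun x : List Bool => p.eval x.length) := pf_eval (PF.length PF.id) p
    refine UP1_inP (b := fun x => if PA1_D V x (p.eval x.length) 0 = true then
      decide (a ≤ 1 / 2) else if PA1_D V x (p.eval x.length) (p.eval x.length) = true then
        decide (a ≤ 1) else
        if UP1_A V x (List.replicate (p.eval x.length + p.eval x.length) false) = true then
          decide (a ≤ 1) else decide (a ≤ 0)) ?_ fun x => ?_
    · exact PF.ite (PA1_pf_D hV hn (PF.const 0)) (PF.const _) (PF.ite (PA1_pf_D hV hn hn)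
        (PF.const _) (PF.ite (UP1_pf_A hV PF.id (PF.replicate (PF.add hn hn) (PF.const false)))
          (PF.const _) (PF.const _)))
    · obtain ⟨hc, h1, h2⟩ := hL x
      set n := p.eval x.length with hnd
      have hF : (⟨n + n, acc V x (n + n)⟩ : BFun) ∈ Aff := h B Aff (Or.inl rfl) hB _ _ _ hc
      obtain ⟨hle, y0, hy0⟩ := PA1_ma hF (PA1_D V x n n) (PA1_D V x n 0)
        (PA1_D_iff (Fin.natAdd n) fun j => Fin.val_natAdd n j)
        (PA1_D_iff (Fin.castAdd n) fun j => by simp)
      have hz : acc V x (n + n) (PA1_z (n + n)) = UP1_A V x (List.replicate (n + n) false) :=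
        UP1_zero
      rw [hz] at hle hy0
      have hx : x ∈ L ↔ a ≤ (if PA1_D V x n 0 = true then 1 / 2 else
          if PA1_D V x n n = true then 1 else
          if UP1_A V x (List.replicate (n + n) false) = true then 1 else (0 : ℝ)) := by
        constructor
        · intro h3
          obtain ⟨y, hy⟩ := h1 h3
          exact hy.trans (hle y)
        · intro h3
          by_contra h4
          have := h2 h4 y0
          rw [hy0] at this
          linarith
      rw [hx]
      split_ifs <;> simp

end Pool.Agent.H547R9
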