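import Pool.Agent.H547R9.Stm
import Pool.Agent.H547R8.T_UP1

/-!
# Conjunctive gate sets (helper415)
-/

set_option autoImplicit false

namespace Pool.Agent.H547R9

open Pool.Agent.H547R6 Pool.Agent.H547R7 Pool.Agent.H547R8 Pool.Agent.NPC
open Pool.Agent.H583R2 Pool.Agent.H545R2.KS

/-- the vector with a single zero -/
def PA2_z {n : ℕ} (i : Fin n) : Fin n → Bool := fun j => !decide (j = i)

theorem PA2_mono {n : ℕ} {F : BF n} (hF : ∀ x y, F (fun i => x i && y i) = (F x && F y))
    {u v : Fin n → Bool} (h : ∀ i, u i = true → v i = true) (hu : F u = true) : F v = true := by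
  have h1 := hF u v
  have h2 : (fun i => u i && v i) = u := by
    funext i
    cases hu' : u i
    · simp
    · simp [h i hu']
  rw [h2, hu, Bool.true_and] at h1
  exact h1.symm

theorem PA2_inter {n : ℕ} {G : BF n} (hG : ∀ x y, G (fun i => x i && y i) = (G x && G y))
    (h1 : G (fun _ => true) = true) (T : Finset (Fin n)) (hT : ∀ i ∈ T, G (PA2_z i) = true) :
    G (fun j => decide (j ∉ T)) = true := by
  classical
  induction T using Finset.induction_on with
  | empty => simpa using h1
  | insert a s ha ih =>
    have h2 := ih fun i hi => hT i (Finset.mem_insert_of_mem hi)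
    have h3 := hT a (Finset.mem_insert_self a s)
    have h4 := hG (PA2_z a) (fun j => decide (j ∉ s))
    rw [h2, h3, Bool.true_and] at h4
    rw [← h4]
    congr 1
    funext j
    by_cases hj : j = a <;> by_cases hs : j ∈ s <;> simp [PA2_z, hj, hs]

theorem PA2_iff {n : ℕ} {G : BF n} (hG : ∀ x y, G (fun i => x i && y i) = (G x && G y))
    (h1 : G (fun _ => true) = true) (r : Fin n → Bool) :
    G r = true ↔ ∀ i, G (PA2_z i) = false → r i = true := by
  classical
  constructor
  · intro h i hi
    by_contra hr
    rw [PA2_mono hG (v := PA2_z i) ?_ h] at hi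
    · exact Bool.noConfusion hi
    · intro j hj
      have : j ≠ i := by rintro rfl; exact hr hj
      simp [PA2_z, this]
  · intro h
    have h2 := PA2_inter hG h1 (Finset.univ.filter fun i => r i = false) (by
      intro i hi
      rw [Finset.mem_filter] at hi
      by_contra h3
      rw [Bool.not_eq_true] at h3
      rw [h i h3] at hi
      exact Bool.noConfusion hi.2)
    convert h2 using 2
    funext j
    cases hj : r j <;> simp [hj]

theorem PA2_pr {n : ℕ} {G : BF n} (hG : ∀ x y, G (fun i => x i && y i) = (G x && G y))
    (h1 : G (fun _ => true) = true) :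
    pr G = (1 / 2 : ℝ) ^ (Finset.univ.filter fun i => G (PA2_z i) = false).card := by
  classical
  set S := Finset.univ.filter fun i => G (PA2_z i) = false with hS
  have h2 : (Finset.univ.filter fun r : Fin n → Bool => G r = true) =
      Fintype.piFinset (fun i => if i ∈ S then ({true} : Finset Bool) else Finset.univ) := by
    ext r
    rw [Finset.mem_filter, Fintype.mem_piFinset, PA2_iff hG h1]
    simp only [Finset.mem_univ, true_and]
    apply forall_congr'
    intro i
    by_cases hi : G (PA2_z i) = false
    · have : i ∈ S := by rw [hS, Finset.mem_filter]; exact ⟨Finset.mem_univ _, hi⟩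
      rw [if_pos this, Finset.mem_singleton]
      exact ⟨fun h => h hi, fun h _ => h⟩
    · have : i ∉ S := by rw [hS, Finset.mem_filter]; exact fun h => hi h.2
      rw [if_neg this]
      exact ⟨fun _ => Finset.mem_univ _, fun _ h => absurd h hi⟩
  unfold pr
  rw [h2, Fintype.card_piFinset]
  have h3 : (Fintype.card (Fin n → Bool) : ℝ) = ∏ _i : Fin n, (2 : ℝ) := by
    rw [Finset.prod_const, Finset.card_univ, Fintype.card_fin, Fintype.card_fun, Fintype.card_bool,
      Fintype.card_fin]
    push_cast
    rfl
  rw [h3]
  push_cast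
  rw [← Finset.prod_div_distrib]
  have h4 : ∀ i ∈ (Finset.univ : Finset (Fin n)), (((if i ∈ S then ({true} : Finset Bool)
      else Finset.univ).card : ℕ) : ℝ) / 2 = if i ∈ S then (1 / 2 : ℝ) else 1 := by
    intro i _
    split_ifs <;> simp
  rw [Finset.prod_congr rfl h4, Finset.prod_ite, Finset.prod_const, Finset.prod_const, one_pow,
    mul_one]
  congr 2
  ext i
  simp

theorem PA2_zero {n : ℕ} {G : BF n} (hG : ∀ x y, G (fun i => x i && y i) = (G x && G y))
    (h1 : G (fun _ => true) = false) : pr G = 0 := by
  unfold pr
  have : (Finset.univ.filter fun r : Fin n → Bool => G r = true) = ∅ := by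
    rw [Finset.filter_eq_empty_iff]
    intro r _ hr
    rw [PA2_mono hG (v := fun _ => true) (fun _ _ => rfl) hr] at h1
    exact Bool.noConfusion h1
  rw [this]
  simp

/-- the predicate with all bits of the message equal to one -/
def PA2_G {n : ℕ} (F : BF (n + n)) : BF n := fun r => F (Fin.append r fun _ => true)

theorem PA2_Gconj {n : ℕ} {F : BF (n + n)} (hF : ∀ x y, F (fun i => x i && y i) = (F x && F y))
    (x y : Fin n → Bool) : PA2_G F (fun i => x i && y i) = (PA2_G F x && PA2_G F y) := by
  unfold PA2_G
  rw [← hF]
  congr 1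
  funext i
  refine Fin.addCases (fun i => ?_) (fun i => ?_) i
  · simp only [Fin.append_left]
  · simp only [Fin.append_right, Bool.and_true]

theorem PA2_app {n : ℕ} {F : BF (n + n)} (hF : ∀ x y, F (fun i => x i && y i) = (F x && F y))
    (r y : Fin n → Bool) (h : F (Fin.append r y) = true) : PA2_G F r = true := by
  refine PA2_mono hF ?_ h
  intro i
  refine Fin.addCases (fun i => ?_) (fun i => ?_) i
  · simp only [Fin.append_left]; exact id
  · simp only [Fin.append_right]; exact fun _ => trivial

theorem PA2_amv {n : ℕ} {F : BF (n + n)} (hF : ∀ x y, F (fun i => x i && y i) = (F x && F y)) :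
    amv F = pr (PA2_G F) := by
  unfold amv
  congr 1
  funext r
  by_cases h : ∃ y : Fin n → Bool, F (Fin.append r y) = true
  · rw [decide_eq_true h]
    obtain ⟨y, hy⟩ := h
    exact (PA2_app hF r y hy).symm
  · rw [decide_eq_false h]
    by_contra h2
    have h3 : PA2_G F r = true := by
      cases h4 : PA2_G F r
      · exact absurd h4.symm h2
      · rfl
    exact h ⟨fun _ => true, h3⟩

theorem PA2_mav {n : ℕ} {F : BF (n + n)} (hF : ∀ x y, F (fun i => x i && y i) = (F x && F y))
    (y : Fin n → Bool) : mav F y ≤ pr (PA2_G F) := by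
  unfold mav pr
  apply div_le_div_of_nonneg_right _ (Nat.cast_nonneg _)
  apply Nat.cast_le.2
  apply Finset.card_le_card
  intro r hr
  rw [Finset.mem_filter] at hr ⊢
  exact ⟨Finset.mem_univ _, PA2_app hF _ _ hr.2⟩

/-- the tested string -/
def PA2_w (p : Polynomial ℕ) (x : List Bool) (i : ℕ) : List Bool :=
  ((List.range (p.eval x.length)).map fun j => !decide (j = i)) ++
    List.replicate (p.eval x.length) true

theorem PA2_pf_w {α : Type} [H583R2.TEnc α] (p : Polynomial ℕ) {x : α → List Bool} {i : α → ℕ}
    (hx : PF x) (hi : PF i) : PF (fun a => PA2_w p (x a) (i a)) := by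
  unfold PA2_w
  exact PF.append (PF.map (f := fun a j => !decide (j = i a)) (PF.range (pf_eval (PF.length hx) p))
    (PF.not (PF.natEq PF.snd (hi.comp PF.fst))))
    (PF.replicate (pf_eval (PF.length hx) p) (PF.const true))

theorem PA2_Gz {V : List Bool → List Bool} (p : Polynomial ℕ) {x : List Bool}
    (i : Fin (p.eval x.length)) :
    PA2_G (acc V x (p.eval x.length + p.eval x.length)) (PA2_z i) = UP1_A V x (PA2_w p x i.val) := by
  unfold PA2_G
  rw [UP1_acc, List.ofFn_fin_append, List.ofFn_const]
  congr 1
  unfold PA2_w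
  congr 1
  apply List.ext_getElem
  · simp
  · intro k h1 h2
    simp [PA2_z, Fin.ext_iff]

theorem PA2_G1 {V : List Bool → List Bool} (p : Polynomial ℕ) {x : List Bool} :
    PA2_G (acc V x (p.eval x.length + p.eval x.length)) (fun _ => true) =
      UP1_A V x (List.replicate (p.eval x.length + p.eval x.length) true) := by
  unfold PA2_G
  rw [UP1_acc, List.ofFn_fin_append, List.ofFn_const, List.replicate_append_replicate]

theorem PA2_card (n : ℕ) (q : ℕ → Bool) (Q : Fin n → Prop) [DecidablePred Q]
    (h : ∀ i : Fin n, Q i ↔ q i.val = true) :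
    (Finset.univ.filter Q).card = ((List.range n).filter q).length := by
  have h1 : ((List.range n).filter q).length = ((Finset.range n).filter fun i => q i = true).card := by
    rw [← List.toFinset_card_of_nodup (List.nodup_range.filter q)]
    congr 1
    ext i
    simp
  rw [h1]
  refine Finset.card_bij (fun i _ => i.val) ?_ ?_ ?_
  · intro i hi
    rw [Finset.mem_filter] at hi
    rw [Finset.mem_filter, Finset.mem_range]
    exact ⟨i.2, (h i).1 hi.2⟩
  · intro i _ j _ hij
    exact Fin.ext hij
  · intro i hi
    rw [Finset.mem_filter, Finset.mem_range] at hi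
    exact ⟨⟨i, hi.1⟩, by rw [Finset.mem_filter]; exact ⟨Finset.mem_univ _, (h _).2 hi.2⟩, rfl⟩

theorem PA2_main {L : Set (List Bool)} {V : List Bool → List Bool} (p : Polynomial ℕ) (a : ℝ)
    (hV : PolyTime V)
    (hc : ∀ x : List Bool, ∀ u v, acc V x (p.eval x.length + p.eval x.length) (fun i => u i && v i) =
      (acc V x (p.eval x.length + p.eval x.length) u && acc V x (p.eval x.length + p.eval x.length) v))
    (hL : ∀ x, x ∈ L ↔ a ≤ pr (PA2_G (acc V x (p.eval x.length + p.eval x.length)))) : L ∈ P := by
  have hn : PF (fun x : List Bool => p.eval x.length) := pf_eval (PF.length PF.id) p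
  by_cases ha : a ≤ 0
  · refine UP1_inP (b := fun _ => true) (PF.const true) fun x => ?_
    rw [hL x]
    refine ⟨fun _ => rfl, fun _ => ha.trans ?_⟩
    unfold pr
    positivity
  · push Not at ha
    obtain ⟨K, hK⟩ : ∃ K : ℕ, ∀ k : ℕ, a ≤ (1 / 2 : ℝ) ^ k ↔ k < K := by
      classical
      have hex : ∃ k : ℕ, (1 / 2 : ℝ) ^ k < a := exists_pow_lt_of_lt_one ha (by norm_num)
      refine ⟨Nat.find hex, fun k => ?_⟩
      constructor
      · intro hk
        by_contra hlt
        push Not at hlt
        have h1 := Nat.find_spec hex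
        have h2 : (1 / 2 : ℝ) ^ k ≤ (1 / 2 : ℝ) ^ (Nat.find hex) :=
          pow_le_pow_of_le_one (by norm_num) (by norm_num) hlt
        linarith
      · intro hk
        have := Nat.find_min hex hk
        push Not at this
        exact this
    refine UP1_inP (b := fun x =>
      UP1_A V x (List.replicate (p.eval x.length + p.eval x.length) true) &&
      decide (((List.range (p.eval x.length)).filter fun i => !(UP1_A V x (PA2_w p x i))).length < K))
      ?_ fun x => ?_
    · refine PF.and (UP1_pf_A hV PF.id (PF.replicate (PF.add hn hn) (PF.const true))) ?_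
      refine PF.lt (PF.length (PF.filter (f := fun x i => !(UP1_A V x (PA2_w p x i))) (PF.range hn) ?_))
        (PF.const K)
      exact PF.not (UP1_pf_A hV PF.fst (PA2_pf_w p PF.fst PF.snd))
    · have hG := PA2_Gconj (hc x)
      rw [hL x, Bool.and_eq_true, decide_eq_true_iff]
      cases h1 : PA2_G (acc V x (p.eval x.length + p.eval x.length)) (fun _ => true)
      · rw [PA2_zero hG h1]
        rw [PA2_G1] at h1
        rw [h1]
        constructor
        · intro h2
          exact absurd h2 (not_le.2 ha)
        · rintro ⟨h2, _⟩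
          exact Bool.noConfusion h2
      · rw [PA2_pr hG h1, hK]
        rw [PA2_G1] at h1
        rw [h1]
        have h2 := PA2_card (p.eval x.length) (fun i => !(UP1_A V x (PA2_w p x i)))
          (fun i => PA2_G (acc V x (p.eval x.length + p.eval x.length)) (PA2_z i) = false) (by
            intro i
            rw [PA2_Gz, Bool.not_eq_true'])
        rw [h2]
        simp

theorem t_PA2 (h : S_CLS) : S_PA2 := by
  intro B hB
  constructor
  · rintro L ⟨V, p, q, a, b, hV, hab, hL⟩
    have hc : ∀ x : List Bool, ∀ u v, acc V x (p.eval x.length + p.eval x.length)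
        (fun i => u i && v i) = (acc V x (p.eval x.length + p.eval x.length) u &&
          acc V x (p.eval x.length + p.eval x.length) v) := fun x =>
      h B Conj (Or.inr (Or.inl rfl)) hB _ _ _ (hL x).1
    refine PA2_main p a hV hc fun x => ?_
    rw [← PA2_amv (hc x)]
    refine ⟨(hL x).2.1, fun h2 => ?_⟩
    by_contra h3
    exact absurd (h2.trans ((hL x).2.2 h3)) (not_le.2 hab)
  · rintro L ⟨V, p, q, a, b, hV, hab, hL⟩
    have hc : ∀ x : List Bool, ∀ u v, acc V x (p.eval x.length + p.eval x.length)
        (fun i => u i && v i) = (acc V x (p.eval x.length + p.eval x.length) u &&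
          acc V x (p.eval x.length + p.eval x.length) v) := fun x =>
      h B Conj (Or.inr (Or.inl rfl)) hB _ _ _ (hL x).1
    refine PA2_main p a hV hc fun x => ?_
    constructor
    · intro hx
      obtain ⟨y, hy⟩ := (hL x).2.1 hx
      exact hy.trans (PA2_mav (hc x) y)
    · intro h2
      by_contra h3
      have h4 := (hL x).2.2 h3 (fun _ => true)
      exact absurd (h2.trans h4) (not_le.2 hab)

end Pool.Agent.H547R9
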