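import Pool.Agent.H547R9.Stm
import Pool.Agent.H547R8.T_UP1
import Pool.Agent.H547R8.T_PR2

/-!
# Merlin-Arthur and Arthur-Merlin games over disjunctive gate sets
-/

set_option autoImplicit false

namespace Pool.Agent.H547R9

open Pool.Agent.H547R6 Pool.Agent.H547R7 Pool.Agent.H547R8 Pool.Agent.NPC
open Pool.Agent.H583R2 Pool.Agent.H545R2.KS

/-- number of the unit vectors with value one -/
def PA3_k {n : ℕ} (D : BF n) : ℕ := (Finset.univ.filter fun i => D (ev i) = true).card

theorem PA3_pr {n : ℕ} {D : BF n} (hD : (⟨n, D⟩ : BFun) ∈ Disj)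
    (h0 : D (fun _ => false) = false) : pr D = 1 - (1 / 2) ^ PA3_k D := by
  classical
  have hmem : ∀ x : Fin n → Bool, D x = false ↔ ∀ i, D (ev i) = true → x i = false := by
    intro x
    constructor
    · intro hx i hi
      by_contra hne
      have hxi : x i = true := by simpa using hne
      have h1 : D (fun j => x j || ev i j) = (D x || D (ev i)) := hD x (ev i)
      have e : (fun j => x j || ev i j) = x := by
        funext j
        unfold H547R8.ev
        by_cases hj : j = i
        · subst hj; simp [hxi]
        · simp [hj]
      rw [e, hx, hi] at h1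
      exact absurd h1 (by decide)
    · intro h
      by_contra hne
      have hx : D x = true := by simpa using hne
      obtain ⟨i, hi1, hi2⟩ := PR2_disj hD h0 x hx
      rw [h i hi2] at hi1
      exact absurd hi1 (by decide)
  have hcard : (Finset.univ.filter fun x : Fin n → Bool => D x = false).card =
      2 ^ (n - PA3_k D) := by
    have e : (Finset.univ.filter fun x : Fin n → Bool => D x = false) =
        Fintype.piFinset fun i => if D (ev i) = true then {false} else Finset.univ := by
      ext x
      rw [Finset.mem_filter, Fintype.mem_piFinset, hmem x]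
      simp only [Finset.mem_univ, true_and]
      refine forall_congr' fun i => ?_
      by_cases hi : D (ev i) = true
      · simp [hi]
      · simp [hi]
    rw [e, Fintype.card_piFinset]
    have e2 : ∀ i : Fin n, (if D (ev i) = true then ({false} : Finset Bool) else
        Finset.univ).card = if D (ev i) = true then 1 else 2 := by
      intro i
      by_cases hi : D (ev i) = true
      · simp [hi]
      · simp [hi]
    rw [Finset.prod_congr rfl fun i _ => e2 i, Finset.prod_ite, Finset.prod_const_one, one_mul,
      Finset.prod_const]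
    congr 1
    have h3 := Finset.card_filter_add_card_filter_not (s := (Finset.univ : Finset (Fin n)))
      (fun i => D (ev i) = true)
    rw [Finset.card_univ, Fintype.card_fin] at h3
    unfold PA3_k
    omega
  have hk : PA3_k D ≤ n := by
    have := Finset.card_filter_le (Finset.univ : Finset (Fin n)) (fun i => D (ev i) = true)
    rw [Finset.card_univ, Fintype.card_fin] at this
    exact this
  have hsum : (Finset.univ.filter fun x : Fin n → Bool => D x = true).card +
      (Finset.univ.filter fun x : Fin n → Bool => D x = false).card = 2 ^ n := by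
    have h3 := Finset.card_filter_add_card_filter_not (s := (Finset.univ : Finset (Fin n → Bool)))
      (fun x => D x = true)
    simp only [Bool.not_eq_true] at h3
    rw [h3, Finset.card_univ]
    simp
  rw [hcard] at hsum
  unfold pr
  have h4 : (Fintype.card (Fin n → Bool) : ℝ) = 2 ^ n := by simp
  have h5 : ((Finset.univ.filter fun x : Fin n → Bool => D x = true).card : ℝ) +
      2 ^ (n - PA3_k D) = 2 ^ n := by exact_mod_cast hsum
  rw [h4, div_eq_iff (by positivity)]
  have h6 : (2 : ℝ) ^ n = 2 ^ PA3_k D * 2 ^ (n - PA3_k D) := by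
    rw [← pow_add]
    congr 1
    omega
  have h7 : ((1 : ℝ) / 2) ^ PA3_k D * 2 ^ PA3_k D = 1 := by
    rw [← mul_pow]
    norm_num
  rw [sub_mul, one_mul, h6, ← mul_assoc, h7, one_mul, ← h6]
  linarith

/-- the predicate with the message zero -/
def PA3_D {n : ℕ} (F : BF (n + n)) : BF n := fun r => F (Fin.append r fun _ => false)

theorem PA3_app_or {n : ℕ} (r r' y y' : Fin n → Bool) :
    (fun i => Fin.append r y i || Fin.append r' y' i) =
      Fin.append (fun i => r i || r' i) (fun i => y i || y' i) := by
  funext i
  refine Fin.addCases (fun i => ?_) (fun i => ?_) i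
  · simp only [Fin.append_left]
  · simp only [Fin.append_right]

theorem PA3_split {n : ℕ} {F : BF (n + n)} (hF : (⟨n + n, F⟩ : BFun) ∈ Disj)
    (r y : Fin n → Bool) :
    F (Fin.append r y) = (PA3_D F r || F (Fin.append (fun _ => false) y)) := by
  have h := hF (Fin.append r fun _ => false) (Fin.append (fun _ => false) y)
  have h' : F (fun i => Fin.append r (fun _ => false) i || Fin.append (fun _ => false) y i) =
      (F (Fin.append r fun _ => false) || F (Fin.append (fun _ => false) y)) := h
  rw [PA3_app_or] at h'
  have e1 : (fun i => r i || false) = r := by funext i; simp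
  have e2 : (fun i => false || y i) = y := by funext i; simp
  rw [e1, e2] at h'
  exact h'

theorem PA3_disj {n : ℕ} {F : BF (n + n)} (hF : (⟨n + n, F⟩ : BFun) ∈ Disj) :
    (⟨n, PA3_D F⟩ : BFun) ∈ Disj := by
  intro u v
  change F (Fin.append (fun i => u i || v i) fun _ => false) =
    (F (Fin.append u fun _ => false) || F (Fin.append v fun _ => false))
  have h : F (fun i => Fin.append u (fun _ => false) i || Fin.append v (fun _ => false) i) =
      (F (Fin.append u fun _ => false) || F (Fin.append v fun _ => false)) :=
    hF (Fin.append u fun _ => false) (Fin.append v fun _ => false)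
  rw [PA3_app_or] at h
  exact h

theorem PA3_one {Ω : Type} [Fintype Ω] [Nonempty Ω] {p : Ω → Bool} (h : ∀ x, p x = true) :
    pr p = 1 := by
  unfold pr
  rw [Finset.filter_true_of_mem fun x _ => h x, Finset.card_univ]
  exact div_self (by exact_mod_cast Fintype.card_ne_zero)

theorem PA3_le {Ω : Type} [Fintype Ω] [Nonempty Ω] (p : Ω → Bool) : pr p ≤ 1 := by
  unfold pr
  rw [div_le_one (by exact_mod_cast Fintype.card_pos)]
  exact_mod_cast (Finset.card_filter_le _ _).trans (le_of_eq Finset.card_univ)

theorem PA3_mono {n : ℕ} {F : BF (n + n)} (hF : (⟨n + n, F⟩ : BFun) ∈ Disj)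
    (h : F (Fin.append (fun _ => false) fun _ => true) = false) (y : Fin n → Bool) :
    F (Fin.append (fun _ => false) y) = false := by
  have h' : F (fun i => Fin.append (fun _ => false) y i ||
      Fin.append (fun _ => false) (fun _ => true) i) =
      (F (Fin.append (fun _ => false) y) || F (Fin.append (fun _ => false) fun _ => true)) :=
    hF (Fin.append (fun _ => false) y) (Fin.append (fun _ => false) fun _ => true)
  rw [PA3_app_or] at h'
  have e1 : (fun _ : Fin n => false || false) = fun _ => false := by funext i; simp
  have e2 : (fun i => y i || true) = fun _ => true := by funext i; simp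
  rw [e1, e2, h] at h'
  revert h'
  cases F (Fin.append (fun _ => false) y) <;> simp

/-- the value if Merlin can win alone -/
theorem PA3_v1 {n : ℕ} {F : BF (n + n)} (hF : (⟨n + n, F⟩ : BFun) ∈ Disj)
    (h : F (Fin.append (fun _ => false) fun _ => true) = true) :
    amv F = 1 ∧ mav F (fun _ => true) = 1 := by
  constructor
  · unfold amv
    refine PA3_one fun r => ?_
    simp only [decide_eq_true_eq]
    exact ⟨fun _ => true, by rw [PA3_split hF, h, Bool.or_true]⟩
  · unfold mav
    refine PA3_one fun r => ?_
    rw [PA3_split hF, h, Bool.or_true]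

/-- the value if Merlin cannot help -/
theorem PA3_v0 {n : ℕ} {F : BF (n + n)} (hF : (⟨n + n, F⟩ : BFun) ∈ Disj)
    (h : F (Fin.append (fun _ => false) fun _ => true) = false) :
    amv F = 1 - (1 / 2) ^ PA3_k (PA3_D F) ∧ ∀ y, mav F y = 1 - (1 / 2) ^ PA3_k (PA3_D F) := by
  have h0 : PA3_D F (fun _ => false) = false := PA3_mono hF h fun _ => false
  have hp := PA3_pr (PA3_disj hF) h0
  have hs : ∀ r y, F (Fin.append r y) = PA3_D F r := fun r y => by
    rw [PA3_split hF, PA3_mono hF h, Bool.or_false]
  constructor
  · rw [← hp]
    unfold amv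
    congr 1
    funext r
    cases hr : PA3_D F r
    · rw [decide_eq_false_iff_not]
      rintro ⟨y, hy⟩
      rw [hs, hr] at hy
      exact absurd hy (by decide)
    · rw [decide_eq_true_iff]
      exact ⟨fun _ => false, by rw [hs, hr]⟩
  · intro y
    rw [← hp]
    unfold mav
    congr 1
    funext r
    exact hs r y

/-- the set of the `k` with `a ≤ 1 - 2 ^ (- k)` -/
theorem PA3_thr (a : ℝ) : ∃ (c : Bool) (K : ℕ), ∀ k : ℕ,
    a ≤ 1 - (1 / 2) ^ k ↔ (c && decide (K ≤ k)) = true := by
  classical
  by_cases h : ∃ k : ℕ, a ≤ 1 - (1 / 2) ^ k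
  · refine ⟨true, Nat.find h, fun k => ?_⟩
    rw [Bool.true_and, decide_eq_true_iff]
    constructor
    · intro hk
      exact Nat.find_min' h hk
    · intro hk
      have h1 := Nat.find_spec h
      have h2 : ((1 : ℝ) / 2) ^ k ≤ (1 / 2) ^ Nat.find h :=
        pow_le_pow_of_le_one (by norm_num) (by norm_num) hk
      linarith
  · refine ⟨false, 0, fun k => ?_⟩
    rw [Bool.false_and]
    constructor
    · intro hk
      exact absurd ⟨k, hk⟩ h
    · intro hk
      exact absurd hk (by decide)

theorem PA3_u (p : Polynomial ℕ) (x : List Bool) (i : Fin (p.eval x.length)) :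
    List.ofFn (ev i) = UP1_u p x i.val := by
  unfold UP1_u
  apply List.ext_getElem
  · simp
  · intro k h1 h2
    simp [H547R8.ev, Fin.ext_iff]

theorem PA3_cnt {V : List Bool → List Bool} (p : Polynomial ℕ) (x : List Bool) :
    PA3_k (PA3_D (acc V x (p.eval x.length + p.eval x.length))) =
      ((List.range (p.eval x.length)).filter fun i =>
        UP1_A V x (UP1_u p x i ++ List.replicate (p.eval x.length) false)).length := by
  have h1 : ∀ i : Fin (p.eval x.length),
      PA3_D (acc V x (p.eval x.length + p.eval x.length)) (ev i) =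
        UP1_A V x (UP1_u p x i.val ++ List.replicate (p.eval x.length) false) := by
    intro i
    unfold PA3_D
    rw [UP1_acc, List.ofFn_fin_append, PA3_u, List.ofFn_const]
  unfold PA3_k
  simp only [h1]
  generalize hg : (fun i : ℕ => UP1_A V x (UP1_u p x i ++
    List.replicate (p.eval x.length) false)) = g
  have h2 : ∀ i, UP1_A V x (UP1_u p x i ++ List.replicate (p.eval x.length) false) = g i :=
    fun i => congrFun hg i
  simp only [h2]
  generalize p.eval x.length = N
  rw [Finset.card_filter, ← Finset.sum_range (fun i => if g i = true then 1 else 0)]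
  induction N with
  | zero => simp
  | succ N ih =>
    rw [Finset.sum_range_succ, ih, List.range_succ, List.filter_append, List.length_append]
    congr 1
    cases hN : g N <;> simp [hN]

theorem PA3_fin {L : Set (List Bool)} {V : List Bool → List Bool} {p : Polynomial ℕ} {a : ℝ}
    (hV : PolyTime V)
    (hL : ∀ x : List Bool, x ∈ L ↔
      ((acc V x (p.eval x.length + p.eval x.length)
        (Fin.append (fun _ => false) fun _ => true) = true ∧ a ≤ 1) ∨
      (acc V x (p.eval x.length + p.eval x.length)
        (Fin.append (fun _ => false) fun _ => true) = false ∧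
        a ≤ 1 - (1 / 2) ^ PA3_k (PA3_D (acc V x (p.eval x.length + p.eval x.length)))))) :
    L ∈ P := by
  classical
  obtain ⟨c, K, hK⟩ := PA3_thr a
  have hn : PF (fun x : List Bool => p.eval x.length) := pf_eval (PF.length PF.id) p
  refine UP1_inP (b := fun x => if UP1_A V x (List.replicate (p.eval x.length) false ++
    List.replicate (p.eval x.length) true) = true then decide (a ≤ 1) else
      (c && decide (K ≤ ((List.range (p.eval x.length)).filter fun i =>
        UP1_A V x (UP1_u p x i ++ List.replicate (p.eval x.length) false)).length))) ?_ fun x => ?_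
  · refine PF.ite (UP1_pf_A hV PF.id (PF.append (PF.replicate hn (PF.const false))
      (PF.replicate hn (PF.const true)))) (PF.const _) (PF.and (PF.const _)
        (PF.le (PF.const _) (PF.length (PF.filter (f := fun x i =>
          UP1_A V x (UP1_u p x i ++ List.replicate (p.eval x.length) false)) (PF.range hn) ?_))))
    exact UP1_pf_A hV PF.fst (PF.append (UP1_pf_u p PF.fst PF.snd)
      (PF.replicate (hn.comp PF.fst) (PF.const false)))
  · have e : acc V x (p.eval x.length + p.eval x.length)
        (Fin.append (fun _ => false) fun _ => true) =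
        UP1_A V x (List.replicate (p.eval x.length) false ++
          List.replicate (p.eval x.length) true) := by
      rw [UP1_acc, List.ofFn_fin_append, List.ofFn_const, List.ofFn_const]
    rw [hL x, e, PA3_cnt, hK]
    cases UP1_A V x (List.replicate (p.eval x.length) false ++
      List.replicate (p.eval x.length) true)
    · simp
    · simp

theorem t_PA3 (h : S_CLS) : S_PA3 := by
  intro B hB
  constructor
  · rintro L ⟨V, p, q, a, b, hV, hab, hL⟩
    refine PA3_fin (p := p) (a := a) hV fun x => ?_
    have hF := h B Disj (Or.inr (Or.inr (Or.inl rfl))) hB _ _ _ (hL x).1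
    have hiff : x ∈ L ↔ a ≤ amv (acc V x (p.eval x.length + p.eval x.length)) := by
      refine ⟨(hL x).2.1, fun ha => ?_⟩
      by_contra hx
      have := (hL x).2.2 hx
      linarith
    rw [hiff]
    rcases Bool.eq_false_or_eq_true (acc V x (p.eval x.length + p.eval x.length)
        (Fin.append (fun _ => false) fun _ => true)) with h1 | h1
    · rw [(PA3_v1 hF h1).1, h1]
      simp
    · rw [(PA3_v0 hF h1).1, h1]
      simp
  · rintro L ⟨V, p, q, a, b, hV, hab, hL⟩
    refine PA3_fin (p := p) (a := a) hV fun x => ?_
    have hF := h B Disj (Or.inr (Or.inr (Or.inl rfl))) hB _ _ _ (hL x).1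
    have hiff : x ∈ L ↔ ∃ y, a ≤ mav (acc V x (p.eval x.length + p.eval x.length)) y := by
      refine ⟨(hL x).2.1, fun ha => ?_⟩
      by_contra hx
      obtain ⟨y, hy⟩ := ha
      have := (hL x).2.2 hx y
      linarith
    rw [hiff]
    rcases Bool.eq_false_or_eq_true (acc V x (p.eval x.length + p.eval x.length)
        (Fin.append (fun _ => false) fun _ => true)) with h1 | h1
    · rw [h1]
      constructor
      · rintro ⟨y, hy⟩
        exact Or.inl ⟨rfl, hy.trans (PA3_le _)⟩
      · rintro (⟨-, ha⟩ | ⟨h2, -⟩)
        · exact ⟨fun _ => true, by rw [(PA3_v1 hF h1).2]; exact ha⟩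
        · exact absurd h2 (by decide)
    · rw [h1]
      constructor
      · rintro ⟨y, hy⟩
        rw [(PA3_v0 hF h1).2 y] at hy
        exact Or.inr ⟨rfl, hy⟩
      · rintro (⟨h2, -⟩ | ⟨-, ha⟩)
        · exact absurd h2 (by decide)
        · exact ⟨fun _ => true, by rw [(PA3_v0 hF h1).2]; exact ha⟩

end Pool.Agent.H547R9
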