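import Pool.Agent.H547R9.Stm
import Pool.Agent.H547R8.T_TS2

/-!
# Lower bound
-/

set_option autoImplicit false

namespace Pool.Agent.H547R9

open Pool.Agent.H547R6 Pool.Agent.H547R7 Pool.Agent.H547R8 Pool.Agent.NPC
open Pool.Agent.H583R2 Pool.Agent.H545R2.KS

theorem PSB_half : pr (fun r : Fin 1 → Bool => r 0) = 1 / 2 := by
  unfold pr
  have h1 : (Finset.univ.filter fun x : Fin 1 → Bool => x 0 = true).card = 1 := by decide
  have h2 : Fintype.card (Fin 1 → Bool) = 2 := by decide
  rw [h1, h2]
  norm_num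

theorem PSB_one : pr (fun _ : Fin 1 → Bool => true) = 1 := by
  unfold pr
  have h2 : Fintype.card (Fin 1 → Bool) = 2 := by decide
  rw [Finset.filter_true_of_mem (fun x _ => rfl), Finset.card_univ, h2]
  norm_num

theorem PSB_mk {f : List Bool → List Bool} (hf : PolyTime f) : ∃ V' : List Bool → List Bool,
    PolyTime V' ∧ (∀ x, f x = [true] → acc V' x (1 + 1) = fun z => z 1) ∧
      (∀ x, f x ≠ [true] → acc V' x (1 + 1) = fun z => z 0) := by
  obtain ⟨V', hV', h⟩ := TS2_mk (fun x w => if (f x == [true]) = true then w.tail.headD false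
    else w.headD false) (by
      have hx := TS2_pfx
      have hw := TS2_pfw
      exact PF.ite (PF.beqStr ((pf_of_polyTime hf).comp hx) (PF.const [true]))
        (PF.headD (PF.tail hw) (PF.const false)) (PF.headD hw (PF.const false)))
  refine ⟨V', hV', fun x hx => ?_, fun x hx => ?_⟩
  · funext z
    rw [h, if_pos (by rw [hx]; rfl)]
    rfl
  · funext z
    rw [h, if_neg (by simpa using hx)]
    rfl

theorem PSB_comp (B : Set BFun) {n : ℕ} (s : ℕ) (i : Fin n) : Computes B n s fun z => z i :=
  ⟨[], Gates.nil, Nat.zero_le _, Or.inr ⟨i, rfl⟩⟩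

theorem t_PSB : S_PSB := by
  intro B
  constructor
  · rintro L ⟨f, hf, hL⟩
    obtain ⟨V, hV, h1, h0⟩ := PSB_mk hf
    refine ⟨V, 1, 0, 1, 1 / 2, hV, by norm_num, fun x => ?_⟩
    have e1 : (1 : Polynomial ℕ).eval x.length = 1 := by simp
    have e0 : (0 : Polynomial ℕ).eval x.length = 0 := by simp
    rw [e1, e0]
    by_cases hx : f x = [true]
    · rw [h1 x hx]
      refine ⟨PSB_comp B 0 1, fun _ => ?_, fun h => absurd ((hL x).2 hx) h⟩
      have h : amv (n := 1) (fun z : Fin (1 + 1) → Bool => z 1) = 1 := by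
        unfold amv
        rw [← PSB_one]
        exact congrArg _ (funext fun r => decide_eq_true ⟨fun _ => true, rfl⟩)
      rw [h]
    · rw [h0 x hx]
      refine ⟨PSB_comp B 0 0, fun h => absurd ((hL x).1 h) hx, fun _ => ?_⟩
      have h : amv (n := 1) (fun z : Fin (1 + 1) → Bool => z 0) = 1 / 2 := by
        unfold amv
        rw [← PSB_half]
        congr 1
        funext r
        cases hr : r 0
        · exact decide_eq_false (by
            rintro ⟨y, hy⟩
            exact Bool.false_ne_true (hr.symm.trans hy))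
        · exact decide_eq_true ⟨fun _ => true, hr⟩
      rw [h]
  · rintro L ⟨f, hf, hL⟩
    obtain ⟨V, hV, h1, h0⟩ := PSB_mk hf
    refine ⟨V, 1, 0, 1, 1 / 2, hV, by norm_num, fun x => ?_⟩
    have e1 : (1 : Polynomial ℕ).eval x.length = 1 := by simp
    have e0 : (0 : Polynomial ℕ).eval x.length = 0 := by simp
    rw [e1, e0]
    by_cases hx : f x = [true]
    · rw [h1 x hx]
      refine ⟨PSB_comp B 0 1, fun _ => ⟨fun _ => true, ?_⟩, fun h => absurd ((hL x).2 hx) h⟩
      have h : mav (n := 1) (fun z : Fin (1 + 1) → Bool => z 1) (fun _ => true) = 1 := by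
        unfold mav
        rw [← PSB_one]
        rfl
      rw [h]
    · rw [h0 x hx]
      refine ⟨PSB_comp B 0 0, fun h => absurd ((hL x).1 h) hx, fun _ y => ?_⟩
      have h : mav (n := 1) (fun z : Fin (1 + 1) → Bool => z 0) y = 1 / 2 := by
        unfold mav
        rw [← PSB_half]
        rfl
      rw [h]

end Pool.Agent.H547R9
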