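import Pool.Agent.H547R9.Stm

/-!
# Renaming of variables in circuits
-/

set_option autoImplicit false

namespace Pool.Agent.H547R9

open Pool.Agent.H547R6 Pool.Agent.H547R7 Pool.Agent.H547R8 Pool.Agent.NPC

/-- renaming -/
def REN_f {n m : ℕ} (σ : Fin n → Fin m) (f : BF n) : BF m := fun z => f fun i => z (σ i)

theorem REN_avail {n m : ℕ} (σ : Fin n → Fin m) {l : List (BF n)} {f : BF n} (h : Avail l f) :
    Avail (l.map (REN_f σ)) (REN_f σ f) := by
  rcases h with h | ⟨i, rfl⟩
  · exact Or.inl (List.mem_map.2 ⟨f, h, rfl⟩)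
  · exact Or.inr ⟨σ i, rfl⟩

theorem REN_gates {B : Set BFun} {n m : ℕ} (σ : Fin n → Fin m) {l : List (BF n)}
    (h : Gates B n l) : Gates B m (l.map (REN_f σ)) := by
  induction h with
  | nil => exact Gates.nil
  | gate l k f g hf hg _ ih =>
    exact Gates.gate (l.map (REN_f σ)) k f (fun j => REN_f σ (g j)) hf
      (fun j => REN_avail σ (hg j)) ih

theorem REN_aon {n m : ℕ} (σ : Fin n → Fin m) {s : ℕ} {l : List (BF n)}
    (h : AON n s l) : AON m s (l.map (REN_f σ)) := by
  induction h with
  | nil => exact AON.nil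
  | not s l a _ ha ih => exact AON.not s _ (REN_f σ a) ih (REN_avail σ ha)
  | and s l a b _ ha hb ih =>
    exact AON.and s _ (REN_f σ a) (REN_f σ b) ih (REN_avail σ ha) (REN_avail σ hb)
  | or s l a b _ ha hb ih =>
    exact AON.or s _ (REN_f σ a) (REN_f σ b) ih (REN_avail σ ha) (REN_avail σ hb)

/-- the index function of `re` -/
def REN_s (n : ℕ) : Fin (n + n + 2) → Fin ((n + 1) + (n + 1)) :=
  Fin.cons (Fin.castAdd (n + 1) 0) (Fin.cons (Fin.natAdd (n + 1) 0)
    (Fin.append (fun i => Fin.castAdd (n + 1) i.succ) (fun i => Fin.natAdd (n + 1) i.succ)))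

theorem REN_re (n : ℕ) (G : BF (n + n + 2)) : re n G = REN_f (REN_s n) G := by
  funext z
  unfold re REN_f
  congr 1
  funext i
  induction i using Fin.cases with
  | zero => rfl
  | succ i =>
    induction i using Fin.cases with
    | zero => rfl
    | succ i =>
      refine Fin.addCases (fun j => ?_) (fun j => ?_) i
      · show Fin.append (fun i : Fin n => z (Fin.castAdd (n + 1) i.succ))
          (fun i : Fin n => z (Fin.natAdd (n + 1) i.succ)) (Fin.castAdd n j) =
          z (Fin.append (fun i : Fin n => Fin.castAdd (n + 1) i.succ)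
            (fun i : Fin n => Fin.natAdd (n + 1) i.succ) (Fin.castAdd n j))
        rw [Fin.append_left, Fin.append_left]
      · show Fin.append (fun i : Fin n => z (Fin.castAdd (n + 1) i.succ))
          (fun i : Fin n => z (Fin.natAdd (n + 1) i.succ)) (Fin.natAdd n j) =
          z (Fin.append (fun i : Fin n => Fin.castAdd (n + 1) i.succ)
            (fun i : Fin n => Fin.natAdd (n + 1) i.succ) (Fin.natAdd n j))
        rw [Fin.append_right, Fin.append_right]

theorem REN_comp {B : Set BFun} {n m s : ℕ} (σ : Fin n → Fin m) {C : BF n}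
    (h : Computes B n s C) : Computes B m s (REN_f σ C) := by
  obtain ⟨l, h1, h2, h3⟩ := h
  exact ⟨l.map (REN_f σ), REN_gates σ h1, by rw [List.length_map]; exact h2, REN_avail σ h3⟩

theorem t_REN : S_REN := by
  refine ⟨fun B n m s σ C h => REN_comp σ h, fun n m s σ C h => ?_, fun B n s G h => ?_⟩
  · obtain ⟨l, s', h1, h2, h3⟩ := h
    exact ⟨l.map (REN_f σ), s', REN_aon σ h1, h2, REN_avail σ h3⟩
  · rw [REN_re]
    exact REN_comp (REN_s n) h

end Pool.Agent.H547R9
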