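import Pool.Agent.H547R9.Stm
import Pool.Agent.H547R8.T_TFR

/-!
# `mono` in polynomial time
-/

set_option autoImplicit false

namespace Pool.Agent.H547R9

open Pool.Agent.H547R6 Pool.Agent.H547R7 Pool.Agent.H547R8 Pool.Agent.NPC
open Pool.Agent.H583R2 Pool.Agent.H545R2.KS

/-! ### the parameter is determined by the length -/

/-- the length of the two strings together -/
def TMO_len (n : ℕ) : ℕ := 2 * kh n * (2 * hh n) + 2 * kh n * (2 * hh n)

theorem TMO_hh_lt {m n : ℕ} (h : m < n) : hh m < hh n := by
  unfold hh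
  have : (m + 1) ^ 2 < (n + 1) ^ 2 := Nat.pow_lt_pow_left (by omega) (by norm_num)
  omega

theorem TMO_hh_pos (n : ℕ) : 0 < hh n := by
  unfold hh
  positivity

theorem TMO_kh_lt {m n : ℕ} (h : m < n) : kh m < kh n := by
  unfold kh
  have h1 := TMO_hh_lt h
  have : (2 * hh m + 1) ^ 2 < (2 * hh n + 1) ^ 2 := Nat.pow_lt_pow_left (by omega) (by norm_num)
  omega

theorem TMO_len_lt {m n : ℕ} (h : m < n) : TMO_len m < TMO_len n := by
  have h1 := TMO_hh_lt h
  have h2 := TMO_kh_lt h
  have h3 : 2 * kh m * (2 * hh m) < 2 * kh n * (2 * hh n) :=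
    Nat.mul_lt_mul'' (by omega) (by omega)
  unfold TMO_len
  omega

theorem TMO_len_inj {m n : ℕ} (h : TMO_len m = TMO_len n) : m = n := by
  rcases lt_trichotomy m n with h1 | h1 | h1
  · exact absurd h (TMO_len_lt h1).ne
  · exact h1
  · exact absurd h.symm (TMO_len_lt h1).ne

theorem TMO_le (n : ℕ) : n ≤ TMO_len n := by
  induction n with
  | zero => exact Nat.zero_le _
  | succ n ih => exact lt_of_le_of_lt ih (TMO_len_lt (Nat.lt_succ_self n))

/-- the parameter -/
def TMO_n (w : List Bool) : ℕ :=
  ((List.range (w.length + 1)).filter fun k => decide (TMO_len k = w.length)).headD 0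

theorem TMO_n_eq (n : ℕ) (w : List Bool) (hw : w.length = TMO_len n) : TMO_n w = n := by
  unfold TMO_n
  have h1 : n ∈ (List.range (w.length + 1)).filter fun k => decide (TMO_len k = w.length) := by
    rw [List.mem_filter, List.mem_range, hw]
    exact ⟨Nat.lt_succ_of_le (TMO_le n), by simp⟩
  have h2 : ∀ k ∈ (List.range (w.length + 1)).filter fun k => decide (TMO_len k = w.length),
      k = n := by
    intro k hk
    have := (List.mem_filter.1 hk).2
    rw [decide_eq_true_eq, hw] at this
    exact TMO_len_inj this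
  revert h1 h2
  generalize (List.range (w.length + 1)).filter (fun k => decide (TMO_len k = w.length)) = l
  intro h1 h2
  cases l with
  | nil => simp at h1
  | cons a t => exact h2 a List.mem_cons_self

/-! ### polynomial time -/

section

variable {α : Type} [H583R2.TEnc α]

theorem TMO_pf_hh {n : α → ℕ} (hn : PF n) : PF (fun a => hh (n a)) := by
  unfold hh
  exact PF.mul (PF.const 8) (pf_pow (PF.succ hn) 2)

theorem TMO_pf_kh {n : α → ℕ} (hn : PF n) : PF (fun a => kh (n a)) := by
  unfold kh
  exact PF.mul (PF.const 150) (pf_pow (PF.succ (PF.mul (PF.const 2) (TMO_pf_hh hn))) 2)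

theorem TMO_pf_len {n : α → ℕ} (hn : PF n) : PF (fun a => TMO_len (n a)) := by
  unfold TMO_len
  have h := PF.mul (PF.mul (PF.const 2) (TMO_pf_kh hn)) (PF.mul (PF.const 2) (TMO_pf_hh hn))
  exact PF.add h h

theorem TMO_pf_n {w : α → List Bool} (hw : PF w) : PF (fun a => TMO_n (w a)) := by
  unfold TMO_n
  exact PF.headD (PF.filter (f := fun a k => decide (TMO_len k = (w a).length))
    (PF.range (PF.succ (PF.length hw)))
    (PF.natEq (TMO_pf_len PF.snd) (PF.length (hw.comp PF.fst)))) (PF.const 0)

/-- the value of a block -/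
def TMO_v (V : List Bool → List Bool) (x : List Bool) (n : ℕ) (b : List Bool) : Bool :=
  decide (hh n < (b.filter fun c => c).length) ||
    (decide ((b.filter fun c => c).length = hh n) && UP1_A V x (b.take n))

theorem TMO_pf_v {V : List Bool → List Bool} (hV : PolyTime V) {x b : α → List Bool} {n : α → ℕ}
    (hx : PF x) (hn : PF n) (hb : PF b) : PF (fun a => TMO_v V (x a) (n a) (b a)) := by
  have hf : PF (fun a => ((b a).filter fun c => c).length) :=
    PF.length (PF.filter (f := fun _ c => c) hb PF.snd)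
  unfold TMO_v
  exact PF.or (PF.lt (TMO_pf_hh hn) hf) (PF.and (PF.natEq hf (TMO_pf_hh hn))
    (UP1_pf_A hV hx (PF.take hn hb)))

/-- the value -/
def TMO_b (V : List Bool → List Bool) (x w : List Bool) : Bool :=
  decide (kh (TMO_n w) ≤ ((List.range (2 * kh (TMO_n w))).filter fun i =>
    TMO_v V x (TMO_n w) ((w.drop (2 * hh (TMO_n w) * i)).take (2 * hh (TMO_n w)))).length)

theorem TMO_pf_b {V : List Bool → List Bool} (hV : PolyTime V) :
    PF (fun z : List Bool => TMO_b V (spl z).1 (spl z).2) := by
  have hx := TS2_pfx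
  have hw := TS2_pfw
  have hN : PF (fun z : List Bool => TMO_n (spl z).2) := TMO_pf_n hw
  have hh1 : PF (fun z : List Bool => 2 * hh (TMO_n (spl z).2)) :=
    PF.mul (PF.const 2) (TMO_pf_hh hN)
  unfold TMO_b
  refine PF.le (TMO_pf_kh hN) (PF.length (PF.filter (f := fun (z : List Bool) (i : ℕ) =>
    TMO_v V (spl z).1 (TMO_n (spl z).2) (((spl z).2.drop (2 * hh (TMO_n (spl z).2) * i)).take
      (2 * hh (TMO_n (spl z).2)))) (PF.range (PF.mul (PF.const 2) (TMO_pf_kh hN))) ?_))
  refine TMO_pf_v hV (hx.comp PF.fst) (hN.comp PF.fst) ?_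
  exact PF.take (hh1.comp PF.fst) (PF.drop (PF.mul (hh1.comp PF.fst) PF.snd) (hw.comp PF.fst))

end

/-! ### the value is correct -/

theorem TMO_range (r : ℕ) (p : ℕ → Bool) :
    ((List.range r).filter p).length =
      (Finset.univ.filter fun i : Fin r => p i.val = true).card := by
  rw [← List.countP_eq_length_filter, Finset.card_filter,
    Fin.sum_univ_eq_sum_range (fun i => if p i = true then 1 else 0) r]
  induction r with
  | zero => simp
  | succ r ih =>
    rw [List.range_succ, List.countP_append, Finset.sum_range_succ, ih]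
    simp [List.countP_cons]

theorem TMO_wt {m : ℕ} (y : Fin m → Bool) :
    ((List.ofFn y).filter fun c => c).length = wt y := by
  have h : List.ofFn y = (List.range m).map fun i => (List.ofFn y).getD i false := by
    apply List.ext_getElem
    · simp
    · intro i h1 h2
      simp at h2
      simp [List.getD_eq_getElem?_getD, h2]
  rw [h, List.filter_map, List.length_map, TMO_range]
  unfold wt
  congr 1
  apply Finset.filter_congr
  intro i _
  simp [List.getD_eq_getElem?_getD]

theorem TMO_take {n m : ℕ} (h : n ≤ m) (y : Fin m → Bool) :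
    (List.ofFn y).take n = List.ofFn fun i : Fin n => y (Fin.castLE h i) := by
  apply List.ext_getElem
  · simp [h]
  · intro k h1 h2
    simp only [List.getElem_take, List.getElem_ofFn]
    rfl

theorem TMO_v_eq (V : List Bool → List Bool) (x : List Bool) (n : ℕ)
    (y : Fin (2 * hh n) → Bool) :
    TMO_v V x n (List.ofFn y) = mid n (hh n) (acc V x n) (hh_le n) y := by
  unfold TMO_v mid slice
  rw [TMO_wt, TMO_take (hh_le n)]
  beta_reduce
  rw [UP1_acc]

theorem TMO_block (k m : ℕ) (z : Fin (k * m + k * m) → Bool) (i : Fin k) :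
    ((List.ofFn z).drop (m * i.val)).take m =
      List.ofFn (blk (fun j : Fin (k * m) => z (Fin.castAdd _ j)) i) := by
  have h1 : m * i.val + m ≤ k * m := by
    have := i.isLt
    calc m * i.val + m = (i.val + 1) * m := by ring
      _ ≤ k * m := Nat.mul_le_mul_right _ this
  apply List.ext_getElem
  · rw [List.length_take, List.length_drop, List.length_ofFn, List.length_ofFn]
    omega
  · intro j h2 h3
    rw [List.length_ofFn] at h3
    simp only [List.getElem_take, List.getElem_drop, List.getElem_ofFn, blk]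
    congr 1
    apply Fin.ext
    show m * i.val + j = (finProdFinEquiv (i, (⟨j, h3⟩ : Fin m)) : Fin (k * m)).val
    have hv : (finProdFinEquiv (i, (⟨j, h3⟩ : Fin m)) : Fin (k * m)).val = j + m * i.val := rfl
    rw [hv]
    ring

theorem TMO_cnt (k m : ℕ) (f : List Bool → Bool) (g : BF m) (hfg : ∀ y, f (List.ofFn y) = g y)
    (z : Fin (k * m + k * m) → Bool) :
    ((List.range k).filter fun i => f (((List.ofFn z).drop (m * i)).take m)).length =
      cnt (fun _ : Fin k => g) (blk fun j : Fin (k * m) => z (Fin.castAdd _ j)) := by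
  rw [TMO_range]
  unfold cnt
  congr 1
  apply Finset.filter_congr
  intro i _
  rw [TMO_block k m z i, hfg]

theorem t_TMO : S_TMO := by
  intro V hV
  obtain ⟨V', hV', h⟩ := TS2_mk (TMO_b V) (TMO_pf_b hV)
  refine ⟨V', hV', fun x n => ?_⟩
  funext z
  rw [h]
  unfold TMO_b
  rw [TMO_n_eq n (List.ofFn z) (by rw [List.length_ofFn, TMO_len])]
  unfold mono
  rw [TMO_cnt (2 * kh n) (2 * hh n) (TMO_v V x n) _ (TMO_v_eq V x n) z]

end Pool.Agent.H547R9
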