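import Pool.Agent.H547R9.T_NBP
import Pool.Agent.H547R8.T_TS2

/-!
# The three functions in polynomial time
-/

set_option autoImplicit false

namespace Pool.Agent.H547R9

open Pool.Agent.H547R6 Pool.Agent.H547R7 Pool.Agent.H547R8 Pool.Agent.NPC
open Pool.Agent.H583R2 Pool.Agent.H545R2.KS

/-- first bit of the first half -/
def TRE_a (w : List Bool) : Bool := (w.take (NBP_h w)).headD false

/-- first bit of the second half -/
def TRE_b (w : List Bool) : Bool := (w.drop (NBP_h w)).headD false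

/-- the other bits -/
def TRE_t (w : List Bool) : List Bool := (w.take (NBP_h w)).tail ++ (w.drop (NBP_h w)).tail

theorem TRE_pfa {α : Type} [H583R2.TEnc α] {w : α → List Bool} (hw : PF w) :
    PF (fun a => TRE_a (w a)) := by
  unfold TRE_a
  exact PF.headD (PF.take (NBP_pf_h hw) hw) (PF.const false)

theorem TRE_pfb {α : Type} [H583R2.TEnc α] {w : α → List Bool} (hw : PF w) :
    PF (fun a => TRE_b (w a)) := by
  unfold TRE_b
  exact PF.headD (PF.drop (NBP_pf_h hw) hw) (PF.const false)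

theorem TRE_pft {α : Type} [H583R2.TEnc α] {w : α → List Bool} (hw : PF w) :
    PF (fun a => TRE_t (w a)) := by
  unfold TRE_t
  exact PF.append (PF.tail (PF.take (NBP_pf_h hw) hw)) (PF.tail (PF.drop (NBP_pf_h hw) hw))

theorem TRE_ea {n : ℕ} (z : Fin ((n + 1) + (n + 1)) → Bool) :
    TRE_a (List.ofFn z) = z (Fin.castAdd (n + 1) 0) := by
  unfold TRE_a
  rw [(NBP_split z).1, List.ofFn_succ]
  rfl

theorem TRE_eb {n : ℕ} (z : Fin ((n + 1) + (n + 1)) → Bool) :
    TRE_b (List.ofFn z) = z (Fin.natAdd (n + 1) 0) := by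
  unfold TRE_b
  rw [(NBP_split z).2, List.ofFn_succ]
  rfl

theorem TRE_et {n : ℕ} (z : Fin ((n + 1) + (n + 1)) → Bool) :
    TRE_t (List.ofFn z) = List.ofFn (Fin.append (fun i : Fin n => z (Fin.castAdd (n + 1) i.succ))
      (fun i : Fin n => z (Fin.natAdd (n + 1) i.succ))) := by
  unfold TRE_t
  rw [(NBP_split z).1, (NBP_split z).2, List.ofFn_succ, List.ofFn_succ, List.tail_cons,
    List.tail_cons, List.ofFn_fin_append]

theorem t_TRE : S_TRE := by
  intro V hV
  refine ⟨?_, ?_, ?_⟩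
  · obtain ⟨V', hV', h⟩ := TS2_mk (fun x w => TRE_a w || (TRE_b w && UP1_A V x (TRE_t w))) (by
        have hx := TS2_pfx
        have hw := TS2_pfw
        exact PF.or (TRE_pfa hw) (PF.and (TRE_pfb hw) (UP1_pf_A hV hx (TRE_pft hw))))
    refine ⟨V', hV', fun x n => ?_⟩
    funext z
    rw [h, TRE_ea, TRE_eb, TRE_et, ← UP1_acc]
    rfl
  · obtain ⟨V', hV', h⟩ := TS2_mk (fun x w => TRE_b w && (TRE_a w || UP1_A V x (TRE_t w))) (by
        have hx := TS2_pfx
        have hw := TS2_pfw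
        exact PF.and (TRE_pfb hw) (PF.or (TRE_pfa hw) (UP1_pf_A hV hx (TRE_pft hw))))
    refine ⟨V', hV', fun x n => ?_⟩
    funext z
    rw [h, TRE_ea, TRE_eb, TRE_et, ← UP1_acc]
    rfl
  · obtain ⟨V', hV', h⟩ := TS2_mk (fun x w => if (TRE_a w == TRE_b w) = true then TRE_a w else
        if TRE_b w = true then UP1_A V x (TRE_t w) else
          !UP1_A V x ((TRE_t w).map fun b => !b)) (by
        have hx := TS2_pfx
        have hw := TS2_pfw
        exact PF.ite (PF.beqBool (TRE_pfa hw) (TRE_pfb hw)) (TRE_pfa hw)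
          (PF.ite (TRE_pfb hw) (UP1_pf_A hV hx (TRE_pft hw))
            (PF.not (UP1_pf_A hV hx (PF.map (TRE_pft hw) (PF.not PF.snd))))))
    refine ⟨V', hV', fun x n => ?_⟩
    funext z
    rw [h, TRE_ea, TRE_eb, TRE_et, List.map_ofFn, ← UP1_acc, ← UP1_acc]
    simp only [beq_iff_eq]
    rfl

end Pool.Agent.H547R9
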