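import Pool.Agent.H547R9.Stm

/-!
# Values of the Arthur-Merlin games of `S2`, `S3`, `MJ`
-/

set_option autoImplicit false

namespace Pool.Agent.H547R9

open Pool.Agent.H547R6 Pool.Agent.H547R7 Pool.Agent.H547R8 Pool.Agent.NPC

theorem VAM_pr_sum {Ω : Type} [Fintype Ω] (p : Ω → Bool) :
    pr p = (∑ x, if p x = true then (1 : ℝ) else 0) / Fintype.card Ω := by
  unfold pr
  rw [Finset.card_filter]
  push_cast
  rfl

/-- splitting off the first bit -/
theorem VAM_split {n : ℕ} (p : (Fin (n + 1) → Bool) → Bool) :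
    pr p = (pr (fun r : Fin n → Bool => p (Fin.cons true r)) +
      pr (fun r : Fin n → Bool => p (Fin.cons false r))) / 2 := by
  rw [VAM_pr_sum, VAM_pr_sum, VAM_pr_sum]
  have h1 : (∑ x : Fin (n + 1) → Bool, if p x = true then (1 : ℝ) else 0) =
      (∑ x : Fin n → Bool, if p (Fin.cons true x) = true then (1 : ℝ) else 0) +
      ∑ x : Fin n → Bool, if p (Fin.cons false x) = true then (1 : ℝ) else 0 := by
    rw [← (Fin.consEquiv fun _ : Fin (n + 1) => Bool).sum_comp, Fintype.sum_prod_type,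
      Fintype.sum_bool]
    rfl
  have h2 : (Fintype.card (Fin (n + 1) → Bool) : ℝ) = 2 * Fintype.card (Fin n → Bool) := by
    simp only [Fintype.card_fun, Fintype.card_bool, Fintype.card_fin]
    push_cast
    ring
  have h3 : (Fintype.card (Fin n → Bool) : ℝ) ≠ 0 := by
    simp
  rw [h1, h2]
  field_simp

theorem VAM_re {n : ℕ} (G : BF (n + n + 2)) (r0 y0 : Bool) (r y : Fin n → Bool) :
    re n G (Fin.append (Fin.cons r0 r : Fin (n + 1) → Bool) (Fin.cons y0 y : Fin (n + 1) → Bool)) =
      G (Fin.cons r0 (Fin.cons y0 (Fin.append r y))) := by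
  unfold re
  simp only [Fin.append_left, Fin.append_right, Fin.cons_zero, Fin.cons_succ]

theorem VAM_gen {n : ℕ} (G : BF (n + n + 2)) (C : BF (n + n))
    (h1 : ∀ r : Fin n → Bool, ∃ (y0 : Bool) (y : Fin n → Bool),
      G (Fin.cons true (Fin.cons y0 (Fin.append r y))) = true)
    (h0 : ∀ r : Fin n → Bool, (∃ (y0 : Bool) (y : Fin n → Bool),
      G (Fin.cons false (Fin.cons y0 (Fin.append r y))) = true) ↔
        ∃ y : Fin n → Bool, C (Fin.append r y) = true) :
    amv (re n G) = (1 + amv C) / 2 := by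
  unfold amv
  rw [VAM_split]
  have key : ∀ (r0 : Bool) (r : Fin n → Bool),
      (∃ y : Fin (n + 1) → Bool, re n G (Fin.append (Fin.cons r0 r : Fin (n + 1) → Bool) y) = true) ↔
      ∃ (y0 : Bool) (y : Fin n → Bool),
        G (Fin.cons r0 (Fin.cons y0 (Fin.append r y))) = true := by
    intro r0 r
    constructor
    · rintro ⟨y, hy⟩
      refine ⟨y 0, fun i => y i.succ, ?_⟩
      have h2 : (Fin.cons (y 0) (fun i => y i.succ) : Fin (n + 1) → Bool) = y :=
        Fin.cons_self_tail y
      have h3 := VAM_re G r0 (y 0) r (fun i => y i.succ)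
      rw [h2] at h3
      rw [← h3]
      exact hy
    · rintro ⟨y0, y, hy⟩
      exact ⟨Fin.cons y0 y, by rw [VAM_re]; exact hy⟩
  have e1 : (fun r : Fin n → Bool => decide (∃ y : Fin (n + 1) → Bool,
      re n G (Fin.append (Fin.cons true r : Fin (n + 1) → Bool) y) = true)) = fun _ => true := by
    funext r
    rw [decide_eq_true_iff, key]
    exact h1 r
  have e0 : (fun r : Fin n → Bool => decide (∃ y : Fin (n + 1) → Bool,
      re n G (Fin.append (Fin.cons false r : Fin (n + 1) → Bool) y) = true)) =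
      fun r : Fin n → Bool => decide (∃ y : Fin n → Bool, C (Fin.append r y) = true) := by
    funext r
    rw [decide_eq_decide, key]
    exact h0 r
  rw [e1, e0]
  have e2 : pr (fun _ : Fin n → Bool => true) = 1 := by
    rw [VAM_pr_sum]
    simp
  rw [e2]

theorem VAM_tail {n : ℕ} (a b : Bool) (v : Fin n → Bool) :
    (fun i : Fin n => (Fin.cons a (Fin.cons b v : Fin (n + 1) → Bool) : Fin (n + 2) → Bool)
      i.succ.succ) = v := by
  funext i
  simp

theorem VAM_one {n : ℕ} (a b : Bool) (v : Fin n → Bool) :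
    (Fin.cons a (Fin.cons b v : Fin (n + 1) → Bool) : Fin (n + 2) → Bool) 1 = b := rfl

theorem VAM_zero {n : ℕ} (a b : Bool) (v : Fin n → Bool) :
    (Fin.cons a (Fin.cons b v : Fin (n + 1) → Bool) : Fin (n + 2) → Bool) 0 = a := rfl

theorem t_VAM : S_VAM := by
  intro n C
  refine ⟨VAM_gen _ _ ?_ ?_, VAM_gen _ _ ?_ ?_, VAM_gen _ _ ?_ ?_⟩
  · intro r
    refine ⟨true, fun _ => true, ?_⟩
    unfold S2
    rw [VAM_zero]
    simp
  · intro r
    unfold S2
    constructor
    · rintro ⟨y0, y, hy⟩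
      rw [VAM_zero, VAM_one, VAM_tail] at hy
      exact ⟨y, by simpa using (Bool.and_eq_true_iff.1 (by simpa using hy)).2⟩
    · rintro ⟨y, hy⟩
      refine ⟨true, y, ?_⟩
      rw [VAM_zero, VAM_one, VAM_tail, hy]
      rfl
  · intro r
    refine ⟨true, fun _ => true, ?_⟩
    unfold S3
    rw [VAM_zero, VAM_one]
    simp
  · intro r
    unfold S3
    constructor
    · rintro ⟨y0, y, hy⟩
      rw [VAM_zero, VAM_one, VAM_tail] at hy
      exact ⟨y, by simpa using (Bool.and_eq_true_iff.1 (by simpa using hy)).2⟩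
    · rintro ⟨y, hy⟩
      refine ⟨true, y, ?_⟩
      rw [VAM_zero, VAM_one, VAM_tail, hy]
      rfl
  · intro r
    refine ⟨true, fun _ => true, ?_⟩
    unfold MJ
    rw [VAM_zero, VAM_one]
    simp
  · intro r
    unfold MJ
    constructor
    · rintro ⟨y0, y, hy⟩
      rw [VAM_zero, VAM_one, VAM_tail] at hy
      cases y0
      · simp at hy
      · exact ⟨y, by simpa using hy⟩
    · rintro ⟨y, hy⟩
      refine ⟨true, y, ?_⟩
      rw [VAM_zero, VAM_one, VAM_tail, hy]
      rfl

end Pool.Agent.H547R9
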