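import Pool.Agent.H547R9.Stm

/-!
# Values of the Merlin-Arthur games
-/

set_option autoImplicit false

namespace Pool.Agent.H547R9

open Pool.Agent.H547R6 Pool.Agent.H547R7 Pool.Agent.H547R8 Pool.Agent.NPC

theorem VMA_pr_sum {Ω : Type} [Fintype Ω] (p : Ω → Bool) :
    pr p = (∑ x, if p x = true then (1 : ℝ) else 0) / Fintype.card Ω := by
  unfold pr
  rw [Finset.sum_boole]

theorem VMA_split (n : ℕ) (F : Bool → BF n) :
    pr (fun r : Fin (n + 1) → Bool => F (r 0) (fun i => r i.succ)) =
      (pr (F false) + pr (F true)) / 2 := by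
  simp only [VMA_pr_sum]
  rw [← Equiv.sum_comp (Fin.consEquiv fun _ : Fin (n + 1) => Bool), Fintype.sum_prod_type,
    Fintype.sum_bool]
  simp only [Fin.consEquiv_apply, Fin.cons_zero, Fin.cons_succ, Fintype.card_pi,
    Fintype.card_bool, Finset.prod_const, Finset.card_univ, Fintype.card_fin, Nat.cast_pow,
    Nat.cast_ofNat]
  rw [pow_succ]
  field_simp
  ring

theorem VMA_nonneg {n : ℕ} (F : BF n) : 0 ≤ pr F := by
  unfold pr; positivity

theorem VMA_le_one {n : ℕ} (F : BF n) : pr F ≤ 1 := by
  unfold pr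
  apply div_le_one_of_le₀ _ (by positivity)
  exact_mod_cast Finset.card_le_univ _

theorem VMA_true (n : ℕ) : pr (fun _ : Fin n → Bool => true) = 1 := by
  rw [VMA_pr_sum]
  simp

theorem VMA_false (n : ℕ) : pr (fun _ : Fin n → Bool => false) = 0 := by
  rw [VMA_pr_sum]
  simp

theorem VMA_re (n : ℕ) (G : BF (n + n + 2)) (y : Fin (n + 1) → Bool) :
    mav (re n G) y = (pr (fun r : Fin n → Bool =>
        G (Fin.cons false (Fin.cons (y 0) (Fin.append r fun i => y i.succ)))) +
      pr (fun r : Fin n → Bool =>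
        G (Fin.cons true (Fin.cons (y 0) (Fin.append r fun i => y i.succ))))) / 2 := by
  rw [← VMA_split n fun b r => G (Fin.cons b (Fin.cons (y 0) (Fin.append r fun i => y i.succ)))]
  unfold mav re
  congr 1
  funext r
  simp only [Fin.append_left, Fin.append_right]

theorem VMA_s2 (n : ℕ) (C : BF (n + n)) (b c : Bool) (w : Fin (n + n) → Bool) :
    S2 (n + n) C (Fin.cons b (Fin.cons c w)) = (b || (c && C w)) := by
  unfold S2
  have h1 : (Fin.cons b (Fin.cons c w : Fin (n + n + 1) → Bool) : Fin (n + n + 2) → Bool) 1 = c := by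
    rw [show (1 : Fin (n + n + 2)) = Fin.succ 0 from rfl, Fin.cons_succ, Fin.cons_zero]
  rw [h1]
  simp only [Fin.cons_zero, Fin.cons_succ]

theorem VMA_s3 (n : ℕ) (C : BF (n + n)) (b c : Bool) (w : Fin (n + n) → Bool) :
    S3 (n + n) C (Fin.cons b (Fin.cons c w)) = (c && (b || C w)) := by
  unfold S3
  have h1 : (Fin.cons b (Fin.cons c w : Fin (n + n + 1) → Bool) : Fin (n + n + 2) → Bool) 1 = c := by
    rw [show (1 : Fin (n + n + 2)) = Fin.succ 0 from rfl, Fin.cons_succ, Fin.cons_zero]
  rw [h1]
  simp only [Fin.cons_zero, Fin.cons_succ]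

theorem VMA_mj (n : ℕ) (C : BF (n + n)) (b c : Bool) (w : Fin (n + n) → Bool) :
    MJ (n + n) C (Fin.cons b (Fin.cons c w)) =
      if b = c then b else if c = true then C w else !C fun i => !w i := by
  unfold MJ
  have h1 : (Fin.cons b (Fin.cons c w : Fin (n + n + 1) → Bool) : Fin (n + n + 2) → Bool) 1 = c := by
    rw [show (1 : Fin (n + n + 2)) = Fin.succ 0 from rfl, Fin.cons_succ, Fin.cons_zero]
  rw [h1]
  simp only [Fin.cons_zero, Fin.cons_succ]

/-- the value if the first bit of the message is `true` -/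
theorem VMA_true_case (n : ℕ) (C : BF (n + n)) (G : BF (n + n + 2))
    (hG : G = S2 (n + n) C ∨ G = S3 (n + n) C ∨ G = MJ (n + n) C) (y : Fin (n + 1) → Bool)
    (hy : y 0 = true) : mav (re n G) y = (1 + mav C fun i => y i.succ) / 2 := by
  rw [VMA_re, hy]
  have h1 : (fun r : Fin n → Bool =>
      G (Fin.cons true (Fin.cons true (Fin.append r fun i => y i.succ)))) = fun _ => true := by
    funext r
    rcases hG with rfl | rfl | rfl
    · rw [VMA_s2]; simp
    · rw [VMA_s3]; simp
    · rw [VMA_mj]; simp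
  have h2 : (fun r : Fin n → Bool =>
      G (Fin.cons false (Fin.cons true (Fin.append r fun i => y i.succ)))) =
      fun r => C (Fin.append r fun i => y i.succ) := by
    funext r
    rcases hG with rfl | rfl | rfl
    · rw [VMA_s2]; simp
    · rw [VMA_s3]; simp
    · rw [VMA_mj]; simp
  rw [h1, h2, VMA_true]
  unfold mav
  ring

/-- the value if the first bit of the message is `false` -/
theorem VMA_false_case (n : ℕ) (C : BF (n + n)) (G : BF (n + n + 2))
    (hG : G = S2 (n + n) C ∨ G = S3 (n + n) C ∨ G = MJ (n + n) C) (y : Fin (n + 1) → Bool)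
    (hy : y 0 = false) : mav (re n G) y ≤ 1 / 2 := by
  rw [VMA_re, hy]
  have h2 : (fun r : Fin n → Bool =>
      G (Fin.cons false (Fin.cons false (Fin.append r fun i => y i.succ)))) = fun _ => false := by
    funext r
    rcases hG with rfl | rfl | rfl
    · rw [VMA_s2]; simp
    · rw [VMA_s3]; simp
    · rw [VMA_mj]; simp
  rw [h2, VMA_false]
  have := VMA_le_one (fun r : Fin n → Bool =>
      G (Fin.cons true (Fin.cons false (Fin.append r fun i => y i.succ))))
  linarith

theorem t_VMA : S_VMA := by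
  intro n C G hG a b hb
  constructor
  · rintro ⟨y, hy⟩
    refine ⟨Fin.cons true y, ?_⟩
    rw [VMA_true_case n C G hG _ (Fin.cons_zero _ _)]
    simp only [Fin.cons_succ]
    linarith
  · intro h y
    rcases hy : y 0 with _ | _
    · have := VMA_false_case n C G hG y hy
      linarith
    · rw [VMA_true_case n C G hG y hy]
      have := h fun i => y i.succ
      linarith

end Pool.Agent.H547R9
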